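import Pool.Agent.MEC.Basic

open MeasureTheory Set Filter

set_option linter.unusedSectionVars false

namespace Pool.Agent.MEC

variable {V : Type*} [MeasurableSpace V] [MeasurableEq V]
variable {G : SimpleGraph V} {Δ : ℕ} {ν : Measure V} [IsFiniteMeasure ν]

namespace PCol

open Classical in
/-- Pointwise limit of a sequence of partial colourings. -/
noncomputable def limS (c : ℕ → PCol G Δ) (k : Fin Δ) (x : V) : V :=
  if h : ∃ y, ∀ᶠ n in atTop, (c n).S k x = y then h.choose else x

lemma limS_eq {c : ℕ → PCol G Δ} {k : Fin Δ} {x y : V}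
    (h : ∀ᶠ n in atTop, (c n).S k x = y) : limS c k x = y := by
  have h' : ∃ y, ∀ᶠ n in atTop, (c n).S k x = y := ⟨y, h⟩
  rw [limS, dif_pos h']
  have := h'.choose_spec
  obtain ⟨n, h1, h2⟩ := (this.and h).exists
  exact h1.symm.trans h2

lemma limS_eq_self {c : ℕ → PCol G Δ} {k : Fin Δ} {x : V}
    (h : ¬ ∃ y, ∀ᶠ n in atTop, (c n).S k x = y) : limS c k x = x := by
  rw [limS, dif_neg h]

lemma limS_spec {c : ℕ → PCol G Δ} {k : Fin Δ} {x : V} (h : limS c k x ≠ x) :
    ∀ᶠ n in atTop, (c n).S k x = limS c k x := by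
  by_cases h' : ∃ y, ∀ᶠ n in atTop, (c n).S k x = y
  · obtain ⟨y, hy⟩ := h'
    rw [limS_eq hy]; exact hy
  · exact absurd (limS_eq_self h') h

lemma measurable_limS (c : ℕ → PCol G Δ) (k : Fin Δ) : Measurable (limS c k) := by
  intro B hB
  set A : ℕ → Set V := fun N => {x | ∀ n, N ≤ n → (c n).S k x = (c N).S k x} with hA
  have hAm : ∀ N, MeasurableSet (A N) := by
    intro N
    have : A N = ⋂ n, {x | N ≤ n → (c n).S k x = (c N).S k x} := by
      ext x; simp [hA]
    rw [this]
    refine MeasurableSet.iInter fun n => ?_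
    by_cases hn : N ≤ n
    · simp only [hn, true_imp_iff]
      exact measurableSet_eq_fun ((c n).meas k) ((c N).meas k)
    · simp [hn]
  have key : limS c k ⁻¹' B = (⋃ N, A N ∩ (c N).S k ⁻¹' B) ∪ ((⋃ N, A N)ᶜ ∩ B) := by
    ext x
    simp only [mem_preimage, mem_union, mem_iUnion, mem_inter_iff, mem_compl_iff]
    by_cases h : ∃ N, x ∈ A N
    · obtain ⟨N, hN⟩ := h
      have hev : ∀ M, x ∈ A M → limS c k x = (c M).S k x := by
        intro M hM
        refine limS_eq ?_
        filter_upwards [eventually_ge_atTop M] with n hn using hM n hn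
      constructor
      · intro hx
        left
        refine ⟨N, hN, ?_⟩
        rwa [← hev N hN]
      · rintro (⟨M, hM, hx⟩ | ⟨hno, -⟩)
        · rwa [hev M hM]
        · exact absurd ⟨N, hN⟩ hno
    · have hns : ¬ ∃ y, ∀ᶠ n in atTop, (c n).S k x = y := by
        rintro ⟨y, hy⟩
        obtain ⟨N, hN⟩ := eventually_atTop.1 hy
        refine h ⟨N, fun n hn => ?_⟩
        rw [hN n hn, hN N le_rfl]
      rw [limS_eq_self hns]
      constructor
      · intro hx; right; exact ⟨h, hx⟩
      · rintro (⟨M, hM, -⟩ | ⟨-, hx⟩)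
        · exact absurd ⟨M, hM⟩ h
        · exact hx
  rw [key]
  refine MeasurableSet.union (MeasurableSet.iUnion fun N => (hAm N).inter ((c N).meas k hB)) ?_
  exact (MeasurableSet.iUnion hAm).compl.inter hB

/-- The limit colouring. -/
noncomputable def lim (c : ℕ → PCol G Δ) : PCol G Δ where
  S := limS c
  meas := measurable_limS c
  invol := by
    intro k x
    by_cases h : ∃ y, ∀ᶠ n in atTop, (c n).S k x = y
    · obtain ⟨y, hy⟩ := h
      rw [limS_eq hy]
      refine limS_eq ?_
      filter_upwards [hy] with n hn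
      rw [← hn]; exact (c n).invol k x
    · rw [limS_eq_self h, limS_eq_self h]
  adj := by
    intro k x h
    obtain ⟨n, hn⟩ := (limS_spec h).exists
    rw [← hn]
    exact (c n).adj k x (by rw [hn]; exact h)
  disj := by
    intro k k' x he hne
    have h1 := limS_spec hne
    have h2 := limS_spec (k := k') (x := x) (c := c) (by rw [← he]; exact hne)
    obtain ⟨n, hn1, hn2⟩ := (h1.and h2).exists
    exact (c n).disj k k' x (by rw [hn1, hn2, he]) (by rw [hn1]; exact hne)

lemma ae_eventually_eq_lim (c : ℕ → PCol G Δ) (hs : Summable fun n => dst ν (c n) (c (n+1))) :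
    ∀ᵐ x ∂ν, ∀ k, ∀ᶠ n in atTop, (c n).S k x = (lim c).S k x := by
  rw [ae_all_iff]
  intro k
  have hsum : ∑' n, ν {x | (c n).S k x ≠ (c (n+1)).S k x} ≠ ⊤ := by
    have h1 : Summable fun n => ν.real {x | (c n).S k x ≠ (c (n+1)).S k x} := by
      refine Summable.of_nonneg_of_le (fun n => measureReal_nonneg) (fun n => ?_) hs
      exact Finset.single_le_sum (f := fun k => ν.real {x | (c n).S k x ≠ (c (n+1)).S k x})
        (fun _ _ => measureReal_nonneg) (Finset.mem_univ k)
    have h2 : ∀ n, ν {x | (c n).S k x ≠ (c (n+1)).S k x} =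
        ENNReal.ofReal (ν.real {x | (c n).S k x ≠ (c (n+1)).S k x}) := by
      intro n
      rw [ofReal_measureReal]
    simp_rw [h2]
    exact h1.tsum_ofReal_ne_top
  filter_upwards [ae_eventually_notMem hsum] with x hx
  obtain ⟨N, hN⟩ := eventually_atTop.1 hx
  have hconst : ∀ n, N ≤ n → (c n).S k x = (c N).S k x := by
    intro n hn
    induction n, hn using Nat.le_induction with
    | base => rfl
    | succ n hn ih =>
      have := hN n hn
      simp only [not_not] at this
      rw [← this, ih]
  have hev : ∀ᶠ n in atTop, (c n).S k x = (c N).S k x := by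
    filter_upwards [eventually_ge_atTop N] with n hn using hconst n hn
  have : (lim c).S k x = (c N).S k x := limS_eq hev
  rw [this]; exact hev

lemma dst_lim_le (c : ℕ → PCol G Δ) (hs : Summable fun n => dst ν (c n) (c (n+1))) (n : ℕ) :
    dst ν (c n) (lim c) ≤ ∑' m, dst ν (c (n+m)) (c (n+m+1)) := by
  have hs' : Summable fun m => dst ν (c (n+m)) (c (n+m+1)) := by
    have := (summable_nat_add_iff n).2 hs
    refine this.congr fun m => ?_
    simp [add_comm]
  have hk : ∀ k, Summable fun m => ν.real {x | (c (n+m)).S k x ≠ (c (n+m+1)).S k x} := by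
    intro k
    refine Summable.of_nonneg_of_le (fun m => measureReal_nonneg) (fun m => ?_) hs'
    exact Finset.single_le_sum (f := fun k => ν.real {x | (c (n+m)).S k x ≠ (c (n+m+1)).S k x})
      (fun _ _ => measureReal_nonneg) (Finset.mem_univ k)
  have hswap : ∑' m, dst ν (c (n+m)) (c (n+m+1)) =
      ∑ k, ∑' m, ν.real {x | (c (n+m)).S k x ≠ (c (n+m+1)).S k x} := by
    unfold dst
    exact Summable.tsum_finsetSum fun k _ => hk k
  rw [hswap]
  refine Finset.sum_le_sum fun k _ => ?_
  have hsub : ν {x | (c n).S k x ≠ (lim c).S k x} ≤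
      ν (⋃ m, {x | (c (n+m)).S k x ≠ (c (n+m+1)).S k x}) := by
    refine measure_mono_ae ?_
    filter_upwards [ae_eventually_eq_lim (ν := ν) c hs] with x hx hne
    have hne' : (c n).S k x ≠ (lim c).S k x := hne
    change x ∈ ⋃ m, {x | (c (n+m)).S k x ≠ (c (n+m+1)).S k x}
    rw [mem_iUnion]
    by_contra hcon
    push Not at hcon
    have hconst : ∀ m, (c (n+m)).S k x = (c n).S k x := by
      intro m
      induction m with
      | zero => rfl
      | succ m ih =>
        have := hcon m
        simp only [mem_ofPred_eq, not_not] at this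
        rw [← ih, this]; rfl
    obtain ⟨N, hN⟩ := eventually_atTop.1 (hx k)
    have h1 := hN (n + N) (Nat.le_add_left _ _)
    rw [hconst N] at h1
    exact hne' h1
  have h3 : ν (⋃ m, {x | (c (n+m)).S k x ≠ (c (n+m+1)).S k x}) ≤
      ∑' m, ν {x | (c (n+m)).S k x ≠ (c (n+m+1)).S k x} := measure_iUnion_le _
  have h4 : ∑' m, ν {x | (c (n+m)).S k x ≠ (c (n+m+1)).S k x} =
      ENNReal.ofReal (∑' m, ν.real {x | (c (n+m)).S k x ≠ (c (n+m+1)).S k x}) := by
    rw [ENNReal.ofReal_tsum_of_nonneg (fun _ => measureReal_nonneg) (hk k)]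
    refine tsum_congr fun m => ?_
    rw [ofReal_measureReal]
  have h5 := hsub.trans (h3.trans_eq h4)
  rw [measureReal_def]
  exact ENNReal.toReal_le_of_le_ofReal (tsum_nonneg fun _ => measureReal_nonneg) h5

end PCol

end Pool.Agent.MEC
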