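import Pool.Agent.MEC.Improve

open MeasureTheory Set Filter
open scoped ENNReal

set_option linter.unusedSectionVars false

namespace Pool.Agent.MEC

variable {V : Type*} [MeasurableSpace V] [StandardBorelSpace V]
variable {G : SimpleGraph V} {Δ : ℕ}

/-! ### Counting neighbours in a measurable set -/

/-- the vertices with at least `k` neighbours in `B` -/
def XX (G : SimpleGraph V) (B : Set V) (k : ℕ) : Set V :=
  {x | (k : ℕ∞) ≤ (G.neighborSet x ∩ B).encard}

/-- increasing enumerations of `k` neighbours in `B` -/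
def PP (G : SimpleGraph V) (B : Set V) (k : ℕ) : Set (V × (Fin k → V)) :=
  {p | (∀ i, G.Adj p.1 (p.2 i)) ∧ (∀ i, p.2 i ∈ B) ∧
    ∀ i j, i < j → embeddingReal V (p.2 i) < embeddingReal V (p.2 j)}

lemma measurableSet_PP (hE : MeasurableSet {p : V × V | G.Adj p.1 p.2}) {B : Set V}
    (hB : MeasurableSet B) (k : ℕ) : MeasurableSet (PP G B k) := by
  have hev : ∀ i : Fin k, Measurable fun p : V × (Fin k → V) => p.2 i := fun i =>
    (measurable_pi_apply i).comp measurable_snd
  have h1 : MeasurableSet {p : V × (Fin k → V) | ∀ i, G.Adj p.1 (p.2 i)} := by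
    rw [ofPred_forall]
    exact MeasurableSet.iInter fun i => (measurable_fst.prodMk (hev i)) hE
  have h2 : MeasurableSet {p : V × (Fin k → V) | ∀ i, p.2 i ∈ B} := by
    rw [ofPred_forall]
    exact MeasurableSet.iInter fun i => hev i hB
  have h3 : MeasurableSet {p : V × (Fin k → V) | ∀ i j, i < j →
      embeddingReal V (p.2 i) < embeddingReal V (p.2 j)} := by
    simp only [ofPred_forall]
    refine MeasurableSet.iInter fun i => MeasurableSet.iInter fun j => MeasurableSet.iInter fun _ =>
      ?_
    exact measurableSet_lt ((measurable_embeddingReal V).comp (hev i))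
      ((measurable_embeddingReal V).comp (hev j))
  exact h1.inter (h2.inter h3)

lemma PP_injective {B : Set V} {k : ℕ} {p : V × (Fin k → V)} (hp : p ∈ PP G B k) :
    StrictMono fun i => embeddingReal V (p.2 i) := fun i j h => hp.2.2 i j h

lemma PP_range_encard {B : Set V} {k : ℕ} {p : V × (Fin k → V)} (hp : p ∈ PP G B k) :
    (range p.2).encard = k := by
  have hinj : Function.Injective p.2 := fun i j h => (PP_injective hp).injective (by simp [h])
  rw [← image_univ, hinj.encard_image]
  simp

lemma PP_fst_mem {B : Set V} {k : ℕ} {p : V × (Fin k → V)} (hp : p ∈ PP G B k) :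
    p.1 ∈ XX G B k := by
  have hsub : range p.2 ⊆ G.neighborSet p.1 ∩ B := by
    rintro _ ⟨i, rfl⟩
    exact ⟨hp.1 i, hp.2.1 i⟩
  have := encard_le_encard hsub
  rw [PP_range_encard hp] at this
  exact this

lemma exists_PP {B : Set V} {k : ℕ} {x : V} (hx : (G.neighborSet x ∩ B).encard = k) :
    ∃ u, (x, u) ∈ PP G B k := by
  classical
  have hfin : (G.neighborSet x ∩ B).Finite := finite_of_encard_eq_coe hx
  set s := (hfin.image (embeddingReal V)).toFinset with hs
  have hinjE : Function.Injective (embeddingReal V) :=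
    (measurableEmbedding_embeddingReal V).injective
  have hcard : s.card = k := by
    have h1 : (embeddingReal V '' (G.neighborSet x ∩ B)).encard = k := by
      rw [hinjE.encard_image, hx]
    rw [(hfin.image (embeddingReal V)).encard_eq_coe_toFinset_card] at h1
    exact_mod_cast h1
  have h2 : ∀ i : Fin k, ∃ y ∈ G.neighborSet x ∩ B, embeddingReal V y = s.orderEmbOfFin hcard i := by
    intro i
    have := s.orderEmbOfFin_mem hcard i
    exact (Set.Finite.mem_toFinset (hfin.image (embeddingReal V))).1 this
  choose u hu1 hu2 using h2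
  refine ⟨u, fun i => (hu1 i).1, fun i => (hu1 i).2, fun i j hij => ?_⟩
  simp only [hu2]
  exact (s.orderEmbOfFin hcard).strictMono hij

lemma measurableSet_XX (hE : MeasurableSet {p : V × V | G.Adj p.1 p.2})
    (hdeg : ∀ x, (G.neighborSet x).encard ≤ Δ) {B : Set V}
    (hB : MeasurableSet B) (k : ℕ) (hk : k ≤ Δ + 1) : MeasurableSet (XX G B k) := by
  induction hk using Nat.decreasingInduction with
  | self =>
    have : XX G B (Δ+1) = ∅ := by
      rw [eq_empty_iff_forall_notMem]
      intro x hx
      have h1 : ((Δ + 1 : ℕ) : ℕ∞) ≤ Δ := (le_trans hx (encard_le_encard inter_subset_left)).trans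
        (hdeg x)
      have h2 : Δ + 1 ≤ Δ := by exact_mod_cast h1
      omega
    rw [this]; exact MeasurableSet.empty
  | of_succ k hk ih =>
    have hQ : MeasurableSet (PP G B k ∩ Prod.fst ⁻¹' (XX G B (k+1))ᶜ) :=
      (measurableSet_PP hE hB k).inter (measurable_fst ih.compl)
    have hinj : InjOn Prod.fst (PP G B k ∩ Prod.fst ⁻¹' (XX G B (k+1))ᶜ) := by
      rintro ⟨x, u⟩ ⟨hp, hp'⟩ ⟨x', u'⟩ ⟨hq, hq'⟩ (rfl : x = x')
      have hle : (G.neighborSet x ∩ B).encard ≤ k := by
        by_contra hcon
        rw [not_le] at hcon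
        apply hp'
        show ((k + 1 : ℕ) : ℕ∞) ≤ _
        push_cast
        exact Order.add_one_le_of_lt hcon
      have hfin : (G.neighborSet x ∩ B).Finite := finite_of_encard_le_coe hle
      have hr : ∀ {v : Fin k → V}, (x, v) ∈ PP G B k → range v = G.neighborSet x ∩ B := by
        intro v hv
        have hsub : range v ⊆ G.neighborSet x ∩ B := by
          rintro _ ⟨i, rfl⟩
          exact ⟨hv.1 i, hv.2.1 i⟩
        refine (hfin.subset hsub).eq_of_subset_of_encard_le hsub ?_
        rw [PP_range_encard hv]
        exact hle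
      have h1 : range (fun i => embeddingReal V (u i)) = range (fun i => embeddingReal V (u' i)) := by
        have e1 : range (fun i => embeddingReal V (u i)) = embeddingReal V '' range u := by
          rw [← range_comp]; rfl
        have e2 : range (fun i => embeddingReal V (u' i)) = embeddingReal V '' range u' := by
          rw [← range_comp]; rfl
        rw [e1, e2, hr hp, hr hq]
      have h2 := (StrictMono.range_inj (PP_injective hp) (PP_injective hq)).1 h1
      have h3 : u = u' := by
        funext i
        exact (measurableEmbedding_embeddingReal V).injective (congrFun h2 i)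
      rw [h3]
    have himg := hQ.image_of_measurable_injOn measurable_fst hinj
    have : XX G B k = Prod.fst '' (PP G B k ∩ Prod.fst ⁻¹' (XX G B (k+1))ᶜ) ∪ XX G B (k+1) := by
      ext x
      constructor
      · intro hx
        by_cases h : x ∈ XX G B (k+1)
        · right; exact h
        · left
          have hle : (G.neighborSet x ∩ B).encard ≤ k := by
            by_contra hcon
            rw [not_le] at hcon
            apply h
            show ((k + 1 : ℕ) : ℕ∞) ≤ _
            push_cast
            exact Order.add_one_le_of_lt hcon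
          obtain ⟨u, hu⟩ := exists_PP (le_antisymm hle hx)
          exact ⟨(x, u), ⟨hu, h⟩, rfl⟩
      · rintro (⟨p, ⟨hp, -⟩, rfl⟩ | hx)
        · exact PP_fst_mem hp
        · refine le_trans ?_ (show ((k + 1 : ℕ) : ℕ∞) ≤ _ from hx)
          exact_mod_cast Nat.le_succ k
    rw [this]
    exact himg.union ih

/-! ### The unique neighbour in a set -/

open Classical in
/-- the unique neighbour of `x` in `B`, if there is exactly one; otherwise `x` -/
noncomputable def nbr (G : SimpleGraph V) (B : Set V) (x : V) : V :=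
  if h : ∃ y, G.neighborSet x ∩ B = {y} then h.choose else x

lemma nbr_eq {B : Set V} {x y : V} (h : G.neighborSet x ∩ B = {y}) : nbr G B x = y := by
  have h' : ∃ y, G.neighborSet x ∩ B = {y} := ⟨y, h⟩
  unfold nbr
  rw [dif_pos h']
  exact (singleton_eq_singleton_iff.1 (h.symm.trans h'.choose_spec)).symm

lemma nbr_spec {B : Set V} {x : V} (h : nbr G B x ≠ x) :
    G.neighborSet x ∩ B = {nbr G B x} := by
  by_cases h' : ∃ y, G.neighborSet x ∩ B = {y}
  · obtain ⟨y, hy⟩ := h'
    rw [nbr_eq hy]; exact hy
  · exfalso; apply h; unfold nbr; rw [dif_neg h']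

lemma nbr_adj {B : Set V} {x : V} (h : nbr G B x ≠ x) : G.Adj x (nbr G B x) ∧ nbr G B x ∈ B := by
  have h1 := nbr_spec h
  have : nbr G B x ∈ G.neighborSet x ∩ B := by rw [h1]; exact mem_singleton _
  exact this

lemma measurable_nbr (hE : MeasurableSet {p : V × V | G.Adj p.1 p.2})
    (hdeg : ∀ x, (G.neighborSet x).encard ≤ Δ) (hΔ : 1 ≤ Δ) {B : Set V}
    (hB : MeasurableSet B) : Measurable (nbr G B) := by
  have h1 := measurableSet_XX hE hdeg hB 1 (by omega)
  have h2 := measurableSet_XX hE hdeg hB 2 (by omega)
  have hone : ∀ x, (∃ y, G.neighborSet x ∩ B = {y}) ↔ x ∈ XX G B 1 \ XX G B 2 := by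
    intro x
    rw [← encard_eq_one, Set.mem_sdiff]
    unfold XX
    simp only [mem_ofPred_eq]
    constructor
    · intro h; rw [h]; exact ⟨by norm_num, by norm_num⟩
    · rintro ⟨ha, hb⟩
      rw [not_le] at hb
      have hfin : (G.neighborSet x ∩ B).Finite := by
        refine finite_of_encard_le_coe (k := 2) hb.le
      rw [hfin.encard_eq_coe_toFinset_card] at *
      have ha' : 1 ≤ hfin.toFinset.card := by exact_mod_cast ha
      have hb' : hfin.toFinset.card < 2 := by exact_mod_cast hb
      have : hfin.toFinset.card = 1 := by omega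
      rw [this]; rfl
  intro C hC
  have hBC := measurableSet_XX hE hdeg (hB.inter hC) 1 (by omega)
  have : nbr G B ⁻¹' C = ((XX G B 1 \ XX G B 2) ∩ XX G (B ∩ C) 1) ∪
      ((XX G B 1 \ XX G B 2)ᶜ ∩ C) := by
    ext x
    rw [mem_preimage]
    by_cases hx : x ∈ XX G B 1 \ XX G B 2
    · obtain ⟨y, hy⟩ := (hone x).2 hx
      rw [nbr_eq hy]
      have hyB : y ∈ G.neighborSet x ∩ B := by rw [hy]; exact mem_singleton _
      constructor
      · intro hyC
        left
        refine ⟨hx, ?_⟩
        show ((1 : ℕ) : ℕ∞) ≤ _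
        rw [Nat.cast_one, one_le_encard_iff_nonempty]
        exact ⟨y, hyB.1, hyB.2, hyC⟩
      · rintro (⟨-, h⟩ | ⟨h, -⟩)
        · have h' : ((1 : ℕ) : ℕ∞) ≤ (G.neighborSet x ∩ (B ∩ C)).encard := h
          rw [Nat.cast_one, one_le_encard_iff_nonempty] at h'
          obtain ⟨z, hz1, hz2, hz3⟩ := h'
          have : z ∈ ({y} : Set V) := by rw [← hy]; exact ⟨hz1, hz2⟩
          rw [mem_singleton_iff] at this
          rw [← this]; exact hz3
        · exact absurd hx h
    · have hx' : ¬ ∃ y, G.neighborSet x ∩ B = {y} := fun h => hx ((hone x).1 h)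
      have : nbr G B x = x := by unfold nbr; rw [dif_neg hx']
      rw [this]
      constructor
      · intro h; right; exact ⟨hx, h⟩
      · rintro (⟨h, -⟩ | ⟨-, h⟩)
        · exact absurd h hx
        · exact h
  rw [this]
  exact ((h1.diff h2).inter hBC).union ((h1.diff h2).compl.inter hC)


/-! ### The involutions -/

open Classical in
/-- the involution exchanging `x ∈ B` and `y ∈ B'` when each is the unique neighbour of the other
in the respective set -/
noncomputable def TT (G : SimpleGraph V) (B B' : Set V) (x : V) : V :=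
  if x ∈ B ∧ nbr G B (nbr G B' x) = x then nbr G B' x
  else if x ∈ B' ∧ nbr G B' (nbr G B x) = x then nbr G B x
  else x

lemma TT_left {B B' : Set V} {x : V} (h1 : x ∈ B) (h2 : nbr G B (nbr G B' x) = x) :
    TT G B B' x = nbr G B' x := by
  unfold TT; rw [if_pos ⟨h1, h2⟩]

lemma TT_right {B B' : Set V} (hd : Disjoint B B') {x : V} (h1 : x ∈ B')
    (h2 : nbr G B' (nbr G B x) = x) : TT G B B' x = nbr G B x := by
  unfold TT
  rw [if_neg (fun h => (disjoint_left.1 hd) h.1 h1), if_pos ⟨h1, h2⟩]

lemma TT_invol {B B' : Set V} (hd : Disjoint B B') (x : V) : TT G B B' (TT G B B' x) = x := by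
  by_cases h : x ∈ B ∧ nbr G B (nbr G B' x) = x
  · rw [TT_left h.1 h.2]
    by_cases hx : nbr G B' x = x
    · rw [hx, TT_left h.1 h.2, hx]
    · have h1 := nbr_adj hx
      rw [TT_right hd h1.2 (by rw [h.2]), h.2]
  · by_cases h' : x ∈ B' ∧ nbr G B' (nbr G B x) = x
    · rw [TT_right hd h'.1 h'.2]
      by_cases hx : nbr G B x = x
      · rw [hx, TT_right hd h'.1 h'.2, hx]
      · have h1 := nbr_adj hx
        rw [TT_left h1.2 (by rw [h'.2]), h'.2]
    · have : TT G B B' x = x := by unfold TT; rw [if_neg h, if_neg h']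
      rw [this, this]

lemma TT_adj {B B' : Set V} {x : V} (h : TT G B B' x ≠ x) : G.Adj x (TT G B B' x) := by
  unfold TT at *
  split_ifs at * with h1 h2
  · exact (nbr_adj h).1
  · exact (nbr_adj h).1
  · exact absurd rfl h

lemma measurable_TT (hE : MeasurableSet {p : V × V | G.Adj p.1 p.2})
    (hdeg : ∀ x, (G.neighborSet x).encard ≤ Δ) (hΔ : 1 ≤ Δ) {B B' : Set V}
    (hB : MeasurableSet B) (hB' : MeasurableSet B') : Measurable (TT G B B') := by
  classical
  have m1 := measurable_nbr hE hdeg hΔ hB
  have m2 := measurable_nbr hE hdeg hΔ hB'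
  unfold TT
  refine Measurable.ite ?_ m2 (Measurable.ite ?_ m1 measurable_id)
  · exact hB.inter (measurableSet_eq_fun (m1.comp m2) measurable_id)
  · exact hB'.inter (measurableSet_eq_fun (m2.comp m1) measurable_id)

open Classical in
/-- removing repetitions from a sequence of involutions -/
noncomputable def rep (T : ℕ → V → V) (i : ℕ) (x : V) : V :=
  if ∃ j < i, T j x = T i x then x else T i x

lemma exists_gen (hE : MeasurableSet {p : V × V | G.Adj p.1 p.2})
    (hdeg : ∀ x, (G.neighborSet x).encard ≤ Δ) : Nonempty (Gen G Δ) := by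
  classical
  rcases Nat.eq_zero_or_pos Δ with h0 | hΔ
  · have hno : ∀ x y, ¬ G.Adj x y := by
      intro x y hxy
      have h1 := hdeg x
      rw [h0, Nat.cast_zero, nonpos_iff_eq_zero, encard_eq_zero] at h1
      have : y ∈ (∅ : Set V) := by rw [← h1]; exact hxy
      exact this
    exact ⟨{ T := fun _ x => x
             meas := fun _ => measurable_id
             invol := fun _ _ => rfl
             adj := fun _ _ h => absurd rfl h
             cover := fun x y h => absurd h (hno x y)
             disj := fun _ _ _ _ h => absurd rfl h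
             card := fun x s hs => by
              have : s = ∅ := by
                rw [Finset.eq_empty_iff_forall_notMem]
                intro i hi
                exact hs i hi rfl
              rw [this]; simp }⟩
  obtain ⟨E, hEm, hEs⟩ := exists_separating V
  -- the countable family of pairs of sets
  let BB : Finset (ℚ × Bool) → Set V := fun s => ⋂ n ∈ s, E n
  have hBB : ∀ s, MeasurableSet (BB s) := fun s =>
    Finset.measurableSet_biInter s fun n _ => hEm n
  have havoid : ∀ (x : V) (F : Set V), F.Finite → x ∉ F → ∃ s, x ∈ BB s ∧ ∀ y ∈ F, y ∉ BB s := by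
    intro x F hF
    induction F, hF using Set.Finite.induction_on with
    | empty => intro _; exact ⟨∅, by simp [BB], by simp⟩
    | @insert a F ha hF ih =>
      intro hx
      obtain ⟨s, hs1, hs2⟩ := ih (fun h => hx (mem_insert_of_mem _ h))
      obtain ⟨n, hn1, hn2⟩ := hEs x a (fun h => hx (h ▸ mem_insert _ _))
      refine ⟨insert n s, ?_, ?_⟩
      · simp only [BB, mem_iInter, Finset.mem_insert] at *
        rintro k (rfl | hk)
        · exact hn1
        · exact hs1 k hk
      · rintro y (rfl | hy)
        · intro hmem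
          simp only [BB, mem_iInter, Finset.mem_insert] at hmem
          exact hn2 (hmem n (Or.inl rfl))
        · intro hmem
          apply hs2 y hy
          simp only [BB, mem_iInter, Finset.mem_insert] at *
          exact fun k hk => hmem k (Or.inr hk)
  let ι := Finset (ℚ × Bool) × Finset (ℚ × Bool) × (ℚ × Bool)
  obtain ⟨e, he⟩ := exists_surjective_nat ι
  let L : ι → Set V := fun a => BB a.1 \ E a.2.2
  let R : ι → Set V := fun a => BB a.2.1 ∩ E a.2.2
  have hL : ∀ a, MeasurableSet (L a) := fun a => (hBB _).diff (hEm _)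
  have hR : ∀ a, MeasurableSet (R a) := fun a => (hBB _).inter (hEm _)
  have hd : ∀ a, Disjoint (L a) (R a) := fun a =>
    disjoint_left.2 fun x hx hx' => hx.2 hx'.2
  let T0 : ℕ → V → V := fun i => TT G (L (e i)) (R (e i))
  have hT0m : ∀ i, Measurable (T0 i) := fun i => measurable_TT hE hdeg hΔ (hL _) (hR _)
  have hT0i : ∀ i x, T0 i (T0 i x) = x := fun i x => TT_invol (hd _) x
  have hT0a : ∀ i x, T0 i x ≠ x → G.Adj x (T0 i x) := fun i x h => TT_adj h
  have hT0c : ∀ x y, G.Adj x y → ∃ i, T0 i x = y := by
    intro x y hxy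
    have hfx : (G.neighborSet x).Finite := finite_of_encard_le_coe (hdeg x)
    have hfy : (G.neighborSet y).Finite := finite_of_encard_le_coe (hdeg y)
    obtain ⟨s, hs1, hs2⟩ := havoid x (G.neighborSet y \ {x}) (hfy.subset sdiff_subset)
      (fun h => h.2 rfl)
    obtain ⟨t, ht1, ht2⟩ := havoid y (G.neighborSet x \ {y}) (hfx.subset sdiff_subset)
      (fun h => h.2 rfl)
    obtain ⟨n, hn1, hn2⟩ := hEs y x hxy.ne.symm
    obtain ⟨i, hi⟩ := he (s, t, n)
    refine ⟨i, ?_⟩
    have hyR : y ∈ R (e i) := by rw [hi]; exact ⟨ht1, hn1⟩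
    have hxL : x ∈ L (e i) := by rw [hi]; exact ⟨hs1, hn2⟩
    have h1 : nbr G (R (e i)) x = y := by
      apply nbr_eq
      ext z
      constructor
      · rintro ⟨hz1, hz2⟩
        by_contra hne
        rw [hi] at hz2
        exact ht2 z ⟨hz1, hne⟩ hz2.1
      · intro hz
        rw [mem_singleton_iff.1 hz]
        exact ⟨hxy, hyR⟩
    have h2 : nbr G (L (e i)) y = x := by
      apply nbr_eq
      ext z
      constructor
      · rintro ⟨hz1, hz2⟩
        by_contra hne
        rw [hi] at hz2
        exact hs2 z ⟨hz1, hne⟩ hz2.1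
      · intro hz
        rw [mem_singleton_iff.1 hz]
        exact ⟨hxy.symm, hxL⟩
    change TT G (L (e i)) (R (e i)) x = y
    rw [TT_left hxL (by rw [h1, h2]), h1]
  -- removing the repetitions
  have hsymm : ∀ i j x, T0 j x = T0 i x → T0 j (T0 i x) = T0 i (T0 i x) := by
    intro i j x h
    rw [hT0i]
    rw [← h, hT0i]
  have hrm : ∀ i, Measurable (rep T0 i) := by
    intro i
    unfold rep
    refine Measurable.ite ?_ measurable_id (hT0m i)
    have : {x | ∃ j < i, T0 j x = T0 i x} = ⋃ j, ⋃ (_ : j < i), {x | T0 j x = T0 i x} := by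
      ext x; simp
    rw [this]
    exact MeasurableSet.iUnion fun j => MeasurableSet.iUnion fun _ =>
      measurableSet_eq_fun (hT0m j) (hT0m i)
  have hri : ∀ i x, rep T0 i (rep T0 i x) = x := by
    intro i x
    by_cases h : ∃ j < i, T0 j x = T0 i x
    · have : rep T0 i x = x := by unfold rep; rw [if_pos h]
      rw [this, this]
    · have h1 : rep T0 i x = T0 i x := by unfold rep; rw [if_neg h]
      rw [h1]
      have h' : ¬ ∃ j < i, T0 j (T0 i x) = T0 i (T0 i x) := by
        rintro ⟨j, hj, hj2⟩
        apply h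
        refine ⟨j, hj, ?_⟩
        have := hsymm i j (T0 i x) hj2
        rw [hT0i] at this
        exact this
      unfold rep
      rw [if_neg h', hT0i]
  have hra : ∀ i x, rep T0 i x ≠ x → rep T0 i x = T0 i x ∧ ¬ ∃ j < i, T0 j x = T0 i x := by
    intro i x h
    by_cases h' : ∃ j < i, T0 j x = T0 i x
    · exact absurd (by unfold rep; rw [if_pos h']) h
    · exact ⟨by unfold rep; rw [if_neg h'], h'⟩
  have hrd : ∀ i j x, rep T0 i x = rep T0 j x → rep T0 i x ≠ x → i = j := by
    intro i j x h1 h2
    obtain ⟨a1, a2⟩ := hra i x h2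
    obtain ⟨b1, b2⟩ := hra j x (h1 ▸ h2)
    rcases lt_trichotomy i j with h | h | h
    · exact absurd ⟨i, h, by rw [← a1, ← b1, h1]⟩ b2
    · exact h
    · exact absurd ⟨j, h, by rw [← a1, ← b1, h1]⟩ a2
  refine ⟨{ T := rep T0
            meas := hrm
            invol := hri
            adj := fun i x h => by
              rw [(hra i x h).1] at *; exact hT0a i x h
            cover := fun x y hxy => ?_
            disj := hrd
            card := fun x s hs => ?_ }⟩
  · have hex : ∃ i, T0 i x = y := hT0c x y hxy
    refine ⟨Nat.find hex, ?_⟩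
    have h1 := Nat.find_spec hex
    unfold rep
    rw [if_neg, h1]
    rintro ⟨j, hj, hj2⟩
    exact Nat.find_min hex hj (hj2.trans h1)
  · have hinj : InjOn (fun i => rep T0 i x) (s : Set ℕ) := fun i hi j _ h => hrd i j x h (hs i hi)
    have hsub : (fun i => rep T0 i x) '' (s : Set ℕ) ⊆ G.neighborSet x := by
      rintro _ ⟨i, hi, rfl⟩
      have h := hs i hi
      have h2 := hra i x h
      have h3 : T0 i x ≠ x := fun h4 => h (h2.1.trans h4)
      show G.Adj x (rep T0 i x)
      rw [h2.1]
      exact hT0a i x h3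
    have h1 := encard_le_encard hsub
    rw [hinj.encard_image, encard_coe_eq_coe_finsetCard] at h1
    exact_mod_cast h1.trans (hdeg x)

end Pool.Agent.MEC
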