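import Pool.Agent.MEC.Count

open Set

set_option linter.unusedSectionVars false

namespace Pool.Agent.MEC

variable {V : Type*} {G : SimpleGraph V}

/-- The walk given by a sequence of successively adjacent vertices. -/
lemma exists_walk_of_seq (y : ℕ → V) (N : ℕ) (hadj : ∀ l < N, G.Adj (y l) (y (l+1))) :
    ∃ p : G.Walk (y 0) (y N), p.support = (List.range (N+1)).map y ∧
      p.edges = (List.range N).map (fun l => s(y l, y (l+1))) ∧ p.length = N := by
  induction N with
  | zero => exact ⟨SimpleGraph.Walk.nil, by simp, by simp, by simp⟩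
  | succ N ih =>
    obtain ⟨p, h1, h2, h3⟩ := ih (fun l hl => hadj l (by omega))
    refine ⟨p.concat (hadj N (by omega)), ?_, ?_, ?_⟩
    · rw [SimpleGraph.Walk.support_concat, h1, List.range_succ (n := N+1), List.map_append]
      rfl
    · rw [SimpleGraph.Walk.edges_concat, h2, List.range_succ (n := N), List.map_append,
        List.concat_eq_append]
      rfl
    · rw [SimpleGraph.Walk.length_concat, h3]

lemma isPath_of_seq (hG : G.IsAcyclic) (y : ℕ → V) (N : ℕ)
    (hnb : ∀ l, l + 2 ≤ N → y (l+2) ≠ y l) {p : G.Walk (y 0) (y N)}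
    (hp : p.edges = (List.range N).map (fun l => s(y l, y (l+1)))) : p.IsPath := by
  rw [hG.isPath_iff_isChain, hp, List.isChain_map, List.isChain_range]
  intro m hm he
  rw [Sym2.eq_iff] at he
  rcases he with ⟨h1, h2⟩ | ⟨h1, h2⟩
  · exact hnb m (by omega) (h2.symm.trans h1.symm)
  · exact hnb m (by omega) h1.symm

lemma nbInj_of_isAcyclic (hG : G.IsAcyclic) : NBInj G := by
  intro y N hadj hnb l l' hl hl' hne heq
  obtain ⟨p, h1, h2, h3⟩ := exists_walk_of_seq y N hadj
  have hp : p.IsPath := isPath_of_seq hG y N hnb h2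
  have hnd := hp.support_nodup
  rw [h1] at hnd
  have := List.inj_on_of_nodup_map hnd (x := l) (by simp; omega) (y := l') (by simp; omega) heq
  exact hne this

lemma sparse_of_paths (hG : G.IsAcyclic) {Δ R : ℕ}
    (h : ∀ (u v : V) (p : G.Walk u v), p.IsPath → p.length = R →
      ∃ w ∈ p.support, (G.neighborSet w).encard < Δ) : Sparse G Δ R := by
  intro y hadj hnb
  obtain ⟨p, h1, h2, h3⟩ := exists_walk_of_seq y R hadj
  have hp : p.IsPath := isPath_of_seq hG y R hnb h2
  obtain ⟨w, hw, hd⟩ := h _ _ p hp h3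
  rw [h1, List.mem_map] at hw
  obtain ⟨l, hl, rfl⟩ := hw
  rw [List.mem_range] at hl
  exact ⟨l, by omega, hd⟩

end Pool.Agent.MEC
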