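import Mathlib

/-!
# Measurable partial edge colourings (basic definitions)

A measurable partial proper edge colouring of a graph `G` on `V` with palette `Fin Δ` is stored as a
family of measurable involutions `S k : V → V`; the edges of colour `k` are the pairs `{x, S k x}`
with `S k x ≠ x`.
-/

open MeasureTheory Set

set_option linter.unusedSectionVars false

namespace Pool.Agent.MEC

variable {V : Type*} [MeasurableSpace V]

/-- A measurable partial proper edge colouring of `G` with colours `Fin Δ`. -/
structure PCol (G : SimpleGraph V) (Δ : ℕ) where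
  /-- `S k x` is the neighbour of `x` along its edge of colour `k`, or `x` if there is none. -/
  S : Fin Δ → V → V
  meas : ∀ k, Measurable (S k)
  invol : ∀ k x, S k (S k x) = x
  adj : ∀ k x, S k x ≠ x → G.Adj x (S k x)
  disj : ∀ k k' x, S k x = S k' x → S k x ≠ x → k = k'

variable {G : SimpleGraph V} {Δ : ℕ}

namespace PCol

/-- The total measure of missing colours. -/
noncomputable def Phi (ν : Measure V) (c : PCol G Δ) : ℝ := ∑ k, ν.real {x | c.S k x = x}

/-- The distance of two partial colourings. -/
noncomputable def dst (ν : Measure V) (c c' : PCol G Δ) : ℝ := ∑ k, ν.real {x | c.S k x ≠ c'.S k x}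

/-- The empty colouring. -/
def empty (G : SimpleGraph V) (Δ : ℕ) : PCol G Δ where
  S := fun _ x => x
  meas := fun _ => measurable_id
  invol := fun _ _ => rfl
  adj := fun _ _ h => absurd rfl h
  disj := fun _ _ _ _ h => absurd rfl h

variable {ν : Measure V} [IsFiniteMeasure ν]

lemma Phi_nonneg (c : PCol G Δ) : 0 ≤ c.Phi ν := Finset.sum_nonneg fun _ _ => measureReal_nonneg

lemma dst_nonneg (c c' : PCol G Δ) : 0 ≤ dst ν c c' :=
  Finset.sum_nonneg fun _ _ => measureReal_nonneg

lemma dst_comm (c c' : PCol G Δ) : dst ν c c' = dst ν c' c := by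
  unfold dst
  refine Finset.sum_congr rfl fun k _ => ?_
  congr 1
  ext x
  simp only [mem_ofPred_eq]
  exact ne_comm

lemma dst_self (c : PCol G Δ) : dst ν c c = 0 := by
  unfold dst
  refine Finset.sum_eq_zero fun k _ => ?_
  simp

lemma dst_triangle (c c' c'' : PCol G Δ) : dst ν c c'' ≤ dst ν c c' + dst ν c' c'' := by
  unfold dst
  rw [← Finset.sum_add_distrib]
  refine Finset.sum_le_sum fun k _ => ?_
  refine le_trans (measureReal_mono ?_) (measureReal_union_le _ _)
  intro x hx
  simp only [mem_ofPred_eq, mem_union] at *
  by_contra h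
  push Not at h
  exact hx (h.1.trans h.2)

lemma Phi_le_add_dst (c c' : PCol G Δ) : c.Phi ν ≤ c'.Phi ν + dst ν c c' := by
  unfold dst Phi
  rw [← Finset.sum_add_distrib]
  refine Finset.sum_le_sum fun k _ => ?_
  refine le_trans (measureReal_mono ?_) (measureReal_union_le _ _)
  intro x hx
  simp only [mem_ofPred_eq, mem_union] at *
  by_contra h
  push Not at h
  exact h.1 (h.2 ▸ hx)

end PCol

end Pool.Agent.MEC
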