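import Pool.Agent.MEC.Improve

open MeasureTheory Set Filter
open scoped ENNReal

set_option linter.unusedSectionVars false

namespace Pool.Agent.MEC

variable {V : Type*} [MeasurableSpace V] [StandardBorelSpace V]
variable {G : SimpleGraph V} {Δ : ℕ}

/-- Non-backtracking walks of `G` do not revisit vertices. -/
def NBInj (G : SimpleGraph V) : Prop :=
  ∀ (y : ℕ → V) (N : ℕ), (∀ l < N, G.Adj (y l) (y (l+1))) →
    (∀ l, l + 2 ≤ N → y (l+2) ≠ y l) → ∀ l l', l ≤ N → l' ≤ N → l ≠ l' → y l ≠ y l'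

section

variable {g : Gen G Δ} {c : PCol G Δ} {i : ℕ} {K : ℕ → Fin Δ}

lemma word_pred (l : ℕ) (x : V) :
    c.S (K (l+1)) (word g c i K (l+2) x) = word g c i K (l+1) x := by
  rw [word_succ, c.invol]

lemma Valid.unc {n : ℕ} {x : V} (hx : Valid g c i K n x) :
    g.T i x ≠ x ∧ ∀ k, c.S k x ≠ g.T i x := hx.mono (Nat.zero_le n)

lemma Valid.word_ne {n : ℕ} {x : V} (hx : Valid g c i K n x) {l : ℕ} (hl : l ≤ n) :
    word g c i K (l+1) x ≠ word g c i K l x := by
  rcases Nat.eq_zero_or_pos l with h | h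
  · subst h; exact hx.unc.1
  · obtain ⟨m, rfl⟩ : ∃ m, l = m + 1 := ⟨l - 1, by omega⟩
    rw [word_succ]
    exact hx.ne (by omega)

lemma Valid.adj {n : ℕ} {x : V} (hx : Valid g c i K n x) {l : ℕ} (hl : l ≤ n) :
    G.Adj (word g c i K l x) (word g c i K (l+1) x) := by
  rcases Nat.eq_zero_or_pos l with h | h
  · subst h; exact g.adj i x hx.unc.1
  · obtain ⟨m, rfl⟩ : ∃ m, l = m + 1 := ⟨l - 1, by omega⟩
    rw [word_succ]
    exact c.adj _ _ (hx.ne (by omega))

lemma Valid.nb {n : ℕ} {x : V} (hx : Valid g c i K n x) : ∀ l, l + 2 ≤ n + 1 →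
    word g c i K (l+2) x ≠ word g c i K l x := by
  intro l
  induction l with
  | zero =>
    intro _ h
    rw [word_succ] at h
    simp only [zero_add, word_one, word_zero] at h
    apply hx.unc.2 (K 1)
    conv_lhs => rw [← h]
    exact c.invol _ _
  | succ l ih =>
    intro hl h
    have hne : word g c i K (l+2) x ≠ word g c i K (l+1) x := hx.word_ne (by omega)
    have h1 : c.S (K (l+2)) (word g c i K (l+2) x) = word g c i K (l+1) x := by
      rw [← h]; exact (word_succ g c i K (l+1) x).symm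
    have h2 : c.S (K (l+1)) (word g c i K (l+2) x) = word g c i K (l+1) x := word_pred l x
    have hK : K (l+2) = K (l+1) := c.disj _ _ _ (h1.trans h2.symm) (by rw [h1]; exact hne.symm)
    rcases hx.free (show l + 1 < n by omega) with hf | ⟨hf1, hf2⟩
    · change c.S (K (l+2)) (word g c i K (l+1) x) = word g c i K (l+1) x at hf
      rw [hK] at hf
      rw [word_succ] at hne
      exact hne hf
    · change K (l+2) = K (l + 1 - 1) at hf2
      rw [Nat.add_sub_cancel] at hf2
      obtain ⟨m, rfl⟩ : ∃ m, l = m + 1 := ⟨l - 1, by omega⟩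
      apply ih (by omega)
      rw [word_succ, ← hK, hf2, word_pred]

lemma Valid.distinct (hG : NBInj G) {n : ℕ} {x : V} (hx : Valid g c i K n x) :
    ∀ l l', l ≤ n + 1 → l' ≤ n + 1 → l ≠ l' → word g c i K l x ≠ word g c i K l' x :=
  hG (fun l => word g c i K l x) (n+1) (fun l hl => hx.adj (by omega)) hx.nb

end

section congr

variable (g : Gen G Δ) (c : PCol G Δ) (i : ℕ)

lemma Free_congr {K K' : ℕ → Fin Δ} (n : ℕ) (h : ∀ j, 1 ≤ j → j < n → K j = K' j) (k : Fin Δ)
    (x : V) : Free g c i K n k x ↔ Free g c i K' n k x := by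
  unfold Free
  rw [word_congr g c i n h]
  refine or_congr Iff.rfl (and_congr_right fun h2 => ?_)
  rw [h (n-1) (by omega) (by omega)]

lemma Valid_congr {K K' : ℕ → Fin Δ} (n : ℕ) (h : ∀ j, 1 ≤ j → j ≤ n → K j = K' j) (x : V) :
    Valid g c i K n x ↔ Valid g c i K' n x := by
  induction n with
  | zero => rfl
  | succ n ih =>
    unfold Valid
    rw [ih fun j h1 h2 => h j h1 (by omega),
      Free_congr g c i n (fun j h1 h2 => h j h1 (by omega)), h (n+1) (by omega) le_rfl,
      word_congr g c i (n+1) (fun j h1 h2 => h j h1 (by omega))]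

lemma sumD_congr {K K' : ℕ → Fin Δ} (ν : Measure V) (n : ℕ)
    (h : ∀ j, 1 ≤ j → j + 1 < n → K j = K' j) (x : V) :
    sumD g c i K ν n x = sumD g c i K' ν n x := by
  unfold sumD
  refine Finset.sum_congr rfl fun l hl => ?_
  rw [Finset.mem_range] at hl
  rw [word_congr g c i l (fun j h1 h2 => h j h1 (by omega))]

end congr

/-- Points at which no legal token walk of cost at most `H` yields an improvement. -/
def NI (g : Gen G Δ) (c : PCol G Δ) (ν : Measure V) (H : ℝ≥0∞) (x : V) : Prop :=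
  ∀ (i n : ℕ) (K : ℕ → Fin Δ), Valid g c i K n x → sumD g c i K ν (n+2) x ≤ H →
    (∀ k, Free g c i K n k x → c.S k (word g c i K (n+1) x) ≠ word g c i K (n+1) x) ∧
    2⁻¹ < dens ν (word g c i K n) x + dens ν (word g c i K (n+1)) x

/-- extend a finite colour word to a sequence -/
def extK {n : ℕ} (w : Fin (n+1) → Fin Δ) (j : ℕ) : Fin Δ :=
  if h : j < n + 1 then w ⟨j, h⟩ else w 0

lemma extK_eq {n : ℕ} (K : ℕ → Fin Δ) {j : ℕ} (h : j ≤ n) :
    extK (fun a : Fin (n+1) => K a) j = K j := by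
  unfold extK
  rw [dif_pos (by omega)]

lemma ae_NI (g : Gen G Δ) {c : PCol G Δ} {ν : Measure V} [IsFiniteMeasure ν] {C : ℝ≥0∞}
    (hq : QInv G ν C) {H : ℝ} (hH : 0 < H) (hopt : PCol.Opt ν (1 / (12 * H)) c) (hG : NBInj G) :
    ∀ᵐ x ∂ν, NI g c ν (ENNReal.ofReal H) x := by
  have h1 : ∀ (i n : ℕ) (w : Fin (n+1) → Fin Δ), ∀ᵐ x ∂ν, (Valid g c i (extK w) n x →
      sumD g c i (extK w) ν (n+2) x ≤ ENNReal.ofReal H →
      2⁻¹ < dens ν (word g c i (extK w) n) x + dens ν (word g c i (extK w) (n+1)) x) ∧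
      (∀ k, Valid g c i (extK w) n x → sumD g c i (extK w) ν (n+2) x ≤ ENNReal.ofReal H →
        Free g c i (extK w) n k x →
        c.S k (word g c i (extK w) (n+1) x) ≠ word g c i (extK w) (n+1) x) := by
    intro i n w
    refine (improve_move hq hH hopt n (fun x hx => hx.distinct hG)).and ?_
    rw [ae_all_iff]
    intro k
    exact improve_finish hq hH hopt n (fun x hx => hx.distinct hG) k
  have h2 : ∀ᵐ x ∂ν, ∀ (i n : ℕ) (w : Fin (n+1) → Fin Δ), (Valid g c i (extK w) n x →
      sumD g c i (extK w) ν (n+2) x ≤ ENNReal.ofReal H →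
      2⁻¹ < dens ν (word g c i (extK w) n) x + dens ν (word g c i (extK w) (n+1)) x) ∧
      (∀ k, Valid g c i (extK w) n x → sumD g c i (extK w) ν (n+2) x ≤ ENNReal.ofReal H →
        Free g c i (extK w) n k x →
        c.S k (word g c i (extK w) (n+1) x) ≠ word g c i (extK w) (n+1) x) := by
    rw [ae_all_iff]; intro i
    rw [ae_all_iff]; intro n
    rw [ae_all_iff]; intro w
    exact h1 i n w
  filter_upwards [h2] with x hx
  intro i n K hv hs
  set w : Fin (n+1) → Fin Δ := fun a => K a with hw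
  have hK : ∀ j, 1 ≤ j → j ≤ n → extK w j = K j := fun j _ hj => extK_eq K hj
  obtain ⟨ha, hb⟩ := hx i n w
  rw [Valid_congr g c i n hK, sumD_congr g c i ν (n+2) (fun j h1 h2 => hK j h1 (by omega))] at ha hb
  rw [word_congr g c i n (fun j h1 h2 => hK j h1 (by omega)),
    word_congr g c i (n+1) (fun j h1 h2 => hK j h1 (by omega))] at ha
  refine ⟨fun k hk => ?_, ha hv hs⟩
  have := hb k hv hs ((Free_congr g c i n (fun j h1 h2 => hK j h1 (by omega)) k x).2 hk)
  rwa [word_congr g c i (n+1) (fun j h1 h2 => hK j h1 (by omega))] at this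

end Pool.Agent.MEC
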