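import Pool.Agent.MEC.Count2

open MeasureTheory Set Filter
open scoped ENNReal

set_option linter.unusedSectionVars false

namespace Pool.Agent.MEC

variable {V : Type*} [MeasurableSpace V] [StandardBorelSpace V]
variable {G : SimpleGraph V} {Δ : ℕ}

/-- The total measure of the uncoloured edges. -/
noncomputable def FE (ν : Measure V) (g : Gen G Δ) (c : PCol G Δ) : ℝ≥0∞ := ∑' i, ν (Unc g c i)

lemma FE_le (ν : Measure V) (g : Gen G Δ) (c : PCol G Δ) : FE ν g c ≤ Δ * ν univ := by
  refine tsum_measure_le_of_mult ν _ (fun i => measurableSet_Unc i) Δ fun x s hs => ?_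
  exact g.card x s fun i hi => (hs i hi).1

lemma FE_ne_top (ν : Measure V) [IsFiniteMeasure ν] (g : Gen G Δ) (c : PCol G Δ) :
    FE ν g c ≠ ⊤ :=
  ne_top_of_le_ne_top (ENNReal.mul_ne_top (by simp) (measure_ne_top _ _)) (FE_le ν g c)

open Classical in
lemma card_missing_le (g : Gen G Δ) (c c' : PCol G Δ) (x : V) :
    ∃ s : Finset ℕ, (∀ i ∈ s, x ∈ Unc g c i) ∧
      (Finset.univ.filter fun k => c.S k x = x).card ≤
        (Finset.univ.filter fun k => c'.S k x = x).card + s.card := by
  classical
  set A := Finset.univ.filter fun k => ¬ c.S k x = x with hA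
  set B := Finset.univ.filter fun k => ¬ c'.S k x = x with hB
  have hA' : (Finset.univ.filter fun k => c.S k x = x).card + A.card = Δ := by
    rw [hA, Finset.card_filter_add_card_filter_not, Finset.card_univ, Fintype.card_fin]
  have hB' : (Finset.univ.filter fun k => c'.S k x = x).card + B.card = Δ := by
    rw [hB, Finset.card_filter_add_card_filter_not, Finset.card_univ, Fintype.card_fin]
  have hlab : ∀ k ∈ B, ∃ i, g.T i x = c'.S k x := fun k hk =>
    g.cover x _ (c'.adj k x (Finset.mem_filter.1 hk).2)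
  choose! ι hι using hlab
  -- the colours of `B` whose edge is uncoloured in `c`
  set B1 := B.filter fun k => ∀ k', c.S k' x ≠ c'.S k x with hB1
  set B2 := B.filter fun k => ¬ ∀ k', c.S k' x ≠ c'.S k x with hB2
  have hBB : B1.card + B2.card = B.card := by
    rw [hB1, hB2, Finset.card_filter_add_card_filter_not]
  have hB2A : B2.card ≤ A.card := by
    have h1 : ∀ k ∈ B2, ∃ k', c.S k' x = c'.S k x := by
      intro k hk
      have := (Finset.mem_filter.1 hk).2
      push Not at this
      exact this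
    choose! κ hκ using h1
    refine Finset.card_le_card_of_injOn κ ?_ ?_
    · intro k hk
      have hkB : k ∈ B := (Finset.mem_filter.1 hk).1
      have h2 : ¬ c'.S k x = x := (Finset.mem_filter.1 hkB).2
      simp only [hA, Finset.coe_filter, Finset.mem_univ, true_and]
      show ¬ c.S (κ k) x = x
      rw [hκ k hk]
      exact h2
    · intro k hk k' hk' he
      have hkB : k ∈ B := (Finset.mem_filter.1 hk).1
      have h2 : ¬ c'.S k x = x := (Finset.mem_filter.1 hkB).2
      refine c'.disj k k' x ?_ h2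
      rw [← hκ k hk, ← hκ k' hk', he]
  refine ⟨B1.image ι, ?_, ?_⟩
  · intro i hi
    obtain ⟨k, hk, rfl⟩ := Finset.mem_image.1 hi
    have hkB : k ∈ B := (Finset.mem_filter.1 hk).1
    have h2 : ¬ c'.S k x = x := (Finset.mem_filter.1 hkB).2
    refine ⟨?_, ?_⟩
    · rw [hι k hkB]; exact h2
    · intro k'
      rw [hι k hkB]; exact (Finset.mem_filter.1 hk).2 k'
  · rw [Finset.card_image_of_injOn]
    · omega
    · intro k hk k' hk' he
      have hkB : k ∈ B := (Finset.mem_filter.1 hk).1
      have hkB' : k' ∈ B := (Finset.mem_filter.1 hk').1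
      have h2 : ¬ c'.S k x = x := (Finset.mem_filter.1 hkB).2
      refine c'.disj k k' x ?_ h2
      rw [← hι k hkB, ← hι k' hkB', he]

lemma sum_indicator_eq (c : PCol G Δ) (x : V) [DecidableEq V] :
    ∑ k, ({x | c.S k x = x} : Set V).indicator (1 : V → ℝ≥0∞) x =
      ((Finset.univ.filter fun k => c.S k x = x).card : ℝ≥0∞) := by
  rw [Finset.card_filter, Nat.cast_sum]
  refine Finset.sum_congr rfl fun k _ => ?_
  by_cases h : c.S k x = x <;> simp [h]

lemma sum_missing_le (ν : Measure V) (g : Gen G Δ) (c c' : PCol G Δ) :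
    ∑ k, ν {x | c.S k x = x} ≤ ∑ k, ν {x | c'.S k x = x} + FE ν g c := by
  classical
  have hm : ∀ (c : PCol G Δ) k, MeasurableSet {x | c.S k x = x} := fun c k =>
    measurableSet_eq_fun (c.meas k) measurable_id
  have h1 : ∀ c : PCol G Δ, ∑ k, ν {x | c.S k x = x} =
      ∫⁻ x, ∑ k, ({x | c.S k x = x} : Set V).indicator (1 : V → ℝ≥0∞) x ∂ν := by
    intro c
    rw [lintegral_finsetSum _ fun k _ => measurable_one.indicator (hm c k)]
    refine Finset.sum_congr rfl fun k _ => ?_
    rw [lintegral_indicator_one (hm c k)]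
  have h2 : FE ν g c = ∫⁻ x, ∑' i, (Unc g c i).indicator (1 : V → ℝ≥0∞) x ∂ν := by
    rw [lintegral_tsum fun i => (measurable_one.indicator (measurableSet_Unc i)).aemeasurable]
    unfold FE
    refine tsum_congr fun i => ?_
    rw [lintegral_indicator_one (measurableSet_Unc i)]
  rw [h1, h1, h2, ← lintegral_add_left]
  · refine lintegral_mono fun x => ?_
    rw [sum_indicator_eq, sum_indicator_eq]
    obtain ⟨s, hs, hc⟩ := card_missing_le g c c' x
    calc ((Finset.univ.filter fun k => c.S k x = x).card : ℝ≥0∞)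
        ≤ (((Finset.univ.filter fun k => c'.S k x = x).card + s.card : ℕ) : ℝ≥0∞) := by
          exact_mod_cast hc
      _ = ((Finset.univ.filter fun k => c'.S k x = x).card : ℝ≥0∞) + s.card := by push_cast; rfl
      _ = ((Finset.univ.filter fun k => c'.S k x = x).card : ℝ≥0∞) +
            ∑ i ∈ s, (Unc g c i).indicator (1 : V → ℝ≥0∞) x := by
          congr 1
          rw [Finset.sum_congr rfl fun i hi => indicator_of_mem (hs i hi) _]
          simp
      _ ≤ _ := by gcongr; exact ENNReal.sum_le_tsum _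
  · exact Finset.measurable_sum _ fun k _ => measurable_one.indicator (hm c' k)

lemma Phi_le_add_FE (ν : Measure V) [IsFiniteMeasure ν] (g : Gen G Δ) (c c' : PCol G Δ) :
    c.Phi ν ≤ c'.Phi ν + (FE ν g c).toReal := by
  have h1 : ∀ c : PCol G Δ, c.Phi ν = (∑ k, ν {x | c.S k x = x}).toReal := by
    intro c
    unfold PCol.Phi
    rw [ENNReal.toReal_sum fun k _ => measure_ne_top _ _]
    rfl
  have hfin : ∀ c : PCol G Δ, ∑ k, ν {x | c.S k x = x} ≠ ⊤ := fun c =>
    ENNReal.sum_ne_top.2 fun k _ => measure_ne_top _ _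
  rw [h1, h1, ← ENNReal.toReal_add (hfin _) (FE_ne_top ν g c)]
  exact ENNReal.toReal_mono (ENNReal.add_ne_top.2 ⟨hfin _, FE_ne_top ν g c⟩)
    (sum_missing_le ν g c c')

end Pool.Agent.MEC
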