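import Pool.Agent.MEC.Walk

open MeasureTheory Set Filter
open scoped ENNReal

set_option linter.unusedSectionVars false

namespace Pool.Agent.MEC

variable {V : Type*} [MeasurableSpace V] [StandardBorelSpace V]
variable {G : SimpleGraph V} {Δ : ℕ}

/-- The graph has a vertex of degree `< Δ` on every non-backtracking walk with `R` edges. -/
def Sparse (G : SimpleGraph V) (Δ R : ℕ) : Prop :=
  ∀ y : ℕ → V, (∀ l < R, G.Adj (y l) (y (l+1))) → (∀ l, l + 2 ≤ R → y (l+2) ≠ y l) →
    ∃ l ≤ R, (G.neighborSet (y l)).encard < Δ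

/-- The switch set `{0, 1, j, k}`. -/
def swf (j k r : ℕ) : Bool := decide (r = 0 ∨ r = 1 ∨ r = j ∨ r = k)

lemma swf_zero (j k : ℕ) : swf j k 0 = true := by simp [swf]
lemma swf_one (j k : ℕ) : swf j k 1 = true := by simp [swf]
lemma swf_left (j k : ℕ) : swf j k j = true := by simp [swf]
lemma swf_right (j k : ℕ) : swf j k k = true := by simp [swf]

lemma swf_eq_false {j k r : ℕ} (h0 : 2 ≤ r) (hj : r ≠ j) (hk : r ≠ k) : swf j k r = false := by
  unfold swf
  simp only [decide_eq_false_iff_not]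
  omega

lemma swf_agree {j k j' k' r : ℕ} (h : (r = j ∨ r = k ∨ r < 2) ↔ (r = j' ∨ r = k' ∨ r < 2)) :
    swf j k r = swf j' k' r := by
  unfold swf
  rw [decide_eq_decide]
  omega

/-- The colour sequence given by a list. -/
def lK (k0 : Fin Δ) (w : List (Fin Δ)) (r : ℕ) : Fin Δ := w.getD r k0

section

variable (g : Gen G Δ) (c : PCol G Δ) (m : V → Fin Δ)

/-- The points at which the edge number `i` is uncoloured. -/
def Unc (i : ℕ) : Set V := {x | g.T i x ≠ x ∧ ∀ k, c.S k x ≠ g.T i x}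

/-- the chosen colour is missing at the vertex `y_r` of the switching walk -/
def MissAt (sw : ℕ → Bool) (i : ℕ) (x : V) (r : ℕ) : Prop :=
  c.S (m (st g c m sw i x r).1) (st g c m sw i x r).1 = (st g c m sw i x r).1

variable {g c m}

lemma MissAt.congr {sw sw' : ℕ → Bool} {i : ℕ} {x : V} {r : ℕ} (h : ∀ a < r, sw a = sw' a)
    (hm : MissAt g c m sw i x r) : MissAt g c m sw' i x r := by
  unfold MissAt at *
  rw [← st_congr g c m i x h]
  exact hm

lemma goodSw_iff {sw : ℕ → Bool} {i : ℕ} {x : V} {n : ℕ} :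
    GoodSw g c m sw i x n ↔ ∀ l < n, sw l = true → MissAt g c m sw i x l := by
  unfold GoodSw MissAt
  simp only [(st_word g c m sw i x _).1]

lemma goodSw_swf (hm : ∀ x, (∃ k, c.S k x = x) → c.S (m x) x = x) {i : ℕ} {x : V}
    (hx : x ∈ Unc g c i) {j k n : ℕ} (hj : MissAt g c m (swf j k) i x j)
    (hk : MissAt g c m (swf j k) i x k) : GoodSw g c m (swf j k) i x n := by
  rw [goodSw_iff]
  intro l _ hl
  have : l = 0 ∨ l = 1 ∨ l = j ∨ l = k := by simpa [swf] using hl
  rcases this with h | h | h | h <;> subst h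
  · exact unc_missing_zero hm hx
  · exact unc_missing_one hm hx
  · exact hj
  · exact hk

lemma missAt_zero (hm : ∀ x, (∃ k, c.S k x = x) → c.S (m x) x = x) {i : ℕ} {x : V}
    (hx : x ∈ Unc g c i) (sw : ℕ → Bool) : MissAt g c m sw i x 0 := unc_missing_zero hm hx

lemma missAt_one (hm : ∀ x, (∃ k, c.S k x = x) → c.S (m x) x = x) {i : ℕ} {x : V}
    (hx : x ∈ Unc g c i) (sw : ℕ → Bool) : MissAt g c m sw i x 1 := unc_missing_one hm hx

variable {ν : Measure V} {H : ℝ≥0∞}

/-- On every stretch of `R + 1` vertices of the walk there is one with a missing colour. -/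
lemma exists_missAt (hm : ∀ x, (∃ k, c.S k x = x) → c.S (m x) x = x) {R : ℕ}
    (hR : Sparse G Δ R) {sw : ℕ → Bool} {i : ℕ} {x : V} (h0 : sw 0 = true) (h1 : sw 1 = true)
    (hNI : NI g c ν H x) (hx : x ∈ Unc g c i) (hg : ∀ n, GoodSw g c m sw i x n) (a : ℕ)
    (hs : sumD g c i (col g c m sw i x) ν (a+R+1) x ≤ H) :
    ∃ j, a ≤ j ∧ j ≤ a + R ∧ MissAt g c m sw i x j := by
  have hv := walk_valid h0 h1 hNI hx (a+R) (hg _) hs
  obtain ⟨l, hl, hd⟩ := hR (fun l => word g c i (col g c m sw i x) (a+l) x)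
    (fun l hl => by
      have := hv.adj (l := a + l) (by omega)
      exact this)
    (fun l hl => by
      have := hv.nb (a + l) (by omega)
      exact this)
  refine ⟨a + l, by omega, by omega, ?_⟩
  unfold MissAt
  rw [(st_word g c m sw i x _).1]
  exact hm _ (exists_missing_of_deg c hd)

end

/-! ### Tails of the density sums -/

lemma tsum_ge_of_inj (f : ℕ → ℝ≥0∞) (s : ℕ) (e : ℕ → ℕ) (he : ∀ q < s, ∀ q' < s, e q = e q' → q = q')
    (a : ℝ≥0∞) (h : ∀ q < s, a ≤ f (e q)) : s * a ≤ ∑' j, f j := by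
  classical
  calc (s : ℝ≥0∞) * a = ∑ q ∈ Finset.range s, a := by simp
    _ ≤ ∑ q ∈ Finset.range s, f (e q) := Finset.sum_le_sum fun q hq => h q (Finset.mem_range.1 hq)
    _ = ∑ j ∈ (Finset.range s).image e, f j := by
        rw [Finset.sum_image]
        intro q hq q' hq' h
        exact he q (Finset.mem_range.1 hq) q' (Finset.mem_range.1 hq') h
    _ ≤ ∑' j, f j := ENNReal.sum_le_tsum _

lemma geom_le {C : ℝ≥0∞} (hC : 2 ≤ C) (n : ℕ) : ∑ l ∈ Finset.range n, C ^ l ≤ C ^ n := by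
  induction n with
  | zero => simp
  | succ n ih =>
    rw [Finset.sum_range_succ]
    calc ∑ l ∈ Finset.range n, C ^ l + C ^ n ≤ C ^ n + C ^ n := by gcongr
      _ = 2 * C ^ n := by ring
      _ ≤ C * C ^ n := by gcongr
      _ = C ^ (n+1) := by ring


/-! ### Ranks of labels -/

open Classical in
/-- rank of the label `i` among the labels of the edges at `y` -/
noncomputable def rk (g : Gen G Δ) (i : ℕ) (y : V) : ℕ :=
  ((Finset.range i).filter fun a => g.T a y ≠ y).card

lemma rk_lt (g : Gen G Δ) {i : ℕ} {y : V} (h : g.T i y ≠ y) : rk g i y < Δ := by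
  classical
  have h1 := g.card y (insert i ((Finset.range i).filter fun a => g.T a y ≠ y)) (by
    intro a ha
    rcases Finset.mem_insert.1 ha with rfl | ha
    · exact h
    · exact (Finset.mem_filter.1 ha).2)
  rw [Finset.card_insert_of_notMem (by simp)] at h1
  unfold rk
  omega

lemma rk_mono (g : Gen G Δ) {i i' : ℕ} {y : V} (h : g.T i y ≠ y) (hlt : i < i') :
    rk g i y < rk g i' y := by
  classical
  unfold rk
  apply Finset.card_lt_card
  rw [Finset.ssubset_iff_of_subset]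
  · refine ⟨i, ?_, by simp⟩
    simp [hlt, h]
  · intro a ha
    simp only [Finset.mem_filter, Finset.mem_range] at *
    exact ⟨by omega, ha.2⟩

lemma rk_inj (g : Gen G Δ) {i i' : ℕ} {y : V} (h : g.T i y ≠ y) (h' : g.T i' y ≠ y)
    (he : rk g i y = rk g i' y) : i = i' := by
  rcases lt_trichotomy i i' with hlt | heq | hgt
  · exact absurd (rk_mono g h hlt) (by omega)
  · exact heq
  · exact absurd (rk_mono g h' hgt) (by omega)

/-! ### The coding sets -/

section coding

variable (g : Gen G Δ) (c : PCol G Δ) (m : V → Fin Δ) (k0 : Fin Δ) (ν : Measure V) (H : ℝ≥0∞)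
  (Go : Set V)

/-- The starting points of the walks with switches `0, 1, j, k`, edge number `i`, length `l` and
colour list `w`. -/
def DD (i j k l : ℕ) (w : List (Fin Δ)) : Set V :=
  {x | x ∈ Go ∧ x ∈ Unc g c i ∧ MissAt g c m (swf j k) i x j ∧ MissAt g c m (swf j k) i x k ∧
    (∀ r, r ≤ l → lK k0 w r = col g c m (swf j k) i x r) ∧
    sumD g c i (lK k0 w) ν l x ≤ H ∧ (2 ≤ j ∧ j < k ∧ k + 1 ≤ l ∧ w.length = l + 1)}

variable {g c m k0 ν H Go}

lemma measurableSet_MissAt (hmm : Measurable m) (sw : ℕ → Bool) (i r : ℕ) :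
    MeasurableSet {x | MissAt g c m sw i x r} := by
  have hS : Measurable (fun p : Fin Δ × V => c.S p.1 p.2) :=
    measurable_from_prod_countable_right fun k => c.meas k
  have h1 : Measurable fun x => (st g c m sw i x r).1 := (measurable_st g c m sw i hmm r).fst
  exact measurableSet_eq_fun (hS.comp ((hmm.comp h1).prodMk h1)) h1

lemma measurableSet_Unc (i : ℕ) : MeasurableSet (Unc g c i) := by
  have : Unc g c i = {x | g.T i x ≠ x} ∩ ⋂ k, {x | c.S k x = g.T i x}ᶜ := by
    ext x; simp [Unc]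
  rw [this]
  exact (g.measurableSet_D i).inter
    (MeasurableSet.iInter fun k => (measurableSet_eq_fun (c.meas k) (g.meas i)).compl)

lemma measurableSet_DD (hmm : Measurable m) (hGo : MeasurableSet Go) (i j k l : ℕ)
    (w : List (Fin Δ)) : MeasurableSet (DD g c m k0 ν H Go i j k l w) := by
  have h3 : MeasurableSet {x | ∀ r, r ≤ l → lK k0 w r = col g c m (swf j k) i x r} := by
    have : {x | ∀ r, r ≤ l → lK k0 w r = col g c m (swf j k) i x r} =
        ⋂ r, ⋂ (_ : r ≤ l), {x | lK k0 w r = col g c m (swf j k) i x r} := by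
      ext x; simp
    rw [this]
    exact MeasurableSet.iInter fun r => MeasurableSet.iInter fun _ =>
      measurableSet_eq_fun measurable_const (measurable_col g c m (swf j k) i hmm r)
  have h4 : MeasurableSet {x | sumD g c i (lK k0 w) ν l x ≤ H} :=
    measurableSet_le (measurable_sumD ν l) measurable_const
  exact hGo.inter ((measurableSet_Unc i).inter ((measurableSet_MissAt hmm _ i j).inter
    ((measurableSet_MissAt hmm _ i k).inter (h3.inter (h4.inter (MeasurableSet.const _))))))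

lemma DD_back (hm : ∀ x, (∃ k, c.S k x = x) → c.S (m x) x = x)
    (hNI : ∀ x ∈ Go, NI g c ν H x) {i j k l : ℕ} {w : List (Fin Δ)} {x : V}
    (hx : x ∈ DD g c m k0 ν H Go i j k l w) :
    word g c i (lK k0 w) l x = word g c i (col g c m (swf j k) i x) l x ∧
    Back c (l - k) (word g c i (col g c m (swf j k) i x) l x)
      (col g c m (swf j k) i x (l-1)) (col g c m (swf j k) i x l)
      (word g c i (col g c m (swf j k) i x) k x)
      (col g c m (swf j k) i x (k+1)) (col g c m (swf j k) i x k) ∧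
    Back c (k - j) (word g c i (col g c m (swf j k) i x) k x)
      (col g c m (swf j k) i x (k-1)) (col g c m (swf j k) i x k)
      (word g c i (col g c m (swf j k) i x) j x)
      (col g c m (swf j k) i x (j+1)) (col g c m (swf j k) i x j) ∧
    Back c (j - 1) (word g c i (col g c m (swf j k) i x) j x)
      (col g c m (swf j k) i x (j-1)) (col g c m (swf j k) i x j)
      (word g c i (col g c m (swf j k) i x) 1 x)
      (col g c m (swf j k) i x (1+1)) (col g c m (swf j k) i x 1) := by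
  obtain ⟨hGo, hun, hj, hk, hw, hs, h2j, hjk, hkl, hlen⟩ := hx
  set K := col g c m (swf j k) i x with hK
  have hgood : ∀ n, GoodSw g c m (swf j k) i x n := fun n => goodSw_swf hm hun hj hk
  have hs' : sumD g c i K ν l x ≤ H := by
    rw [← sumD_congr g c i ν l (K := lK k0 w) (fun a h1 h2 => hw a (by omega))]
    exact hs
  have hv : Valid g c i K (l-1) x := by
    refine walk_valid (swf_zero j k) (swf_one j k) (hNI x hGo) hun (l-1) (hgood _) ?_
    have : l - 1 + 1 = l := by omega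
    rw [this]
    exact hs'
  have hns : ∀ r, 2 ≤ r → r ≠ j → r ≠ k → K (r+1) = K (r-1) := by
    intro r h2 hrj hrk
    obtain ⟨a, rfl⟩ : ∃ a, r = a + 1 := ⟨r - 1, by omega⟩
    rw [Nat.add_sub_cancel]
    exact col_nsw g c m (swf j k) i x (swf_eq_false h2 hrj hrk)
  have hmis : ∀ r, swf j k r = true → MissAt g c m (swf j k) i x r →
      c.S (K (r+1)) (word g c i K r x) = word g c i K r x := by
    intro r hr hmr
    have e := col_sw g c m (swf j k) i x hr
    rw [← hK] at e
    rw [e]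
    unfold MissAt at hmr
    rw [(st_word g c m (swf j k) i x _).1] at hmr
    exact hmr
  refine ⟨word_congr g c i l (fun a h1 h2 => hw a h2.le) ▸ rfl, ?_, ?_, ?_⟩
  · exact back_run (by omega) (by omega) hv (hmis k (swf_right j k) hk)
      (fun r h1 h2 => hns r (by omega) (by omega) (by omega))
  · exact back_run (by omega) (by omega) (hv.mono (by omega)) (hmis j (swf_left j k) hj)
      (fun r h1 h2 => hns r (by omega) (by omega) (by omega))
  · exact back_run (by omega) (by omega) (hv.mono (by omega))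
      (hmis 1 (swf_one j k) (missAt_one hm hun _))
      (fun r h1 h2 => hns r (by omega) (by omega) (by omega))

lemma DD_decode (hm : ∀ x, (∃ k, c.S k x = x) → c.S (m x) x = x)
    (hNI : ∀ x ∈ Go, NI g c ν H x) {i j k l i' j' k' l' : ℕ} {w w' : List (Fin Δ)} {x x' : V}
    (hx : x ∈ DD g c m k0 ν H Go i j k l w) (hx' : x' ∈ DD g c m k0 ν H Go i' j' k' l' w')
    (hz : word g c i (lK k0 w) l x = word g c i' (lK k0 w') l' x')
    (h1 : lK k0 w (l-1) = lK k0 w' (l'-1)) (h2 : lK k0 w l = lK k0 w' l')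
    (h3 : lK k0 w (k-1) = lK k0 w' (k'-1)) (h4 : lK k0 w (j-1) = lK k0 w' (j'-1))
    (h5 : rk g i (g.T i x) = rk g i' (g.T i' x')) :
    i = i' ∧ j = j' ∧ k = k' ∧ l = l' ∧ w = w' := by
  obtain ⟨e, b1, b2, b3⟩ := DD_back hm hNI hx
  obtain ⟨e', b1', b2', b3'⟩ := DD_back hm hNI hx'
  obtain ⟨-, hun, -, -, hw, -, h2j, hjk, hkl, hlen⟩ := hx
  obtain ⟨-, hun', -, -, hw', -, h2j', hjk', hkl', hlen'⟩ := hx'
  rw [hw _ (by omega), hw' _ (by omega)] at h1 h2 h3 h4
  rw [e, e'] at hz
  rw [hz, h1, h2] at b1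
  obtain ⟨q1, q2, q3, q4⟩ := b1.unique b1'
  rw [q2, q4, h3] at b2
  obtain ⟨r1, r2, r3, r4⟩ := b2.unique b2'
  rw [r2, r4, h4] at b3
  obtain ⟨s1, s2, s3, s4⟩ := b3.unique b3'
  simp only [word_one] at s2
  have hjj : j = j' := by omega
  have hkk : k = k' := by omega
  have hll : l = l' := by omega
  have hT : g.T i (g.T i x) ≠ g.T i x := by rw [g.invol]; exact hun.1.symm
  have hT' : g.T i' (g.T i x) ≠ g.T i x := by rw [s2, g.invol]; exact hun'.1.symm
  have hii : i = i' := rk_inj g hT hT' (by rw [h5, s2])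
  subst hii hjj hkk hll
  have hxx : x = x' := by
    have := congrArg (g.T i) s2
    rwa [g.invol, g.invol] at this
  subst hxx
  refine ⟨rfl, rfl, rfl, rfl, ?_⟩
  refine List.ext_getElem (by omega) fun n hn hn' => ?_
  have a1 := hw n (by omega)
  have a2 := hw' n (by omega)
  unfold lK at a1 a2
  rw [List.getD_eq_getElem _ _ hn] at a1
  rw [List.getD_eq_getElem _ _ hn'] at a2
  rw [a1, a2]

/-- The images of the coding sets have multiplicity at most `Δ ^ 5`. -/
lemma mult_le (hm : ∀ x, (∃ k, c.S k x = x) → c.S (m x) x = x)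
    (hNI : ∀ x ∈ Go, NI g c ν H x) (z : V)
    (s : Finset (ℕ × ℕ × ℕ × ℕ × List (Fin Δ)))
    (hs : ∀ τ ∈ s, z ∈ word g c τ.1 (lK k0 τ.2.2.2.2) τ.2.2.2.1 ''
      DD g c m k0 ν H Go τ.1 τ.2.1 τ.2.2.1 τ.2.2.2.1 τ.2.2.2.2) : s.card ≤ Δ ^ 5 := by
  classical
  let X : ℕ × ℕ × ℕ × ℕ × List (Fin Δ) → V := fun τ =>
    (word g c τ.1 (lK k0 τ.2.2.2.2) τ.2.2.2.1).symm z
  have hX : ∀ τ ∈ s, X τ ∈ DD g c m k0 ν H Go τ.1 τ.2.1 τ.2.2.1 τ.2.2.2.1 τ.2.2.2.2 ∧
      word g c τ.1 (lK k0 τ.2.2.2.2) τ.2.2.2.1 (X τ) = z := by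
    intro τ hτ
    obtain ⟨x, hx, hxz⟩ := hs τ hτ
    have : X τ = x := by
      change (word g c τ.1 (lK k0 τ.2.2.2.2) τ.2.2.2.1).symm z = x
      rw [← hxz]
      exact MeasurableEquiv.symm_apply_apply _ _
    rw [this]
    exact ⟨hx, hxz⟩
  let code : ℕ × ℕ × ℕ × ℕ × List (Fin Δ) → Fin Δ × Fin Δ × Fin Δ × Fin Δ × ℕ := fun τ =>
    (lK k0 τ.2.2.2.2 (τ.2.2.2.1 - 1), lK k0 τ.2.2.2.2 τ.2.2.2.1, lK k0 τ.2.2.2.2 (τ.2.2.1 - 1),
      lK k0 τ.2.2.2.2 (τ.2.1 - 1), rk g τ.1 (g.T τ.1 (X τ)))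
  have hcard : ((Finset.univ : Finset (Fin Δ)) ×ˢ (Finset.univ : Finset (Fin Δ)) ×ˢ
      (Finset.univ : Finset (Fin Δ)) ×ˢ (Finset.univ : Finset (Fin Δ)) ×ˢ
      Finset.range Δ).card = Δ ^ 5 := by
    simp only [Finset.card_product, Finset.card_univ, Fintype.card_fin, Finset.card_range]
    ring
  rw [← hcard]
  refine Finset.card_le_card_of_injOn code ?_ ?_
  · intro τ hτ
    have h1 := (hX τ hτ).1.2.1
    have h2 : rk g τ.1 (g.T τ.1 (X τ)) < Δ := rk_lt g (by rw [g.invol]; exact h1.1.symm)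
    simp only [Finset.coe_product, Set.mem_prod, Finset.coe_univ, Set.mem_univ, true_and,
      Finset.coe_range, Set.mem_Iio, code]
    exact h2
  · intro τ hτ τ' hτ' he
    obtain ⟨i, j, k, l, w⟩ := τ
    obtain ⟨i', j', k', l', w'⟩ := τ'
    obtain ⟨a1, a2⟩ := hX _ hτ
    obtain ⟨b1, b2⟩ := hX _ hτ'
    simp only [code, Prod.mk.injEq] at he
    obtain ⟨h1, h2, h3, h4, h5⟩ := he
    obtain ⟨e1, e2, e3, e4, e5⟩ := DD_decode hm hNI a1 b1 (a2.trans b2.symm) h1 h2 h3 h4 h5
    simp only at e1 e2 e3 e4 e5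
    subst e1 e2 e3 e4 e5
    rfl

end coding

end Pool.Agent.MEC
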