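import Pool.Agent.MEC.Count

open MeasureTheory Set Filter
open scoped ENNReal

set_option linter.unusedSectionVars false

namespace Pool.Agent.MEC

variable {V : Type*} [MeasurableSpace V] [StandardBorelSpace V]
variable {G : SimpleGraph V} {Δ : ℕ}

lemma lK_map (k0 : Fin Δ) (K : ℕ → Fin Δ) {n r : ℕ} (h : r < n) :
    lK k0 ((List.range n).map K) r = K r := by
  unfold lK
  rw [List.getD_eq_getElem _ _ (by simpa using h)]
  simp

section

variable {g : Gen G Δ} {c : PCol G Δ} {m : V → Fin Δ} {k0 : Fin Δ} {ν : Measure V} {H : ℝ≥0∞}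
  {Go : Set V} {C : ℝ≥0∞}

lemma sumD_le (hC : 2 ≤ C) {x : V}
    (hd : ∀ (i : ℕ) (w : List (Fin Δ)) (l : ℕ), dens ν (word g c i (lK k0 w) l) x ≤ C ^ l)
    (i : ℕ) (K : ℕ → Fin Δ) (n : ℕ) : sumD g c i K ν n x ≤ C ^ n := by
  rw [sumD_congr g c i ν n (K := K) (K' := lK k0 ((List.range n).map K))
    (fun j _ h2 => (lK_map k0 K (by omega)).symm)]
  unfold sumD
  exact (Finset.sum_le_sum fun l _ => hd i _ l).trans (geom_le hC n)

lemma inner_bound (hm : ∀ x, (∃ k, c.S k x = x) → c.S (m x) x = x)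
    (hNI : ∀ x ∈ Go, NI g c ν H x) (hHt : H ≠ ⊤) {x : V} (hxG : x ∈ Go) {i : ℕ}
    (hun : x ∈ Unc g c i) {n0 : ℕ}
    (hs : ∀ K, sumD g c i K ν n0 x ≤ H / 2) {j k : ℕ} (h2 : 2 ≤ j) (hjk : j < k)
    (hk0 : k + 1 ≤ n0) (hj : MissAt g c m (swf j k) i x j) (hk : MissAt g c m (swf j k) i x k) :
    H / 2 ≤ ∑' l, ∑' w : List (Fin Δ), (DD g c m k0 ν H Go i j k l w).indicator
      (dens ν (word g c i (lK k0 w) l)) x := by
  classical
  set K := col g c m (swf j k) i x with hK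
  obtain ⟨N0, hN0⟩ := walk_growth (swf_zero j k) (swf_one j k) (hNI x hxG) hun
    (fun n => goodSw_swf hm hun hj hk) hHt
  have hex : ∃ n, H < sumD g c i K ν n x := ⟨N0, hN0⟩
  set N := Nat.find hex with hN
  have hN1 : H < sumD g c i K ν N x := Nat.find_spec hex
  have hN2 : ∀ l < N, sumD g c i K ν l x ≤ H := fun l hl => not_lt.1 (Nat.find_min hex hl)
  have hk1 : sumD g c i K ν (k+1) x ≤ H / 2 := (sumD_mono hk0).trans (hs K)
  have hH2 : H / 2 ≤ H := ENNReal.half_le_self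
  have hNk : k + 1 < N := by
    by_contra hcon
    have := (sumD_mono (g := g) (c := c) (i := i) (ν := ν) (x := x) (K := K) (not_lt.1 hcon))
    exact absurd hN1 (not_lt.2 (this.trans (hk1.trans hH2)))
  have hsplit : sumD g c i K ν N x = sumD g c i K ν (k+1) x +
      ∑ l ∈ Finset.Ico (k+1) N, dens ν (word g c i K l) x := by
    unfold sumD
    rw [Finset.sum_range_add_sum_Ico _ hNk.le]
  have htail : H / 2 ≤ ∑ l ∈ Finset.Ico (k+1) N, dens ν (word g c i K l) x := by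
    by_contra hcon
    rw [not_le] at hcon
    rw [hsplit] at hN1
    have h3 : sumD g c i K ν (k+1) x + ∑ l ∈ Finset.Ico (k+1) N, dens ν (word g c i K l) x ≤
        H / 2 + H / 2 := add_le_add hk1 hcon.le
    rw [ENNReal.add_halves] at h3
    exact absurd hN1 (not_lt.2 h3)
  refine htail.trans ?_
  calc ∑ l ∈ Finset.Ico (k+1) N, dens ν (word g c i K l) x
      ≤ ∑ l ∈ Finset.Ico (k+1) N, ∑' w : List (Fin Δ), (DD g c m k0 ν H Go i j k l w).indicator
          (dens ν (word g c i (lK k0 w) l)) x := by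
        refine Finset.sum_le_sum fun l hl => ?_
        rw [Finset.mem_Ico] at hl
        refine le_trans ?_ (ENNReal.le_tsum ((List.range (l+1)).map K))
        have hw : ∀ r, r ≤ l → lK k0 ((List.range (l+1)).map K) r = K r := fun r hr =>
          lK_map k0 K (by omega)
        have hmem : x ∈ DD g c m k0 ν H Go i j k l ((List.range (l+1)).map K) := by
          refine ⟨hxG, hun, hj, hk, hw, ?_, h2, hjk, hl.1, by simp⟩
          rw [sumD_congr g c i ν l (K' := K) (fun a h1 h2 => hw a (by omega))]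
          exact hN2 l hl.2
        rw [indicator_of_mem hmem, word_congr g c i l (fun a h1 h2 => hw a h2.le)]
    _ ≤ _ := ENNReal.sum_le_tsum _

lemma pointwise_bound (hm : ∀ x, (∃ k, c.S k x = x) → c.S (m x) x = x)
    (hNI : ∀ x ∈ Go, NI g c ν H x) (hHt : H ≠ ⊤) {R : ℕ} (hR : Sparse G Δ R)
    {x : V} (hxG : x ∈ Go) {i : ℕ}
    (hun : x ∈ Unc g c i) {s : ℕ}
    (hs : ∀ K, sumD g c i K ν (2 + 2 * ((R+1) * s)) x ≤ H / 2) :
    (s : ℝ≥0∞) * (s * (H / 2)) ≤ ∑' j, ∑' k, ∑' l, ∑' w : List (Fin Δ),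
      (DD g c m k0 ν H Go i j k l w).indicator (dens ν (word g c i (lK k0 w) l)) x := by
  classical
  have hH2 : H / 2 ≤ H := ENNReal.half_le_self
  have hsH : ∀ K, ∀ n, n ≤ 2 + 2 * ((R+1) * s) → sumD g c i K ν n x ≤ H := fun K n hn =>
    ((sumD_mono hn).trans (hs K)).trans hH2
  -- first switch
  have hj : ∀ q, ∃ j, q < s → (2 + (R+1) * q ≤ j ∧ j ≤ 2 + (R+1) * q + R ∧
      MissAt g c m (swf 0 0) i x j) := by
    intro q
    by_cases hq : q < s
    · have hb : (R+1) * (q+1) ≤ (R+1) * s := Nat.mul_le_mul_left _ hq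
      obtain ⟨j, h1, h2, h3⟩ := exists_missAt hm hR (sw := swf 0 0) (swf_zero 0 0) (swf_one 0 0)
        (hNI x hxG) hun
        (fun n => goodSw_swf hm hun (missAt_zero hm hun _) (missAt_zero hm hun _))
        (2 + (R+1)*q) (hsH _ _ (by rw [Nat.mul_add, Nat.mul_one] at hb; omega))
      exact ⟨j, fun _ => ⟨h1, h2, h3⟩⟩
    · exact ⟨0, fun h => absurd h hq⟩
  choose J hJ using hj
  have hk : ∀ q q', ∃ k, q < s → q' < s → (2 + (R+1) * s + (R+1) * q' ≤ k ∧
      k ≤ 2 + (R+1) * s + (R+1) * q' + R ∧ MissAt g c m (swf (J q) (J q)) i x k) := by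
    intro q q'
    by_cases hq : q < s ∧ q' < s
    · obtain ⟨hq, hq'⟩ := hq
      have hb : (R+1) * (q'+1) ≤ (R+1) * s := Nat.mul_le_mul_left _ hq'
      obtain ⟨j1, j2, j3⟩ := hJ q hq
      have hmj : MissAt g c m (swf (J q) (J q)) i x (J q) :=
        j3.congr fun a ha => swf_agree (by omega)
      obtain ⟨k, h1, h2, h3⟩ := exists_missAt hm hR (sw := swf (J q) (J q)) (swf_zero _ _)
        (swf_one _ _) (hNI x hxG) hun (fun n => goodSw_swf hm hun hmj hmj)
        (2 + (R+1) * s + (R+1)*q') (hsH _ _ (by rw [Nat.mul_add, Nat.mul_one] at hb; omega))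
      exact ⟨k, fun _ _ => ⟨h1, h2, h3⟩⟩
    · exact ⟨0, fun h h' => absurd ⟨h, h'⟩ hq⟩
  choose Kk hKk using hk
  refine tsum_ge_of_inj _ s J ?_ _ ?_
  · intro q hq q' hq' he
    obtain ⟨a1, a2, -⟩ := hJ q hq
    obtain ⟨b1, b2, -⟩ := hJ q' hq'
    by_contra hne
    rcases lt_or_gt_of_ne hne with h | h
    · have hb : (R+1) * (q+1) ≤ (R+1) * q' := Nat.mul_le_mul_left _ h
      rw [Nat.mul_add, Nat.mul_one] at hb
      omega
    · have hb : (R+1) * (q'+1) ≤ (R+1) * q := Nat.mul_le_mul_left _ h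
      rw [Nat.mul_add, Nat.mul_one] at hb
      omega
  · intro q hq
    refine tsum_ge_of_inj _ s (Kk q) ?_ _ ?_
    · intro q1 hq1 q2 hq2 he
      obtain ⟨a1, a2, -⟩ := hKk q q1 hq hq1
      obtain ⟨b1, b2, -⟩ := hKk q q2 hq hq2
      by_contra hne
      rcases lt_or_gt_of_ne hne with h | h
      · have hb : (R+1) * (q1+1) ≤ (R+1) * q2 := Nat.mul_le_mul_left _ h
        rw [Nat.mul_add, Nat.mul_one] at hb
        omega
      · have hb : (R+1) * (q2+1) ≤ (R+1) * q1 := Nat.mul_le_mul_left _ h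
        rw [Nat.mul_add, Nat.mul_one] at hb
        omega
    · intro q' hq'
      obtain ⟨j1, j2, j3⟩ := hJ q hq
      obtain ⟨k1, k2, k3⟩ := hKk q q' hq hq'
      have hb : (R+1) * (q+1) ≤ (R+1) * s := Nat.mul_le_mul_left _ hq
      rw [Nat.mul_add, Nat.mul_one] at hb
      have hb' : (R+1) * (q'+1) ≤ (R+1) * s := Nat.mul_le_mul_left _ hq'
      rw [Nat.mul_add, Nat.mul_one] at hb'
      have hjk : J q < Kk q q' := by omega
      refine inner_bound hm hNI hHt hxG hun hs (by omega) hjk (by omega) ?_ ?_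
      · exact j3.congr fun a ha => swf_agree (by omega)
      · exact k3.congr fun a ha => swf_agree (by omega)

variable [IsFiniteMeasure ν]

/-- The key estimate: a nearly optimal colouring has few uncoloured edges. -/
theorem unc_bound (hq : QInv G ν C) (hC : 2 ≤ C) (hG : NBInj G) {R : ℕ}
    (hR : Sparse G Δ R) (g : Gen G Δ) {H : ℝ} (hH : 0 < H) (hopt : PCol.Opt ν (1 / (12 * H)) c)
    (k0 : Fin Δ) (s : ℕ) (hHs : 2 * C ^ (2 + 2 * ((R+1) * s)) ≤ ENNReal.ofReal H) :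
    (s : ℝ≥0∞) * (s * (ENNReal.ofReal H / 2)) * ∑' i, ν (Unc g c i) ≤ Δ ^ 5 * ν univ := by
  classical
  obtain ⟨m, hmm, hm⟩ := exists_miss_fun c k0
  have hae : ∀ᵐ x ∂ν, NI g c ν (ENNReal.ofReal H) x ∧
      ∀ (i : ℕ) (w : List (Fin Δ)) (l : ℕ), dens ν (word g c i (lK k0 w) l) x ≤ C ^ l := by
    refine (ae_NI g hq hH hopt hG).and ?_
    rw [ae_all_iff]; intro i
    rw [ae_all_iff]; intro w
    rw [ae_all_iff]; intro l
    exact (word_bdd g c i (lK k0 w) hq l).dens_le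
  rw [ae_iff] at hae
  set Bd := {x | ¬(NI g c ν (ENNReal.ofReal H) x ∧
      ∀ (i : ℕ) (w : List (Fin Δ)) (l : ℕ), dens ν (word g c i (lK k0 w) l) x ≤ C ^ l)} with hBd
  set Go := (toMeasurable ν Bd)ᶜ with hGo
  have hGom : MeasurableSet Go := (measurableSet_toMeasurable ν Bd).compl
  have hGoc : ν Goᶜ = 0 := by rw [hGo, compl_compl, measure_toMeasurable, hae]
  have hGos : ∀ x ∈ Go, NI g c ν (ENNReal.ofReal H) x ∧
      ∀ (i : ℕ) (w : List (Fin Δ)) (l : ℕ), dens ν (word g c i (lK k0 w) l) x ≤ C ^ l := by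
    intro x hx
    by_contra hcon
    exact hx (subset_toMeasurable ν Bd hcon)
  have hNI : ∀ x ∈ Go, NI g c ν (ENNReal.ofReal H) x := fun x hx => (hGos x hx).1
  set A : ℕ × ℕ × ℕ × ℕ × List (Fin Δ) → Set V := fun τ =>
    word g c τ.1 (lK k0 τ.2.2.2.2) τ.2.2.2.1 ''
      DD g c m k0 ν (ENNReal.ofReal H) Go τ.1 τ.2.1 τ.2.2.1 τ.2.2.2.1 τ.2.2.2.2 with hA
  have hDDm := fun i j k l w => measurableSet_DD (g := g) (c := c) (k0 := k0) (ν := ν)
    (H := ENNReal.ofReal H) hmm hGom i j k l w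
  have hAm : ∀ τ, MeasurableSet (A τ) := fun τ =>
    (word g c τ.1 (lK k0 τ.2.2.2.2) τ.2.2.2.1).measurableSet_image.2 (hDDm _ _ _ _ _)
  have hup : ∑' τ, ν (A τ) ≤ ((Δ ^ 5 : ℕ) : ℝ≥0∞) * ν univ := by
    refine tsum_measure_le_of_mult ν A hAm _ fun z t ht => ?_
    exact mult_le (k0 := k0) (ν := ν) (H := ENNReal.ofReal H) (Go := Go) hm hNI z t ht
  have hcast : ((Δ ^ 5 : ℕ) : ℝ≥0∞) = (Δ : ℝ≥0∞) ^ 5 := by push_cast; rfl
  rw [← hcast]
  refine le_trans ?_ hup
  rw [ENNReal.tsum_prod' (f := fun τ => ν (A τ)), ← ENNReal.tsum_mul_left]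
  refine ENNReal.tsum_le_tsum fun i => ?_
  calc (s : ℝ≥0∞) * (s * (ENNReal.ofReal H / 2)) * ν (Unc g c i)
      = ∫⁻ x in Unc g c i, (s : ℝ≥0∞) * (s * (ENNReal.ofReal H / 2)) ∂ν := by
        rw [setLIntegral_const]
    _ ≤ ∫⁻ x in Unc g c i, ∑' σ : ℕ × ℕ × ℕ × List (Fin Δ),
          (DD g c m k0 ν (ENNReal.ofReal H) Go i σ.1 σ.2.1 σ.2.2.1 σ.2.2.2).indicator
            (dens ν (word g c i (lK k0 σ.2.2.2) σ.2.2.1)) x ∂ν := by
        refine setLIntegral_mono_ae' (measurableSet_Unc i) ?_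
        have : ∀ᵐ x ∂ν, x ∈ Go := by
          rw [ae_iff]; exact hGoc
        filter_upwards [this] with x hxG hun
        have hpt := pointwise_bound (k0 := k0) hm hNI ENNReal.ofReal_ne_top hR hxG hun (s := s)
          (fun K => by
            refine (sumD_le hC (hGos x hxG).2 i K _).trans ?_
            rw [ENNReal.le_div_iff_mul_le (by simp) (by simp), mul_comm]
            exact hHs)
        refine hpt.trans (le_of_eq ?_)
        rw [ENNReal.tsum_prod']
        refine tsum_congr fun j => ?_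
        rw [ENNReal.tsum_prod']
        refine tsum_congr fun k => ?_
        rw [ENNReal.tsum_prod']
    _ ≤ ∫⁻ x, ∑' σ : ℕ × ℕ × ℕ × List (Fin Δ),
          (DD g c m k0 ν (ENNReal.ofReal H) Go i σ.1 σ.2.1 σ.2.2.1 σ.2.2.2).indicator
            (dens ν (word g c i (lK k0 σ.2.2.2) σ.2.2.1)) x ∂ν := setLIntegral_le_lintegral _ _
    _ = ∑' σ : ℕ × ℕ × ℕ × List (Fin Δ), ∫⁻ x,
          (DD g c m k0 ν (ENNReal.ofReal H) Go i σ.1 σ.2.1 σ.2.2.1 σ.2.2.2).indicator
            (dens ν (word g c i (lK k0 σ.2.2.2) σ.2.2.1)) x ∂ν := by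
        refine lintegral_tsum fun σ => ?_
        exact ((measurable_dens ν _).indicator (hDDm _ _ _ _ _)).aemeasurable
    _ = ∑' σ : ℕ × ℕ × ℕ × List (Fin Δ), ν (A (i, σ)) := by
        refine tsum_congr fun σ => ?_
        rw [lintegral_indicator (hDDm _ _ _ _ _),
          (word_bdd g c i (lK k0 σ.2.2.2) hq σ.2.2.1).setLIntegral_dens]

end

end Pool.Agent.MEC
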