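import Pool.Agent.MEC.QInv

open MeasureTheory Set Filter
open scoped ENNReal

set_option linter.unusedSectionVars false

namespace Pool.Agent.MEC

variable {V : Type*} [MeasurableSpace V]
variable {G : SimpleGraph V} {Δ : ℕ}

/-- The density of `B ↦ ν (φ '' B)` with respect to `ν`. -/
noncomputable def dens (ν : Measure V) (φ : V ≃ᵐ V) : V → ℝ≥0∞ := (ν.map φ.symm).rnDeriv ν

lemma measurable_dens (ν : Measure V) (φ : V ≃ᵐ V) : Measurable (dens ν φ) :=
  Measure.measurable_rnDeriv _ _

lemma map_symm_apply' (ν : Measure V) (φ : V ≃ᵐ V) (B : Set V) :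
    ν.map φ.symm B = ν (φ '' B) := by
  rw [MeasurableEquiv.map_apply]
  congr 1
  exact (φ.toEquiv.image_eq_preimage_symm B).symm

/-- `φ` distorts `ν` by at most `c`. -/
def BddBy (ν : Measure V) (φ : V ≃ᵐ V) (c : ℝ≥0∞) : Prop :=
  ∀ B, MeasurableSet B → ν (φ '' B) ≤ c * ν B

section

variable {ν : Measure V} [IsFiniteMeasure ν] {φ : V ≃ᵐ V} {c : ℝ≥0∞}

lemma BddBy.ac (h : BddBy ν φ c) : ν.map φ.symm ≪ ν := by
  refine Measure.AbsolutelyContinuous.mk fun B hB h0 => ?_
  rw [map_symm_apply']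
  have := h B hB
  rw [h0, mul_zero] at this
  exact le_antisymm this bot_le

lemma BddBy.setLIntegral_dens (h : BddBy ν φ c) (B : Set V) :
    ∫⁻ x in B, dens ν φ x ∂ν = ν (φ '' B) := by
  unfold dens
  have : IsFiniteMeasure (ν.map φ.symm) := by
    infer_instance
  rw [Measure.setLIntegral_rnDeriv h.ac, map_symm_apply']

lemma BddBy.dens_le (h : BddBy ν φ c) : ∀ᵐ x ∂ν, dens ν φ x ≤ c := by
  refine ae_le_of_forall_setLIntegral_le_of_sigmaFinite (measurable_dens ν φ) fun B hB _ => ?_
  rw [h.setLIntegral_dens, setLIntegral_const]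
  exact h B hB

end

/-- measurable involution as a measurable equivalence -/
def ofInvol (S : V → V) (hS : Measurable S) (h : ∀ x, S (S x) = x) : V ≃ᵐ V where
  toEquiv := ⟨S, S, h, h⟩
  measurable_toFun := hS
  measurable_invFun := hS

lemma ofInvol_apply (S : V → V) (hS : Measurable S) (h : ∀ x, S (S x) = x) (x : V) :
    ofInvol S hS h x = S x := rfl

lemma QInv.bddBy {ν : Measure V} {C : ℝ≥0∞} (hq : QInv G ν C) (S : V → V) (hS : Measurable S)
    (h : ∀ x, S (S x) = x) (hadj : ∀ x, S x ≠ x → G.Adj x (S x)) : BddBy ν (ofInvol S hS h) C := by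
  intro B hB
  have : (ofInvol S hS h) '' B = S ⁻¹' B := by
    ext x
    simp only [mem_image, mem_preimage]
    constructor
    · rintro ⟨y, hy, rfl⟩
      rw [ofInvol_apply, h]; exact hy
    · intro hx
      exact ⟨S x, hx, by rw [ofInvol_apply, h]⟩
  rw [this]
  exact hq S hS h hadj B hB

lemma BddBy.trans {ν : Measure V} {φ ψ : V ≃ᵐ V} {c d : ℝ≥0∞} (h : BddBy ν φ c)
    (h' : BddBy ν ψ d) : BddBy ν (φ.trans ψ) (c * d) := by
  intro B hB
  have : (φ.trans ψ) '' B = ψ '' (φ '' B) := by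
    rw [← image_comp]; rfl
  rw [this]
  calc ν (ψ '' (φ '' B)) ≤ d * ν (φ '' B) := h' _ (φ.measurableSet_image.2 hB)
    _ ≤ d * (c * ν B) := by gcongr; exact h B hB
    _ = c * d * ν B := by ring

/-- The maps `x ↦ y_l` following the edge number `i` and then the colours `K 1, K 2, …`. -/
noncomputable def word (g : Gen G Δ) (c : PCol G Δ) (i : ℕ) (K : ℕ → Fin Δ) : ℕ → (V ≃ᵐ V)
  | 0 => MeasurableEquiv.refl V
  | 1 => ofInvol (g.T i) (g.meas i) (g.invol i)
  | (l+2) => (word g c i K (l+1)).trans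
      (ofInvol (c.S (K (l+1))) (c.meas (K (l+1))) (c.invol (K (l+1))))

section word

variable (g : Gen G Δ) (c : PCol G Δ) (i : ℕ) (K : ℕ → Fin Δ)

@[simp] lemma word_zero (x : V) : word g c i K 0 x = x := rfl
@[simp] lemma word_one (x : V) : word g c i K 1 x = g.T i x := rfl
lemma word_succ (l : ℕ) (x : V) :
    word g c i K (l+2) x = c.S (K (l+1)) (word g c i K (l+1) x) := rfl

lemma word_congr {K K' : ℕ → Fin Δ} (n : ℕ) (h : ∀ j, 1 ≤ j → j < n → K j = K' j) :
    word g c i K n = word g c i K' n := by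
  match n with
  | 0 => rfl
  | 1 => rfl
  | (l+2) =>
    have ih := word_congr (l+1) (fun j h1 h2 => h j h1 (by omega))
    have e := h (l+1) (by omega) (by omega)
    rw [word, word, ih]
    congr 1
    simp only [e]

lemma word_bdd {ν : Measure V} {C : ℝ≥0∞} (hq : QInv G ν C) (n : ℕ) :
    BddBy ν (word g c i K n) (C ^ n) := by
  match n with
  | 0 =>
    intro B _
    have : (word g c i K 0) '' B = B := by
      change (fun x => x) '' B = B
      simp
    rw [this]; simp
  | 1 =>
    have := hq.bddBy (g.T i) (g.meas i) (g.invol i) (g.adj i)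
    rw [pow_one]; exact this
  | (l+2) =>
    have ih := word_bdd hq (l+1)
    have h2 := hq.bddBy (c.S (K (l+1))) (c.meas _) (c.invol _) (c.adj _)
    have := ih.trans h2
    rw [pow_succ]
    exact this

end word

end Pool.Agent.MEC
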