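import Pool.Agent.MEC.Complete

open MeasureTheory Set Filter

set_option linter.unusedSectionVars false

namespace Pool.Agent.MEC

variable {V : Type*} [MeasurableSpace V] [MeasurableEq V]
variable {G : SimpleGraph V} {Δ : ℕ} {ν : Measure V} [IsFiniteMeasure ν]

namespace PCol

/-- `c` cannot be improved by a modification whose gain exceeds `lam` times its cost. -/
def Opt (ν : Measure V) (lam : ℝ) (c : PCol G Δ) : Prop :=
  ∀ c' : PCol G Δ, c.Phi ν ≤ c'.Phi ν + lam * dst ν c c'

/-- The order used in Ekeland's principle. -/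
def Below (ν : Measure V) (lam : ℝ) (c c' : PCol G Δ) : Prop :=
  c'.Phi ν + lam * dst ν c c' ≤ c.Phi ν

lemma Below.refl (lam : ℝ) (c : PCol G Δ) : Below ν lam c c := by
  unfold Below; rw [dst_self]; simp

lemma Below.trans {lam : ℝ} (hl : 0 ≤ lam) {c c' c'' : PCol G Δ} (h : Below ν lam c c')
    (h' : Below ν lam c' c'') : Below ν lam c c'' := by
  unfold Below at *
  have := dst_triangle (ν := ν) c c' c''
  nlinarith

lemma exists_near_inf (lam : ℝ) (c : PCol G Δ) (ε : ℝ) (hε : 0 < ε) :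
    ∃ c', Below ν lam c c' ∧ ∀ c'', Below ν lam c c'' → c'.Phi ν ≤ c''.Phi ν + ε := by
  set I := sInf ((fun c' : PCol G Δ => c'.Phi ν) '' {c' | Below ν lam c c'}) with hI
  have hne : ((fun c' : PCol G Δ => c'.Phi ν) '' {c' | Below ν lam c c'}).Nonempty :=
    ⟨_, c, Below.refl lam c, rfl⟩
  have hbdd : BddBelow ((fun c' : PCol G Δ => c'.Phi ν) '' {c' | Below ν lam c c'}) := by
    refine ⟨0, ?_⟩
    rintro _ ⟨c', -, rfl⟩
    exact Phi_nonneg c'
  obtain ⟨_, ⟨c', hc', rfl⟩, hlt⟩ := exists_lt_of_csInf_lt hne (show I < I + ε by linarith)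
  refine ⟨c', hc', fun c'' h'' => ?_⟩
  have : I ≤ c''.Phi ν := csInf_le hbdd ⟨c'', h'', rfl⟩
  simp only at hlt
  linarith

lemma exists_opt (lam : ℝ) (hl : 0 < lam) (c₀ : PCol G Δ) :
    ∃ c, Opt ν lam c ∧ c.Phi ν + lam * dst ν c₀ c ≤ c₀.Phi ν := by
  choose next hn1 hn2 using fun (n : ℕ) (c : PCol G Δ) =>
    exists_near_inf (ν := ν) lam c ((1/2 : ℝ)^n) (by positivity)
  let c : ℕ → PCol G Δ := fun n => Nat.rec c₀ (fun n c => next n c) n
  have hc0 : c 0 = c₀ := rfl
  have hcs : ∀ n, c (n+1) = next n (c n) := fun n => rfl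
  have hstep : ∀ n, Below ν lam (c n) (c (n+1)) := fun n => by rw [hcs]; exact hn1 n (c n)
  have hstep' : ∀ n, lam * dst ν (c n) (c (n+1)) ≤ (c n).Phi ν - (c (n+1)).Phi ν := by
    intro n; have := hstep n; unfold Below at this; linarith
  have hpart : ∀ n M, lam * ∑ m ∈ Finset.range M, dst ν (c (n+m)) (c (n+m+1)) ≤
      (c n).Phi ν - (c (n+M)).Phi ν := by
    intro n M
    induction M with
    | zero => simp
    | succ M ih =>
      rw [Finset.sum_range_succ, mul_add]
      have := hstep' (n+M)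
      have e : c (n + M + 1) = c (n + (M + 1)) := rfl
      rw [e] at this ⊢
      linarith
  have hsum : Summable fun n => dst ν (c n) (c (n+1)) := by
    refine summable_of_sum_range_le (c := (c 0).Phi ν / lam) (fun n => dst_nonneg _ _) ?_
    intro M
    rw [le_div_iff₀ hl]
    have := hpart 0 M
    simp only [zero_add] at this
    have h0 := Phi_nonneg (ν := ν) (c M)
    linarith
  set d := lim c with hd
  have hdist := dst_lim_le (ν := ν) c hsum
  have hanti : Antitone fun n => (c n).Phi ν := by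
    refine antitone_nat_of_succ_le fun n => ?_
    have := hstep' n
    have h0 := dst_nonneg (ν := ν) (c n) (c (n+1))
    nlinarith
  have hbb : BddBelow (range fun n => (c n).Phi ν) := ⟨0, by rintro _ ⟨n, rfl⟩; exact Phi_nonneg _⟩
  have hlimPhi := tendsto_atTop_ciInf hanti hbb
  set ℓ := ⨅ n, (c n).Phi ν with hℓ
  -- summable tails
  have hs' : ∀ n, Summable fun m => dst ν (c (n+m)) (c (n+m+1)) := by
    intro n
    have := (summable_nat_add_iff n).2 hsum
    refine this.congr fun m => ?_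
    simp [add_comm]
  have htail : ∀ n, lam * ∑' m, dst ν (c (n+m)) (c (n+m+1)) ≤ (c n).Phi ν - ℓ := by
    intro n
    have h1 : Tendsto (fun M => lam * ∑ m ∈ Finset.range M, dst ν (c (n+m)) (c (n+m+1))) atTop
        (nhds (lam * ∑' m, dst ν (c (n+m)) (c (n+m+1)))) :=
      ((hs' n).hasSum.tendsto_sum_nat).const_mul lam
    refine le_of_tendsto h1 (Eventually.of_forall fun M => ?_)
    refine (hpart n M).trans ?_
    have : ℓ ≤ (c (n+M)).Phi ν := ciInf_le hbb (n+M)
    linarith
  have hlamdist : ∀ n, lam * dst ν (c n) d ≤ (c n).Phi ν - ℓ := fun n =>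
    (mul_le_mul_of_nonneg_left (hdist n) hl.le).trans (htail n)
  have hPhid : d.Phi ν ≤ ℓ := by
    have h1 : ∀ n, d.Phi ν ≤ (c n).Phi ν + ((c n).Phi ν - ℓ) / lam := by
      intro n
      have := Phi_le_add_dst (ν := ν) d (c n)
      rw [dst_comm] at this
      have h2 : dst ν (c n) d ≤ ((c n).Phi ν - ℓ) / lam := by
        rw [le_div_iff₀ hl]; linarith [hlamdist n]
      linarith
    have h2 : Tendsto (fun n => (c n).Phi ν + ((c n).Phi ν - ℓ) / lam) atTop
        (nhds (ℓ + (ℓ - ℓ) / lam)) :=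
      hlimPhi.add ((hlimPhi.sub_const ℓ).div_const lam)
    have := ge_of_tendsto' h2 h1
    simpa using this
  have hbelow : ∀ n, Below ν lam (c n) d := by
    intro n
    unfold Below
    have := hlamdist n
    linarith
  refine ⟨d, ?_, ?_⟩
  · intro c'
    by_contra hcon
    push Not at hcon
    have hB : Below ν lam d c' := hcon.le
    have h1 : ∀ n, ℓ ≤ c'.Phi ν + (1/2 : ℝ)^n := by
      intro n
      have h3 := hn2 n (c n) c' ((hbelow n).trans hl.le hB)
      have h4 : ℓ ≤ (c (n+1)).Phi ν := ciInf_le hbb (n+1)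
      rw [hcs] at h4
      linarith
    have h2 : Tendsto (fun n : ℕ => c'.Phi ν + (1/2 : ℝ)^n) atTop (nhds (c'.Phi ν + 0)) :=
      tendsto_const_nhds.add (tendsto_pow_atTop_nhds_zero_of_lt_one (by norm_num) (by norm_num))
    have h3 := ge_of_tendsto' h2 h1
    have h0 := dst_nonneg (ν := ν) d c'
    nlinarith
  · exact hbelow 0

end PCol

end Pool.Agent.MEC
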