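import Pool.Agent.MEC.Basic

open MeasureTheory Set Filter

set_option linter.unusedSectionVars false

namespace Pool.Agent.MEC

variable {V : Type*} [MeasurableSpace V]
variable {G : SimpleGraph V} {Δ : ℕ} {ν : Measure V} [IsFiniteMeasure ν]

namespace PCol

open Classical in
/-- The involution `c.S κ` after inserting the edges `{f x, g x}` (`x ∈ B`) and making the points of
`H` isolated. -/
noncomputable def insS (c : PCol G Δ) (κ : Fin Δ) (f g : V ≃ᵐ V) (B H : Set V) (p : V) : V :=
  if p ∈ f '' B then g (f.symm p) else if p ∈ g '' B then f (g.symm p)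
  else if p ∈ H then p else c.S κ p

lemma measurable_image {f : V ≃ᵐ V} {B : Set V} (hB : MeasurableSet B) :
    MeasurableSet (f '' B) := f.measurableSet_image.2 hB

section ins

variable {c : PCol G Δ} {κ : Fin Δ} {f g : V ≃ᵐ V} {B H : Set V}

lemma insS_f {x : V} (hx : x ∈ B) : insS c κ f g B H (f x) = g x := by
  rw [insS, if_pos ⟨x, hx, rfl⟩]; simp

lemma insS_g (hfg : Disjoint (f '' B) (g '' B)) {x : V} (hx : x ∈ B) :
    insS c κ f g B H (g x) = f x := by
  rw [insS, if_neg, if_pos ⟨x, hx, rfl⟩]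
  · simp
  · exact fun h => (hfg.ne_of_mem h ⟨x, hx, rfl⟩) rfl

lemma insS_H (hf : Disjoint (f '' B) H) (hg : Disjoint (g '' B) H) {p : V} (hp : p ∈ H) :
    insS c κ f g B H p = p := by
  rw [insS, if_neg, if_neg, if_pos hp]
  · exact fun h => (hg.ne_of_mem h hp) rfl
  · exact fun h => (hf.ne_of_mem h hp) rfl

lemma insS_other {p : V} (h1 : p ∉ f '' B) (h2 : p ∉ g '' B) (h3 : p ∉ H) :
    insS c κ f g B H p = c.S κ p := by
  rw [insS, if_neg h1, if_neg h2, if_neg h3]

lemma measurable_insS (hB : MeasurableSet B) (hH : MeasurableSet H) :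
    Measurable (insS c κ f g B H) := by
  classical
  unfold insS
  refine Measurable.ite (measurable_image hB) (g.measurable.comp f.symm.measurable) ?_
  refine Measurable.ite (measurable_image hB) (f.measurable.comp g.symm.measurable) ?_
  exact Measurable.ite hH measurable_id (c.meas κ)

open Classical in
/-- Insert the edges `{f x, g x}` (`x ∈ B`) in colour `κ`, isolating the points of `H`. -/
noncomputable def insertEdge (c : PCol G Δ) (κ : Fin Δ) (f g : V ≃ᵐ V) (B H : Set V)
    (hB : MeasurableSet B) (hH : MeasurableSet H)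
    (hfg : Disjoint (f '' B) (g '' B)) (hfH : Disjoint (f '' B) H) (hgH : Disjoint (g '' B) H)
    (hadj : ∀ x ∈ B, G.Adj (f x) (g x)) (hunc : ∀ x ∈ B, ∀ k, c.S k (f x) ≠ g x)
    (hf : ∀ x ∈ B, c.S κ (f x) = f x)
    (hinv : ∀ p, p ∈ g '' B ∪ H → c.S κ p ∈ g '' B ∪ H) : PCol G Δ where
  S := fun k => if k = κ then insS c κ f g B H else c.S k
  meas := by
    intro k
    by_cases hk : k = κ
    · simp only [hk, if_true]; exact measurable_insS hB hH
    · simp only [hk, if_false]; exact c.meas k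
  invol := by
    intro k p
    by_cases hk : k = κ
    · simp only [hk, if_true]
      by_cases h1 : p ∈ f '' B
      · obtain ⟨x, hx, rfl⟩ := h1
        rw [insS_f hx, insS_g hfg hx]
      by_cases h2 : p ∈ g '' B
      · obtain ⟨x, hx, rfl⟩ := h2
        rw [insS_g hfg hx, insS_f hx]
      by_cases h3 : p ∈ H
      · rw [insS_H hfH hgH h3, insS_H hfH hgH h3]
      rw [insS_other h1 h2 h3]
      have h4 : c.S κ p ∉ g '' B ∪ H := by
        intro h
        have := hinv _ h
        rw [c.invol] at this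
        rcases this with h | h
        · exact h2 h
        · exact h3 h
      have h5 : c.S κ p ∉ f '' B := by
        rintro ⟨x, hx, hxe⟩
        have := hf x hx
        rw [hxe, c.invol] at this
        apply h1
        rw [this]
        exact ⟨x, hx, hxe⟩
      rw [insS_other h5 (fun h => h4 (Or.inl h)) (fun h => h4 (Or.inr h)), c.invol]
    · simp only [hk, if_false]; exact c.invol k p
  adj := by
    intro k p
    by_cases hk : k = κ
    · simp only [hk, if_true]
      by_cases h1 : p ∈ f '' B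
      · obtain ⟨x, hx, rfl⟩ := h1
        rw [insS_f hx]; intro _; exact hadj x hx
      by_cases h2 : p ∈ g '' B
      · obtain ⟨x, hx, rfl⟩ := h2
        rw [insS_g hfg hx]; intro _; exact (hadj x hx).symm
      by_cases h3 : p ∈ H
      · rw [insS_H hfH hgH h3]; intro h; exact absurd rfl h
      rw [insS_other h1 h2 h3]; exact c.adj κ p
    · simp only [hk, if_false]; exact c.adj k p
  disj := by
    have key : ∀ k p, k ≠ κ → insS c κ f g B H p = c.S k p → insS c κ f g B H p ≠ p → False := by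
      intro k p hk he hne
      by_cases h1 : p ∈ f '' B
      · obtain ⟨x, hx, rfl⟩ := h1
        rw [insS_f hx] at he
        exact hunc x hx k he.symm
      by_cases h2 : p ∈ g '' B
      · obtain ⟨x, hx, rfl⟩ := h2
        rw [insS_g hfg hx] at he
        apply hunc x hx k
        rw [he, c.invol]
      by_cases h3 : p ∈ H
      · rw [insS_H hfH hgH h3] at hne; exact hne rfl
      rw [insS_other h1 h2 h3] at he hne
      exact hk (c.disj κ k p he hne).symm
    intro k k' p
    by_cases hk : k = κ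
    · by_cases hk' : k' = κ
      · intro _ _; rw [hk, hk']
      · simp only [hk, hk', if_true, if_false]
        intro he hne
        exact absurd (key k' p hk' he hne) id
    · by_cases hk' : k' = κ
      · simp only [hk, hk', if_true, if_false]
        intro he hne
        exact absurd (key k p hk he.symm (by rw [← he]; exact hne)) id
      · simp only [hk, hk', if_false]
        exact c.disj k k' p

end ins

/-- Real measure of a set which differs from another by adding and removing. -/
lemma real_change {F F' P Q : Set V} (hP : MeasurableSet P) (hQ : MeasurableSet Q)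
    (hPF : P ⊆ F) (hQF : Disjoint Q F) (hF' : F' = (F \ P) ∪ Q) :
    ν.real F' = ν.real F - ν.real P + ν.real Q := by
  rw [hF', measureReal_union (Disjoint.mono_right sdiff_subset hQF).symm hQ,
    measureReal_sdiff hPF hP]

lemma Phi_change {c c' : PCol G Δ} {κ : Fin Δ} {a : ℝ} (h : ∀ k, k ≠ κ → c'.S k = c.S k)
    (hκ : ν.real {x | c'.S κ x = x} = ν.real {x | c.S κ x = x} + a) :
    c'.Phi ν = c.Phi ν + a := by
  unfold Phi
  rw [← Finset.add_sum_erase _ _ (Finset.mem_univ κ), ← Finset.add_sum_erase _ _ (Finset.mem_univ κ),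
    hκ]
  have : ∑ k ∈ Finset.univ.erase κ, ν.real {x | c'.S k x = x} =
      ∑ k ∈ Finset.univ.erase κ, ν.real {x | c.S k x = x} := by
    refine Finset.sum_congr rfl fun k hk => ?_
    rw [h k (Finset.ne_of_mem_erase hk)]
  rw [this]; ring

lemma dst_change {c c' : PCol G Δ} {κ : Fin Δ} {P : Set V} (h : ∀ k, k ≠ κ → c'.S k = c.S k)
    (hκ : {x | c.S κ x ≠ c'.S κ x} ⊆ P) :
    dst ν c c' ≤ ν.real P := by
  unfold dst
  rw [← Finset.add_sum_erase _ _ (Finset.mem_univ κ)]
  have : ∑ k ∈ Finset.univ.erase κ, ν.real {x | c.S k x ≠ c'.S k x} = 0 := by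
    refine Finset.sum_eq_zero fun k hk => ?_
    rw [h k (Finset.ne_of_mem_erase hk)]
    simp
  rw [this, add_zero]
  exact measureReal_mono hκ

/-- One elementary move of uncoloured edges. -/
lemma moveStep (c : PCol G Δ) (κ : Fin Δ) (f g h : V ≃ᵐ V) (B : Set V)
    (hB : MeasurableSet B)
    (hfg : Disjoint (f '' B) (g '' B)) (hfh : Disjoint (f '' B) (h '' B))
    (hgh : Disjoint (g '' B) (h '' B))
    (hadj : ∀ x ∈ B, G.Adj (f x) (g x)) (hunc : ∀ x ∈ B, ∀ k, c.S k (f x) ≠ g x)
    (hf : ∀ x ∈ B, c.S κ (f x) = f x) (hg : ∀ x ∈ B, c.S κ (g x) = h x) :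
    ∃ c' : PCol G Δ, (∀ k, k ≠ κ → c'.S k = c.S k) ∧
      (∀ x ∈ B, c'.S κ (f x) = g x) ∧ (∀ x ∈ B, c'.S κ (g x) = f x) ∧
      (∀ x ∈ B, c'.S κ (h x) = h x) ∧
      (∀ p, p ∉ f '' B → p ∉ g '' B → p ∉ h '' B → c'.S κ p = c.S κ p) ∧
      c'.Phi ν = c.Phi ν + (ν.real (h '' B) - ν.real (f '' B)) ∧
      dst ν c c' ≤ ν.real (f '' B) + ν.real (g '' B) + ν.real (h '' B) := by
  have hhx : ∀ x ∈ B, c.S κ (h x) = g x := fun x hx => by rw [← hg x hx, c.invol]
  have hinv : ∀ p, p ∈ g '' B ∪ h '' B → c.S κ p ∈ g '' B ∪ h '' B := by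
    rintro p (⟨x, hx, rfl⟩ | ⟨x, hx, rfl⟩)
    · right; exact ⟨x, hx, (hg x hx).symm⟩
    · left; exact ⟨x, hx, (hhx x hx).symm⟩
  let c' := insertEdge c κ f g B (h '' B) hB (measurable_image hB) hfg hfh hgh hadj hunc hf hinv
  have hS : c'.S κ = insS c κ f g B (h '' B) := by simp [c', insertEdge]
  have hne : ∀ k, k ≠ κ → c'.S k = c.S k := fun k hk => by simp [c', insertEdge, hk]
  have h1 : ∀ x ∈ B, c'.S κ (f x) = g x := fun x hx => by rw [hS]; exact insS_f hx
  have h2 : ∀ x ∈ B, c'.S κ (g x) = f x := fun x hx => by rw [hS]; exact insS_g hfg hx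
  have h3 : ∀ x ∈ B, c'.S κ (h x) = h x := fun x hx => by
    rw [hS]; exact insS_H hfh hgh ⟨x, hx, rfl⟩
  have h4 : ∀ p, p ∉ f '' B → p ∉ g '' B → p ∉ h '' B → c'.S κ p = c.S κ p := by
    intro p h1 h2 h3; rw [hS]; exact insS_other h1 h2 h3
  refine ⟨c', hne, h1, h2, h3, h4, ?_, ?_⟩
  · refine Phi_change hne ?_
    have := real_change (ν := ν) (F := {x | c.S κ x = x}) (F' := {x | c'.S κ x = x})
      (P := f '' B) (Q := h '' B) (measurable_image hB) (measurable_image hB) ?_ ?_ ?_
    · rw [this]; ring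
    · rintro _ ⟨x, hx, rfl⟩; exact hf x hx
    · rw [Set.disjoint_left]
      rintro _ ⟨x, hx, rfl⟩ hfix
      have hfix' : c.S κ (h x) = h x := hfix
      rw [hhx x hx] at hfix'
      exact hgh.ne_of_mem ⟨x, hx, rfl⟩ ⟨x, hx, rfl⟩ hfix'
    · ext p
      simp only [mem_ofPred_eq, mem_union, Set.mem_sdiff]
      by_cases k1 : p ∈ f '' B
      · have k3 : p ∉ h '' B := fun h' => hfh.ne_of_mem k1 h' rfl
        simp only [k1, k3, not_true, and_false, or_false, iff_false]
        obtain ⟨x, hx, rfl⟩ := k1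
        rw [h1 x hx]
        exact fun he => hfg.ne_of_mem ⟨x, hx, rfl⟩ ⟨x, hx, rfl⟩ he.symm
      by_cases k2 : p ∈ g '' B
      · have k3 : p ∉ h '' B := fun h' => hgh.ne_of_mem k2 h' rfl
        obtain ⟨x, hx, rfl⟩ := k2
        simp only [k1, k3, or_false, not_false_iff, and_true]
        rw [h2 x hx, hg x hx]
        constructor
        · intro he; exact absurd he (hfg.ne_of_mem ⟨x, hx, rfl⟩ ⟨x, hx, rfl⟩)
        · intro he; exact absurd he.symm (hgh.ne_of_mem ⟨x, hx, rfl⟩ ⟨x, hx, rfl⟩)
      by_cases k3 : p ∈ h '' B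
      · simp only [k3, or_true, iff_true]
        obtain ⟨x, hx, rfl⟩ := k3
        exact h3 x hx
      · simp only [k1, k3, or_false, not_false_iff, and_true]
        rw [h4 p k1 k2 k3]
  · refine (dst_change (P := (f '' B ∪ g '' B) ∪ h '' B) hne ?_).trans ?_
    · intro p hp
      by_contra hcon
      simp only [mem_union, not_or] at hcon
      exact hp (h4 p hcon.1.1 hcon.1.2 hcon.2).symm
    · refine (measureReal_union_le _ _).trans ?_
      gcongr
      exact measureReal_union_le _ _

/-- Colouring uncoloured edges with a colour missing at both ends. -/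
lemma finishStep (c : PCol G Δ) (κ : Fin Δ) (f g : V ≃ᵐ V) (B : Set V)
    (hB : MeasurableSet B)
    (hfg : Disjoint (f '' B) (g '' B))
    (hadj : ∀ x ∈ B, G.Adj (f x) (g x)) (hunc : ∀ x ∈ B, ∀ k, c.S k (f x) ≠ g x)
    (hf : ∀ x ∈ B, c.S κ (f x) = f x) (hg : ∀ x ∈ B, c.S κ (g x) = g x) :
    ∃ c' : PCol G Δ,
      c'.Phi ν = c.Phi ν - ν.real (f '' B) - ν.real (g '' B) ∧
      dst ν c c' ≤ ν.real (f '' B) + ν.real (g '' B) := by
  have hinv : ∀ p, p ∈ g '' B ∪ ∅ → c.S κ p ∈ g '' B ∪ ∅ := by
    rintro p (⟨x, hx, rfl⟩ | h)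
    · left; exact ⟨x, hx, (hg x hx).symm⟩
    · exact absurd h (by simp)
  let c' := insertEdge c κ f g B ∅ hB MeasurableSet.empty hfg (disjoint_empty _) (disjoint_empty _)
    hadj hunc hf hinv
  have hS : c'.S κ = insS c κ f g B ∅ := by simp [c', insertEdge]
  have hne : ∀ k, k ≠ κ → c'.S k = c.S k := fun k hk => by simp [c', insertEdge, hk]
  have h1 : ∀ x ∈ B, c'.S κ (f x) = g x := fun x hx => by rw [hS]; exact insS_f hx
  have h2 : ∀ x ∈ B, c'.S κ (g x) = f x := fun x hx => by rw [hS]; exact insS_g hfg hx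
  have h4 : ∀ p, p ∉ f '' B → p ∉ g '' B → c'.S κ p = c.S κ p := by
    intro p h1 h2; rw [hS]; exact insS_other h1 h2 (by simp)
  refine ⟨c', ?_, ?_⟩
  · have : c'.Phi ν = c.Phi ν + (- ν.real (f '' B ∪ g '' B)) := by
      refine Phi_change hne ?_
      have := real_change (ν := ν) (F := {x | c.S κ x = x}) (F' := {x | c'.S κ x = x})
        (P := f '' B ∪ g '' B) (Q := ∅) ((measurable_image hB).union (measurable_image hB))
        MeasurableSet.empty ?_ (by simp) ?_
      · rw [this]; simp; ring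
      · rintro p (⟨x, hx, rfl⟩ | ⟨x, hx, rfl⟩)
        · exact hf x hx
        · exact hg x hx
      · ext p
        simp only [mem_ofPred_eq, mem_union, Set.mem_sdiff, mem_empty_iff_false, or_false]
        by_cases k1 : p ∈ f '' B
        · simp only [k1, true_or, not_true, and_false, iff_false]
          obtain ⟨x, hx, rfl⟩ := k1
          rw [h1 x hx]
          exact fun he => hfg.ne_of_mem ⟨x, hx, rfl⟩ ⟨x, hx, rfl⟩ he.symm
        by_cases k2 : p ∈ g '' B
        · simp only [k2, or_true, not_true, and_false, iff_false]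
          obtain ⟨x, hx, rfl⟩ := k2
          rw [h2 x hx]
          exact fun he => hfg.ne_of_mem ⟨x, hx, rfl⟩ ⟨x, hx, rfl⟩ he
        · simp only [k1, k2, or_false, not_false_iff, and_true]
          rw [h4 p k1 k2]
    rw [this, measureReal_union hfg (measurable_image hB)]
    ring
  · refine (dst_change (P := (f '' B ∪ g '' B)) hne ?_).trans (measureReal_union_le _ _)
    intro p hp
    by_contra hcon
    simp only [mem_union, not_or] at hcon
    exact hp (h4 p hcon.1 hcon.2).symm

/-- Shifting uncoloured edges along a family of disjoint chains. -/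
lemma shift (n : ℕ) : ∀ (c : PCol G Δ) (φ : ℕ → V ≃ᵐ V) (K : ℕ → Fin Δ) (B : Set V),
    MeasurableSet B →
    (∀ l l', l ≤ n + 1 → l' ≤ n + 1 → l ≠ l' → Disjoint (φ l '' B) (φ l' '' B)) →
    (∀ x ∈ B, G.Adj (φ 0 x) (φ 1 x)) →
    (∀ x ∈ B, ∀ k, c.S k (φ 0 x) ≠ φ 1 x) →
    (∀ x ∈ B, ∀ l < n, c.S (K (l+1)) (φ (l+1) x) = φ (l+2) x) →
    (∀ x ∈ B, ∀ l < n, c.S (K (l+1)) (φ l x) = φ l x ∨ (2 ≤ l ∧ K (l+1) = K (l-1))) →
    ∃ c' : PCol G Δ,
      c'.Phi ν = c.Phi ν + ∑ l ∈ Finset.range n, (ν.real (φ (l+2) '' B) - ν.real (φ l '' B)) ∧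
      dst ν c c' ≤ ∑ l ∈ Finset.range n,
        (ν.real (φ l '' B) + ν.real (φ (l+1) '' B) + ν.real (φ (l+2) '' B)) ∧
      (∀ x ∈ B, G.Adj (φ n x) (φ (n+1) x)) ∧
      (∀ x ∈ B, ∀ k, c'.S k (φ n x) ≠ φ (n+1) x) ∧
      (∀ x ∈ B, ∀ k, (c.S k (φ n x) = φ n x ∨ (2 ≤ n ∧ k = K (n-1))) →
        c'.S k (φ n x) = φ n x) ∧
      (∀ x ∈ B, ∀ k, c.S k (φ (n+1) x) = φ (n+1) x → c'.S k (φ (n+1) x) = φ (n+1) x) := by
  induction n with
  | zero =>
    intro c φ K B hB hdis hadj hunc hstep hcond
    refine ⟨c, by simp, by simp [dst_self], hadj, hunc, ?_, ?_⟩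
    · rintro x hx k (h | ⟨h, -⟩)
      · exact h
      · omega
    · intro x hx k h; exact h
  | succ n ih =>
    intro c φ K B hB hdis hadj hunc hstep hcond
    have d01 := hdis 0 1 (by omega) (by omega) (by omega)
    have d02 := hdis 0 2 (by omega) (by omega) (by omega)
    have d12 := hdis 1 2 (by omega) (by omega) (by omega)
    have hne : ∀ x ∈ B, ∀ l l', l ≤ n + 2 → l' ≤ n + 2 → l ≠ l' → φ l x ≠ φ l' x := by
      intro x hx l l' h1 h2 h3
      exact (hdis l l' h1 h2 h3).ne_of_mem ⟨x, hx, rfl⟩ ⟨x, hx, rfl⟩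
    have hf : ∀ x ∈ B, c.S (K 1) (φ 0 x) = φ 0 x := by
      intro x hx
      rcases hcond x hx 0 (by omega) with h | ⟨h, -⟩
      · exact h
      · omega
    have hg : ∀ x ∈ B, c.S (K 1) (φ 1 x) = φ 2 x := fun x hx => hstep x hx 0 (by omega)
    obtain ⟨c1, e0, e1, e2, e3, e4, ePhi, edst⟩ :=
      moveStep (ν := ν) c (K 1) (φ 0) (φ 1) (φ 2) B hB d01 d02 d12 hadj hunc hf hg
    have notin : ∀ x ∈ B, ∀ l, 3 ≤ l → l ≤ n + 2 →
        φ l x ∉ φ 0 '' B ∧ φ l x ∉ φ 1 '' B ∧ φ l x ∉ φ 2 '' B := by
      intro x hx l h1 h2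
      refine ⟨fun h => ?_, fun h => ?_, fun h => ?_⟩
      · exact (hdis l 0 h2 (by omega) (by omega)).ne_of_mem ⟨x, hx, rfl⟩ h rfl
      · exact (hdis l 1 h2 (by omega) (by omega)).ne_of_mem ⟨x, hx, rfl⟩ h rfl
      · exact (hdis l 2 h2 (by omega) (by omega)).ne_of_mem ⟨x, hx, rfl⟩ h rfl
    -- transfer of free colours
    have transfer : ∀ x ∈ B, ∀ k, ∀ l ≤ n,
        (c.S k (φ (l+1) x) = φ (l+1) x ∨ (2 ≤ l + 1 ∧ k = K l)) →
        (c1.S k (φ (l+1) x) = φ (l+1) x ∨ (2 ≤ l ∧ k = K l)) := by
      rintro x hx k l hl (h | ⟨h, h'⟩)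
      · left
        by_cases hk : k = K 1
        · subst hk
          rcases Nat.lt_or_ge l 2 with hl2 | hl2
          · interval_cases l
            · rw [hg x hx] at h
              exact absurd h (hne x hx 2 1 (by omega) (by omega) (by omega))
            · exact e3 x hx
          · obtain ⟨a, b, d⟩ := notin x hx (l+1) (by omega) (by omega)
            rw [e4 _ a b d]; exact h
        · rw [e0 k hk]; exact h
      · rcases Nat.lt_or_ge l 2 with hl2 | hl2
        · have : l = 1 := by omega
          subst this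
          left
          rw [h']
          exact e3 x hx
        · right; exact ⟨hl2, h'⟩
    have IH := ih c1 (fun l => φ (l+1)) (fun l => K (l+1)) B hB
      (fun l l' h1 h2 h3 => hdis (l+1) (l'+1) (by omega) (by omega) (by omega)) ?_ ?_ ?_ ?_
    · obtain ⟨c', f1, f2, f3, f4, f5, f6⟩ := IH
      refine ⟨c', ?_, ?_, f3, f4, ?_, ?_⟩
      · rw [f1, ePhi, Finset.sum_range_succ' _ n]
        simp only [zero_add]
        ring
      · rw [Finset.sum_range_succ' _ n]
        refine (dst_triangle c c1 c').trans ?_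
        simp only [zero_add]
        rw [add_comm]
        exact add_le_add f2 edst
      · intro x hx k hk
        apply f5 x hx k
        have := transfer x hx k n le_rfl (by simpa using hk)
        rcases this with h | ⟨h, h'⟩
        · left; exact h
        · right
          refine ⟨h, ?_⟩
          have : n - 1 + 1 = n := by omega
          rw [this]; exact h'
      · intro x hx k hk
        apply f6 x hx k
        by_cases hk1 : k = K 1
        · subst hk1
          rcases Nat.eq_zero_or_pos n with hn | hn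
          · subst hn; exact e3 x hx
          · obtain ⟨a, b, d⟩ := notin x hx (n+2) (by omega) (by omega)
            change c1.S (K 1) (φ (n+2) x) = φ (n+2) x
            rw [e4 _ a b d]; exact hk
        · rw [e0 k hk1]; exact hk
    · intro x hx
      have := c.adj (K 1) (φ 1 x) (by rw [hg x hx]; exact hne x hx 2 1 (by omega) (by omega) (by omega))
      rw [hg x hx] at this
      exact this
    · intro x hx k
      change c1.S k (φ 1 x) ≠ φ 2 x
      by_cases hk : k = K 1
      · subst hk
        rw [e2 x hx]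
        exact hne x hx 0 2 (by omega) (by omega) (by omega)
      · rw [e0 k hk]
        intro h
        have h2 := hg x hx
        exact hk (c.disj k (K 1) (φ 1 x) (h.trans h2.symm)
          (by rw [h]; exact hne x hx 2 1 (by omega) (by omega) (by omega)))
    · intro x hx l hl
      change c1.S (K (l+2)) (φ (l+2) x) = φ (l+3) x
      have hs := hstep x hx (l+1) (by omega)
      by_cases hk : K (l+2) = K 1
      · rcases Nat.eq_zero_or_pos l with h0 | h0
        · subst h0
          exfalso
          rcases hcond x hx 1 (by omega) with h | ⟨h, -⟩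
          · change c.S (K 2) (φ 1 x) = φ 1 x at h
            change K 2 = K 1 at hk
            rw [hk, hg x hx] at h
            exact hne x hx 2 1 (by omega) (by omega) (by omega) h
          · omega
        · obtain ⟨a, b, d⟩ := notin x hx (l+2) (by omega) (by omega)
          rw [hk, e4 _ a b d, ← hk]
          exact hs
      · rw [e0 _ hk]; exact hs
    · intro x hx l hl
      change c1.S (K (l+2)) (φ (l+1) x) = φ (l+1) x ∨ (2 ≤ l ∧ K (l+2) = K (l-1+1))
      have := transfer x hx (K (l+2)) l (by omega) (by simpa using hcond x hx (l+1) (by omega))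
      rcases this with h | ⟨h, h'⟩
      · left; exact h
      · right
        refine ⟨h, ?_⟩
        have : l - 1 + 1 = l := by omega
        rw [this]; exact h'

end PCol

end Pool.Agent.MEC
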