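import Pool.Agent.MEC.Dens
import Pool.Agent.MEC.Shift
import Pool.Agent.MEC.Ekeland

open MeasureTheory Set Filter
open scoped ENNReal

set_option linter.unusedSectionVars false

namespace Pool.Agent.MEC

variable {V : Type*} [MeasurableSpace V] [StandardBorelSpace V]
variable {G : SimpleGraph V} {Δ : ℕ}

lemma exists_separating (V : Type*) [MeasurableSpace V] [StandardBorelSpace V] :
    ∃ E : ℚ × Bool → Set V, (∀ n, MeasurableSet (E n)) ∧ ∀ x y, x ≠ y → ∃ n, x ∈ E n ∧ y ∉ E n := by
  refine ⟨fun p => if p.2 then {x | embeddingReal V x < p.1} else {x | (p.1 : ℝ) < embeddingReal V x},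
    ?_, ?_⟩
  · rintro ⟨q, b⟩
    cases b
    · exact measurableSet_lt measurable_const (measurable_embeddingReal V)
    · exact measurableSet_lt (measurable_embeddingReal V) measurable_const
  · intro x y hxy
    have hne : embeddingReal V x ≠ embeddingReal V y :=
      fun h => hxy ((measurableEmbedding_embeddingReal V).injective h)
    rcases lt_or_gt_of_ne hne with h | h
    · obtain ⟨q, h1, h2⟩ := exists_rat_btwn h
      refine ⟨(q, true), ?_, ?_⟩
      · exact h1
      · change ¬ (embeddingReal V y < (q : ℝ))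
        exact not_lt.2 h2.le
    · obtain ⟨q, h1, h2⟩ := exists_rat_btwn h
      refine ⟨(q, false), ?_, ?_⟩
      · exact h2
      · change ¬ ((q : ℝ) < embeddingReal V y)
        exact not_lt.2 h1.le

lemma exists_disjoint_pair (ν : Measure V) (φ ψ : V ≃ᵐ V) (B : Set V) (hB : MeasurableSet B)
    (hpos : ν B ≠ 0) (hne : ∀ x ∈ B, φ x ≠ ψ x) :
    ∃ B' ⊆ B, MeasurableSet B' ∧ ν B' ≠ 0 ∧ Disjoint (φ '' B') (ψ '' B') := by
  obtain ⟨E, hE, hsep⟩ := exists_separating V
  have hcov : B ⊆ ⋃ n, (B ∩ (φ ⁻¹' (E n) ∩ ψ ⁻¹' (E n)ᶜ)) := by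
    intro x hx
    obtain ⟨n, h1, h2⟩ := hsep _ _ (hne x hx)
    exact mem_iUnion.2 ⟨n, hx, h1, h2⟩
  have : ∃ n, ν (B ∩ (φ ⁻¹' (E n) ∩ ψ ⁻¹' (E n)ᶜ)) ≠ 0 := by
    by_contra hcon
    push Not at hcon
    exact hpos (measure_mono_null hcov (measure_iUnion_null hcon))
  obtain ⟨n, hn⟩ := this
  refine ⟨_, inter_subset_left, ?_, hn, ?_⟩
  · exact hB.inter ((φ.measurable (hE n)).inter (ψ.measurable (hE n).compl))
  · rw [Set.disjoint_left]
    rintro _ ⟨x, ⟨-, hx, -⟩, rfl⟩ ⟨x', ⟨-, -, hx'⟩, he⟩
    apply hx'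
    rw [he]; exact hx

lemma exists_disjoint_piece (ν : Measure V) (φ : ℕ → V ≃ᵐ V) (s : Finset (ℕ × ℕ)) (B : Set V)
    (hB : MeasurableSet B) (hpos : ν B ≠ 0) (hne : ∀ x ∈ B, ∀ p ∈ s, φ p.1 x ≠ φ p.2 x) :
    ∃ B' ⊆ B, MeasurableSet B' ∧ ν B' ≠ 0 ∧ ∀ p ∈ s, Disjoint (φ p.1 '' B') (φ p.2 '' B') := by
  classical
  induction s using Finset.induction_on with
  | empty => exact ⟨B, Subset.rfl, hB, hpos, by simp⟩
  | insert p s hp ih =>
    obtain ⟨B1, h1, h2, h3, h4⟩ := ih (fun x hx q hq => hne x hx q (Finset.mem_insert_of_mem hq))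
    obtain ⟨B2, k1, k2, k3, k4⟩ := exists_disjoint_pair ν (φ p.1) (φ p.2) B1 h2 h3
      (fun x hx => hne x (h1 hx) p (Finset.mem_insert_self _ _))
    refine ⟨B2, k1.trans h1, k2, k3, ?_⟩
    intro q hq
    rcases Finset.mem_insert.1 hq with rfl | hq
    · exact k4
    · exact (h4 q hq).mono (image_mono k1) (image_mono k1)

section

variable (g : Gen G Δ) (c : PCol G Δ) (i : ℕ) (K : ℕ → Fin Δ)

/-- The colour `k` is free at `y_n` when the token sits on the edge `y_n y_{n+1}`. -/
def Free (n : ℕ) (k : Fin Δ) (x : V) : Prop :=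
  c.S k (word g c i K n x) = word g c i K n x ∨ (2 ≤ n ∧ k = K (n-1))

/-- The word describes a legal walk of the token starting from the uncoloured edge `x, T i x`. -/
def Valid : ℕ → V → Prop
  | 0, x => g.T i x ≠ x ∧ ∀ k, c.S k x ≠ g.T i x
  | (n+1), x => Valid n x ∧ Free g c i K n (K (n+1)) x ∧
      c.S (K (n+1)) (word g c i K (n+1) x) ≠ word g c i K (n+1) x

/-- Sum of the first `n` densities. -/
noncomputable def sumD (ν : Measure V) (n : ℕ) (x : V) : ℝ≥0∞ :=
  ∑ l ∈ Finset.range n, dens ν (word g c i K l) x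

variable {g c i K}

lemma Valid.mono {n m : ℕ} (h : m ≤ n) {x : V} (hx : Valid g c i K n x) : Valid g c i K m x := by
  induction n, h using Nat.le_induction with
  | base => exact hx
  | succ n _ ih => exact ih hx.1

lemma Valid.free {n : ℕ} {x : V} (hx : Valid g c i K n x) {l : ℕ} (hl : l < n) :
    Free g c i K l (K (l+1)) x := (hx.mono (show l + 1 ≤ n from hl)).2.1

lemma Valid.ne {n : ℕ} {x : V} (hx : Valid g c i K n x) {l : ℕ} (hl : l < n) :
    c.S (K (l+1)) (word g c i K (l+1) x) ≠ word g c i K (l+1) x :=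
  (hx.mono (show l + 1 ≤ n from hl)).2.2

lemma measurableSet_Free (n : ℕ) (k : Fin Δ) : MeasurableSet {x | Free g c i K n k x} := by
  unfold Free
  by_cases h : 2 ≤ n ∧ k = K (n-1)
  · simp [h]
  · simp only [h, or_false]
    exact measurableSet_eq_fun ((c.meas k).comp (word g c i K n).measurable)
      (word g c i K n).measurable

lemma measurableSet_Valid (n : ℕ) : MeasurableSet {x | Valid g c i K n x} := by
  induction n with
  | zero =>
    have : {x | Valid g c i K 0 x} = {x | g.T i x ≠ x} ∩ ⋂ k, {x | c.S k x = g.T i x}ᶜ := by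
      ext x; simp [Valid]
    rw [this]
    exact (g.measurableSet_D i).inter
      (MeasurableSet.iInter fun k => (measurableSet_eq_fun (c.meas k) (g.meas i)).compl)
  | succ n ih =>
    have : {x | Valid g c i K (n+1) x} = {x | Valid g c i K n x} ∩
        ({x | Free g c i K n (K (n+1)) x} ∩
          {x | c.S (K (n+1)) (word g c i K (n+1) x) = word g c i K (n+1) x}ᶜ) := by
      ext x; simp [Valid]
    rw [this]
    exact ih.inter ((measurableSet_Free n _).inter
      (measurableSet_eq_fun ((c.meas _).comp (word g c i K (n+1)).measurable)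
        (word g c i K (n+1)).measurable).compl)

lemma measurable_sumD (ν : Measure V) (n : ℕ) : Measurable (sumD g c i K ν n) := by
  unfold sumD
  exact Finset.measurable_sum _ fun l _ => measurable_dens ν _

lemma sum_telescope (m : ℕ → ℝ) (n : ℕ) :
    ∑ l ∈ Finset.range n, (m (l+2) - m l) = m n + m (n+1) - m 0 - m 1 := by
  induction n with
  | zero => simp
  | succ n ih => rw [Finset.sum_range_succ, ih]; ring

lemma sum_three (m : ℕ → ℝ) (hm : ∀ l, 0 ≤ m l) (n : ℕ) :
    ∑ l ∈ Finset.range n, (m l + m (l+1) + m (l+2)) + m n + m (n+1) ≤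
      3 * ∑ l ∈ Finset.range (n+2), m l := by
  have e1 : ∑ l ∈ Finset.range (n+2), m l = ∑ l ∈ Finset.range n, m l + m n + m (n+1) := by
    rw [Finset.sum_range_succ, Finset.sum_range_succ]
  have e2 : ∑ l ∈ Finset.range (n+2), m l = ∑ l ∈ Finset.range n, m (l+1) + m (n+1) + m 0 := by
    rw [Finset.sum_range_succ', Finset.sum_range_succ]
  have e3 : ∑ l ∈ Finset.range (n+2), m l = ∑ l ∈ Finset.range n, m (l+2) + m 1 + m 0 := by
    rw [Finset.sum_range_succ', Finset.sum_range_succ']
  have h0 := hm 0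
  have h1 := hm 1
  have h2 := hm (n+1)
  rw [Finset.sum_add_distrib, Finset.sum_add_distrib]
  linarith

variable {ν : Measure V} [IsFiniteMeasure ν] {C : ℝ≥0∞}

/-- Common part of the two improvement arguments. -/
lemma improve_aux (hq : QInv G ν C) {H : ℝ} (hH : 0 < H) (n : ℕ)
    (hdist : ∀ x, Valid g c i K n x → ∀ l l', l ≤ n + 1 → l' ≤ n + 1 → l ≠ l' →
      word g c i K l x ≠ word g c i K l' x)
    (I : Set V) (hI : MeasurableSet I) (hIv : ∀ x ∈ I, Valid g c i K n x)
    (hIs : ∀ x ∈ I, sumD g c i K ν (n+2) x ≤ ENNReal.ofReal H) (hpos : ν I ≠ 0) :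
    ∃ B ⊆ I, MeasurableSet B ∧ 0 < ν.real B ∧
      (∀ l l', l ≤ n + 1 → l' ≤ n + 1 → l ≠ l' →
        Disjoint (word g c i K l '' B) (word g c i K l' '' B)) ∧
      ∑ l ∈ Finset.range (n+2), ν.real (word g c i K l '' B) ≤ H * ν.real B := by
  classical
  obtain ⟨B, hBI, hBm, hBpos, hBdis⟩ := exists_disjoint_piece ν (fun l => word g c i K l)
    ((Finset.range (n+2) ×ˢ Finset.range (n+2)).filter fun p => p.1 ≠ p.2) I hI hpos (by
      rintro x hx ⟨l, l'⟩ hp
      simp only [Finset.mem_filter, Finset.mem_product, Finset.mem_range] at hp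
      exact hdist x (hIv x hx) l l' (by omega) (by omega) hp.2)
  refine ⟨B, hBI, hBm, ?_, ?_, ?_⟩
  · rw [measureReal_def]
    exact ENNReal.toReal_pos hBpos (measure_ne_top _ _)
  · intro l l' h1 h2 h3
    refine hBdis (l, l') ?_
    simp only [Finset.mem_filter, Finset.mem_product, Finset.mem_range]
    exact ⟨⟨by omega, by omega⟩, h3⟩
  · have h1 : ∑ l ∈ Finset.range (n+2), ν (word g c i K l '' B) ≤ ENNReal.ofReal H * ν B := by
      calc ∑ l ∈ Finset.range (n+2), ν (word g c i K l '' B)
          = ∑ l ∈ Finset.range (n+2), ∫⁻ x in B, dens ν (word g c i K l) x ∂ν := by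
            refine Finset.sum_congr rfl fun l _ => ?_
            rw [(word_bdd g c i K hq l).setLIntegral_dens]
        _ = ∫⁻ x in B, sumD g c i K ν (n+2) x ∂ν := by
            unfold sumD
            rw [lintegral_finsetSum _ fun l _ => measurable_dens ν _]
        _ ≤ ∫⁻ _ in B, ENNReal.ofReal H ∂ν := by
            refine setLIntegral_mono measurable_const fun x hx => hIs x (hBI hx)
        _ = ENNReal.ofReal H * ν B := by rw [setLIntegral_const]
    have h2 : ∑ l ∈ Finset.range (n+2), ν.real (word g c i K l '' B) =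
        (∑ l ∈ Finset.range (n+2), ν (word g c i K l '' B)).toReal := by
      rw [ENNReal.toReal_sum fun l _ => measure_ne_top _ _]
      rfl
    rw [h2]
    refine (ENNReal.toReal_mono (ENNReal.mul_ne_top ENNReal.ofReal_ne_top (measure_ne_top _ _))
      h1).trans ?_
    rw [ENNReal.toReal_mul, ENNReal.toReal_ofReal hH.le]
    rfl

lemma improve_move (hq : QInv G ν C) {H : ℝ} (hH : 0 < H) (hopt : PCol.Opt ν (1 / (12 * H)) c)
    (n : ℕ)
    (hdist : ∀ x, Valid g c i K n x → ∀ l l', l ≤ n + 1 → l' ≤ n + 1 → l ≠ l' →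
      word g c i K l x ≠ word g c i K l' x) :
    ∀ᵐ x ∂ν, Valid g c i K n x → sumD g c i K ν (n+2) x ≤ ENNReal.ofReal H →
      2⁻¹ < dens ν (word g c i K n) x + dens ν (word g c i K (n+1)) x := by
  set I : Set V := {x | Valid g c i K n x} ∩ ({x | sumD g c i K ν (n+2) x ≤ ENNReal.ofReal H} ∩
    {x | dens ν (word g c i K n) x + dens ν (word g c i K (n+1)) x ≤ 2⁻¹}) with hI
  have hIm : MeasurableSet I := (measurableSet_Valid n).inter
    ((measurableSet_le (measurable_sumD ν _) measurable_const).inter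
      (measurableSet_le ((measurable_dens ν _).add (measurable_dens ν _)) measurable_const))
  have hnull : ν I = 0 := by
    by_contra hpos
    obtain ⟨B, hBI, hBm, hBpos, hBdis, hBsum⟩ := improve_aux hq hH n hdist I hIm
      (fun x hx => hx.1) (fun x hx => hx.2.1) hpos
    obtain ⟨c', e1, e2, -, -, -, -⟩ := PCol.shift (ν := ν) n c (fun l => word g c i K l) K B hBm
      hBdis
      (fun x hx => g.adj i x ((hBI hx).1.mono (Nat.zero_le _)).1)
      (fun x hx => ((hBI hx).1.mono (Nat.zero_le _)).2)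
      (fun x hx l hl => rfl)
      (fun x hx l hl => (hBI hx).1.free hl)
    have hop := hopt c'
    rw [e1, sum_telescope (fun l => ν.real (word g c i K l '' B))] at hop
    have h3 := sum_three (fun l => ν.real (word g c i K l '' B)) (fun l => measureReal_nonneg) n
    have hm0 : ν.real (word g c i K 0 '' B) = ν.real B := by
      congr 1
      change (fun x => x) '' B = B
      simp
    have hmn : ν.real (word g c i K n '' B) + ν.real (word g c i K (n+1) '' B) ≤
        (1/2) * ν.real B := by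
      have h1 : ν (word g c i K n '' B) + ν (word g c i K (n+1) '' B) ≤ 2⁻¹ * ν B := by
        rw [← (word_bdd g c i K hq n).setLIntegral_dens,
          ← (word_bdd g c i K hq (n+1)).setLIntegral_dens,
          ← lintegral_add_left (measurable_dens ν _)]
        calc _ ≤ ∫⁻ _ in B, (2⁻¹ : ℝ≥0∞) ∂ν :=
              setLIntegral_mono measurable_const fun x hx => (hBI hx).2.2
          _ = 2⁻¹ * ν B := by rw [setLIntegral_const]
      have h2 := ENNReal.toReal_mono (ENNReal.mul_ne_top (by simp) (measure_ne_top _ _)) h1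
      rw [ENNReal.toReal_add (measure_ne_top _ _) (measure_ne_top _ _), ENNReal.toReal_mul] at h2
      simpa [measureReal_def] using h2
    have hmn1 : 0 ≤ ν.real (word g c i K 1 '' B) := measureReal_nonneg
    have hmn2 : 0 ≤ ν.real (word g c i K n '' B) := measureReal_nonneg
    have hmn3 : 0 ≤ ν.real (word g c i K (n+1) '' B) := measureReal_nonneg
    have hd : PCol.dst ν c c' ≤ 3 * (H * ν.real B) := by
      refine e2.trans ?_
      linarith
    have hcost : 1 / (12 * H) * PCol.dst ν c c' ≤ (1/4) * ν.real B := by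
      calc 1 / (12 * H) * PCol.dst ν c c' ≤ 1 / (12 * H) * (3 * (H * ν.real B)) := by gcongr
        _ = (1/4) * ν.real B := by field_simp; ring
    rw [hm0] at hop
    linarith
  rw [ae_iff]
  refine measure_mono_null ?_ hnull
  intro x hx
  simp only [mem_ofPred_eq, Classical.not_imp, not_lt] at hx
  exact ⟨hx.1, hx.2.1, hx.2.2⟩

lemma improve_finish (hq : QInv G ν C) {H : ℝ} (hH : 0 < H) (hopt : PCol.Opt ν (1 / (12 * H)) c)
    (n : ℕ)
    (hdist : ∀ x, Valid g c i K n x → ∀ l l', l ≤ n + 1 → l' ≤ n + 1 → l ≠ l' →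
      word g c i K l x ≠ word g c i K l' x) (k : Fin Δ) :
    ∀ᵐ x ∂ν, Valid g c i K n x → sumD g c i K ν (n+2) x ≤ ENNReal.ofReal H →
      Free g c i K n k x → c.S k (word g c i K (n+1) x) ≠ word g c i K (n+1) x := by
  set I : Set V := {x | Valid g c i K n x} ∩ ({x | sumD g c i K ν (n+2) x ≤ ENNReal.ofReal H} ∩
    ({x | Free g c i K n k x} ∩ {x | c.S k (word g c i K (n+1) x) = word g c i K (n+1) x})) with hI
  have hIm : MeasurableSet I := (measurableSet_Valid n).inter
    ((measurableSet_le (measurable_sumD ν _) measurable_const).inter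
      ((measurableSet_Free n k).inter
        (measurableSet_eq_fun ((c.meas k).comp (word g c i K (n+1)).measurable)
          (word g c i K (n+1)).measurable)))
  have hnull : ν I = 0 := by
    by_contra hpos
    obtain ⟨B, hBI, hBm, hBpos, hBdis, hBsum⟩ := improve_aux hq hH n hdist I hIm
      (fun x hx => hx.1) (fun x hx => hx.2.1) hpos
    obtain ⟨c1, e1, e2, e3, e4, e5, e6⟩ := PCol.shift (ν := ν) n c (fun l => word g c i K l) K B hBm
      hBdis
      (fun x hx => g.adj i x ((hBI hx).1.mono (Nat.zero_le _)).1)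
      (fun x hx => ((hBI hx).1.mono (Nat.zero_le _)).2)
      (fun x hx l hl => rfl)
      (fun x hx l hl => (hBI hx).1.free hl)
    obtain ⟨c', f1, f2⟩ := PCol.finishStep (ν := ν) c1 k (word g c i K n) (word g c i K (n+1)) B hBm
      (hBdis n (n+1) (by omega) (by omega) (by omega)) e3 e4
      (fun x hx => e5 x hx k (hBI hx).2.2.1) (fun x hx => e6 x hx k (hBI hx).2.2.2)
    have hop := hopt c'
    rw [f1, e1, sum_telescope (fun l => ν.real (word g c i K l '' B))] at hop
    have h3 := sum_three (fun l => ν.real (word g c i K l '' B)) (fun l => measureReal_nonneg) n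
    have hm0 : ν.real (word g c i K 0 '' B) = ν.real B := by
      congr 1
      change (fun x => x) '' B = B
      simp
    have hmn1 : 0 ≤ ν.real (word g c i K 1 '' B) := measureReal_nonneg
    have hd : PCol.dst ν c c' ≤ 3 * (H * ν.real B) := by
      refine (PCol.dst_triangle c c1 c').trans ?_
      refine (add_le_add e2 f2).trans ?_
      linarith
    have hcost : 1 / (12 * H) * PCol.dst ν c c' ≤ (1/4) * ν.real B := by
      calc 1 / (12 * H) * PCol.dst ν c c' ≤ 1 / (12 * H) * (3 * (H * ν.real B)) := by gcongr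
        _ = (1/4) * ν.real B := by field_simp; ring
    rw [hm0] at hop
    linarith
  rw [ae_iff]
  refine measure_mono_null ?_ hnull
  intro x hx
  simp only [mem_ofPred_eq, Classical.not_imp, not_not] at hx
  exact ⟨hx.1, hx.2.1, hx.2.2.1, hx.2.2.2⟩

end

end Pool.Agent.MEC
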