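import Pool.Agent.MEC.Compare

open MeasureTheory Set Filter
open scoped ENNReal

set_option linter.unusedSectionVars false

namespace Pool.Agent.MEC

variable {V : Type*} [MeasurableSpace V] [StandardBorelSpace V]
variable {G : SimpleGraph V} {Δ : ℕ}

/-- real version of the constant of quasi-invariance -/
noncomputable def CR (Δ : ℕ) : ℝ := 2 * (Δ + 1) + 1

lemma ofReal_CR (Δ : ℕ) : ENNReal.ofReal (CR Δ) = Gen.CC Δ := by
  unfold CR Gen.CC
  rw [ENNReal.ofReal_add (by positivity) (by norm_num), ENNReal.ofReal_mul (by norm_num),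
    ENNReal.ofReal_add (by positivity) (by norm_num)]
  simp

lemma CR_pos (Δ : ℕ) : 0 < CR Δ := by unfold CR; positivity

lemma two_le_CC (Δ : ℕ) : 2 ≤ Gen.CC Δ := by
  unfold Gen.CC
  have h1 : (1 : ℝ≥0∞) ≤ (Δ : ℝ≥0∞) + 1 := le_add_self
  calc (2 : ℝ≥0∞) = 2 * 1 := by ring
    _ ≤ 2 * ((Δ : ℝ≥0∞) + 1) := by gcongr
    _ ≤ _ := le_self_add

/-- the thresholds -/
noncomputable def HH (Δ R s : ℕ) : ℝ := 2 * CR Δ ^ (2 + 2 * ((R+1) * s))

lemma HH_pos (Δ R s : ℕ) : 0 < HH Δ R s := by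
  unfold HH; have := CR_pos Δ; positivity

lemma HH_succ (Δ R s : ℕ) : HH Δ R (s+1) = CR Δ ^ (2 * (R+1)) * HH Δ R s := by
  unfold HH
  have : 2 + 2 * ((R+1) * (s+1)) = 2 * (R+1) + (2 + 2 * ((R+1) * s)) := by ring
  rw [this, pow_add]
  ring

lemma FE_bound {μ : Measure V} [IsFiniteMeasure μ] (g : Gen G Δ) (hG : NBInj G) {R : ℕ}
    (hR : Sparse G Δ R) {ν : Measure V} [IsFiniteMeasure ν] (hq : QInv G ν (Gen.CC Δ))
    {c : PCol G Δ} {s : ℕ} (hs : 0 < s) (hopt : PCol.Opt ν (1 / (12 * HH Δ R s)) c)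
    (k0 : Fin Δ) :
    (FE ν g c).toReal ≤ 2 * Δ ^ 5 * ν.real univ / (s ^ 2 * HH Δ R s) := by
  have hH := HH_pos Δ R s
  have h1 := unc_bound hq (two_le_CC Δ) hG hR g hH hopt k0 s (by
    unfold HH
    rw [ENNReal.ofReal_mul (by norm_num), ENNReal.ofReal_pow (CR_pos Δ).le, ofReal_CR]
    simp)
  have h2 : ((s : ℝ≥0∞) * (s * (ENNReal.ofReal (HH Δ R s) / 2)) * FE ν g c).toReal ≤
      ((Δ : ℝ≥0∞) ^ 5 * ν univ).toReal := by
    refine ENNReal.toReal_mono (ENNReal.mul_ne_top (by simp) (measure_ne_top _ _)) ?_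
    exact h1
  rw [ENNReal.toReal_mul, ENNReal.toReal_mul, ENNReal.toReal_mul, ENNReal.toReal_mul,
    ENNReal.toReal_div, ENNReal.toReal_pow, ENNReal.toReal_natCast, ENNReal.toReal_natCast,
    ENNReal.toReal_ofReal hH.le] at h2
  have hs' : (0 : ℝ) < s := by exact_mod_cast hs
  rw [le_div_iff₀ (by positivity)]
  have h3 : (ν univ).toReal = ν.real univ := rfl
  rw [h3] at h2
  have h4 : (2 : ℝ≥0∞).toReal = 2 := by simp
  rw [h4] at h2
  nlinarith

/-- The main construction: an almost everywhere total colouring with `Δ` colours. -/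
theorem exists_total (g : Gen G Δ) (hG : NBInj G) {R : ℕ} (hR : Sparse G Δ R)
    (μ : Measure V) [IsFiniteMeasure μ] :
    ∃ c : PCol G Δ, ∀ᵐ x ∂μ, ∀ y, G.Adj x y → ∃ k, c.S k x = y := by
  rcases Nat.eq_zero_or_pos Δ with hΔ | hΔ
  · refine ⟨PCol.empty G Δ, ?_⟩
    refine Filter.Eventually.of_forall fun x y hxy => ?_
    exfalso
    obtain ⟨i, hi⟩ := g.cover x y hxy
    have := g.card x {i} (by
      intro a ha
      rw [Finset.mem_singleton.1 ha, hi]
      exact hxy.ne.symm)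
    rw [Finset.card_singleton] at this
    omega
  have k0 : Fin Δ := ⟨0, hΔ⟩
  set ν := g.nu μ with hν
  have hνfin : IsFiniteMeasure ν := ⟨g.nu_univ_lt_top μ⟩
  have hq : QInv G ν (Gen.CC Δ) := g.qinv_nu μ
  -- the sequence of nearly optimal colourings
  have hlam : ∀ n, 0 < 1 / (12 * HH Δ R n) := fun n => by
    have := HH_pos Δ R n; positivity
  choose next hn1 hn2 using fun (n : ℕ) (c : PCol G Δ) =>
    PCol.exists_opt (ν := ν) (1 / (12 * HH Δ R n)) (hlam n) c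
  let c : ℕ → PCol G Δ := fun n => Nat.rec (PCol.empty G Δ) (fun n c => next (n+1) c) n
  have hcs : ∀ n, c (n+1) = next (n+1) (c n) := fun n => rfl
  have hopt : ∀ n, PCol.Opt ν (1 / (12 * HH Δ R (n+1))) (c (n+1)) := fun n => by
    rw [hcs]; exact hn1 (n+1) (c n)
  have hdst : ∀ n, (c (n+1)).Phi ν + 1 / (12 * HH Δ R (n+1)) * PCol.dst ν (c n) (c (n+1)) ≤
      (c n).Phi ν := fun n => by
    rw [hcs]; exact hn2 (n+1) (c n)
  have hF : ∀ n, (FE ν g (c (n+1))).toReal ≤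
      2 * Δ ^ 5 * ν.real univ / ((n+1 : ℕ) ^ 2 * HH Δ R (n+1)) := fun n =>
    FE_bound (μ := μ) g hG hR hq (Nat.succ_pos n) (hopt n) k0
  set A := 2 * (Δ : ℝ) ^ 5 * ν.real univ with hA
  have hA0 : 0 ≤ A := by positivity
  have hd2 : ∀ n, PCol.dst ν (c (n+1)) (c (n+1+1)) ≤
      12 * CR Δ ^ (2 * (R+1)) * A * (1 / ((n+1 : ℕ) : ℝ) ^ 2) := by
    intro n
    have h1 := hdst (n+1)
    have h2 := Phi_le_add_FE ν g (c (n+1)) (c (n+1+1))
    have h3 := hF n
    have hH1 := HH_pos Δ R (n+1)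
    have hH2 := HH_pos Δ R (n+1+1)
    have h4 : 1 / (12 * HH Δ R (n+1+1)) * PCol.dst ν (c (n+1)) (c (n+1+1)) ≤
        A / ((n+1 : ℕ) ^ 2 * HH Δ R (n+1)) := by linarith
    have h5 : PCol.dst ν (c (n+1)) (c (n+1+1)) ≤
        12 * HH Δ R (n+1+1) * (A / ((n+1 : ℕ) ^ 2 * HH Δ R (n+1))) := by
      have h6 : PCol.dst ν (c (n+1)) (c (n+1+1)) = 12 * HH Δ R (n+1+1) *
          (1 / (12 * HH Δ R (n+1+1)) * PCol.dst ν (c (n+1)) (c (n+1+1))) := by
        field_simp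
      rw [h6]
      exact mul_le_mul_of_nonneg_left h4 (by positivity)
    refine h5.trans (le_of_eq ?_)
    rw [HH_succ Δ R (n+1)]
    have hn : ((n+1 : ℕ) : ℝ) ≠ 0 := by positivity
    field_simp
  have hsq : Summable fun n : ℕ => 1 / ((n+1 : ℕ) : ℝ) ^ 2 :=
    (summable_nat_add_iff 1).2 (Real.summable_one_div_nat_pow.2 (by norm_num : 1 < 2))
  have hsum1 : Summable fun n => PCol.dst ν (c (n+1)) (c (n+1+1)) :=
    Summable.of_nonneg_of_le (fun n => PCol.dst_nonneg _ _) hd2 (hsq.mul_left _)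
  have hsum : Summable fun n => PCol.dst ν (c n) (c (n+1)) :=
    (summable_nat_add_iff 1).1 hsum1
  -- summability of the uncoloured parts
  have hFs : Summable fun n => (FE ν g (c (n+1))).toReal := by
    refine Summable.of_nonneg_of_le (fun n => ENNReal.toReal_nonneg) (fun n => ?_)
      (hsq.mul_left (A / 2))
    refine (hF n).trans ?_
    have hHge : (2 : ℝ) ≤ HH Δ R (n+1) := by
      unfold HH
      have : 1 ≤ CR Δ ^ (2 + 2 * ((R+1) * (n+1))) := one_le_pow₀ (by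
        unfold CR
        have : (0 : ℝ) ≤ Δ := by positivity
        linarith)
      linarith
    have hn : (0 : ℝ) < ((n+1 : ℕ) : ℝ) := by positivity
    have e : A / 2 * (1 / ((n+1 : ℕ) : ℝ) ^ 2) = A / (((n+1 : ℕ) : ℝ) ^ 2 * 2) := by
      field_simp
    rw [e]
    exact div_le_div_of_nonneg_left hA0 (by positivity) (by gcongr)
  have hFsum : ∀ i, ∑' n, ν (Unc g (c (n+1)) i) ≠ ⊤ := by
    intro i
    refine ne_top_of_le_ne_top hFs.tsum_ofReal_ne_top (ENNReal.tsum_le_tsum fun n => ?_)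
    rw [ENNReal.ofReal_toReal (FE_ne_top ν g _)]
    exact ENNReal.le_tsum i
  refine ⟨PCol.lim c, ?_⟩
  have hae : ∀ᵐ x ∂ν, ∀ y, G.Adj x y → ∃ k, (PCol.lim c).S k x = y := by
    have h1 := PCol.ae_eventually_eq_lim (ν := ν) c hsum
    have h2 : ∀ᵐ x ∂ν, ∀ i, ∀ᶠ n in atTop, x ∉ Unc g (c (n+1)) i := by
      rw [ae_all_iff]
      exact fun i => ae_eventually_notMem (hFsum i)
    filter_upwards [h1, h2] with x hx1 hx2 y hxy
    by_contra hcon
    push Not at hcon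
    obtain ⟨i, hi⟩ := g.cover x y hxy
    have h3 : ∀ᶠ n in atTop, ∀ k, (c n).S k x = (PCol.lim c).S k x :=
      Filter.eventually_all.2 hx1
    have h3' : ∀ᶠ n in atTop, ∀ k, (c (n+1)).S k x = (PCol.lim c).S k x :=
      (tendsto_add_atTop_nat 1).eventually h3
    obtain ⟨n, hn1, hn2⟩ := (h3'.and (hx2 i)).exists
    apply hn2
    refine ⟨?_, fun k => ?_⟩
    · rw [hi]; exact hxy.ne.symm
    · rw [hn1 k, hi]; exact hcon k
  exact (Measure.absolutelyContinuous_of_le (g.le_nu μ)) hae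

end Pool.Agent.MEC
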