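import Pool.Agent.MEC.Basic

open MeasureTheory Set Filter
open scoped ENNReal

set_option linter.unusedSectionVars false

namespace Pool.Agent.MEC

variable {V : Type*} [MeasurableSpace V]
variable {G : SimpleGraph V} {Δ : ℕ}

/-- Countably many measurable involutions whose nontrivial pairs list every edge of `G` exactly
once, together with a degree bound. -/
structure Gen (G : SimpleGraph V) (Δ : ℕ) where
  T : ℕ → V → V
  meas : ∀ i, Measurable (T i)
  invol : ∀ i x, T i (T i x) = x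
  adj : ∀ i x, T i x ≠ x → G.Adj x (T i x)
  cover : ∀ x y, G.Adj x y → ∃ i, T i x = y
  disj : ∀ i j x, T i x = T j x → T i x ≠ x → i = j
  card : ∀ x (s : Finset ℕ), (∀ i ∈ s, T i x ≠ x) → s.card ≤ Δ

/-- Quasi-invariance with a constant for all measurable involutions moving along edges. -/
def QInv (G : SimpleGraph V) (ν : Measure V) (C : ℝ≥0∞) : Prop :=
  ∀ S : V → V, Measurable S → (∀ x, S (S x) = x) → (∀ x, S x ≠ x → G.Adj x (S x)) →
    ∀ B, MeasurableSet B → ν (S ⁻¹' B) ≤ C * ν B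

/-- A countable family of measurable sets of bounded multiplicity. -/
lemma tsum_measure_le_of_mult {ι : Type*} [Countable ι] (ν : Measure V) (A : ι → Set V)
    (hA : ∀ i, MeasurableSet (A i)) (N : ℕ)
    (h : ∀ x (s : Finset ι), (∀ i ∈ s, x ∈ A i) → s.card ≤ N) :
    ∑' i, ν (A i) ≤ N * ν univ := by
  classical
  have h1 : ∀ i, ν (A i) = ∫⁻ x, (A i).indicator 1 x ∂ν := fun i => by
    rw [lintegral_indicator_one (hA i)]
  simp_rw [h1]
  rw [← lintegral_tsum]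
  · calc ∫⁻ x, ∑' i, (A i).indicator (1 : V → ℝ≥0∞) x ∂ν ≤ ∫⁻ _, (N : ℝ≥0∞) ∂ν := by
          refine lintegral_mono fun x => ?_
          rw [ENNReal.tsum_eq_iSup_sum]
          refine iSup_le fun s => ?_
          have h2 : ∑ i ∈ s, (A i).indicator (1 : V → ℝ≥0∞) x =
              ((s.filter fun i => x ∈ A i).card : ℝ≥0∞) := by
            rw [Finset.card_filter, Nat.cast_sum]
            refine Finset.sum_congr rfl fun i _ => ?_
            by_cases hx : x ∈ A i <;> simp [hx]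
          rw [h2]
          exact_mod_cast h x _ fun i hi => (Finset.mem_filter.1 hi).2
      _ = N * ν univ := by rw [lintegral_const]
  · intro i
    exact (measurable_one.indicator (hA i)).aemeasurable

namespace Gen

variable (g : Gen G Δ)

/-- The adjacency operator on measures. -/
noncomputable def K (μ : Measure V) : Measure V :=
  Measure.sum fun i => (μ.restrict {x | g.T i x ≠ x}).map (g.T i)

variable [MeasurableEq V]

lemma measurableSet_D (i : ℕ) : MeasurableSet {x | g.T i x ≠ x} :=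
  (measurableSet_eq_fun (g.meas i) measurable_id).compl

lemma K_apply (μ : Measure V) {B : Set V} (hB : MeasurableSet B) :
    g.K μ B = ∑' i, μ (g.T i ⁻¹' B ∩ {x | g.T i x ≠ x}) := by
  rw [K, Measure.sum_apply _ hB]
  refine tsum_congr fun i => ?_
  rw [Measure.map_apply (g.meas i) hB, Measure.restrict_apply (g.meas i hB)]

lemma K_univ_le (μ : Measure V) : g.K μ univ ≤ Δ * μ univ := by
  rw [g.K_apply μ MeasurableSet.univ]
  simp only [preimage_univ, univ_inter]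
  exact tsum_measure_le_of_mult μ _ g.measurableSet_D Δ g.card

/-- iterates of `K` -/
noncomputable def Kn (μ : Measure V) : ℕ → Measure V
  | 0 => μ
  | n+1 => g.K (Kn μ n)

lemma Kn_univ_le (μ : Measure V) (n : ℕ) : g.Kn μ n univ ≤ Δ ^ n * μ univ := by
  induction n with
  | zero => simp [Kn]
  | succ n ih =>
    calc g.Kn μ (n+1) univ ≤ Δ * g.Kn μ n univ := g.K_univ_le _
      _ ≤ Δ * (Δ ^ n * μ univ) := by gcongr
      _ = Δ ^ (n+1) * μ univ := by ring

/-- the weight -/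
noncomputable def a (Δ : ℕ) : ℝ≥0∞ := (2 * (Δ + 1))⁻¹

lemma a_ne_top : a Δ ≠ ⊤ := by
  unfold a
  simp

lemma a_ne_zero : a Δ ≠ 0 := by
  unfold a
  rw [ne_eq, ENNReal.inv_eq_zero]
  exact ENNReal.mul_ne_top (by simp) (by simp)

lemma a_inv : (a Δ)⁻¹ = 2 * (Δ + 1) := by unfold a; rw [inv_inv]

lemma a_mul_le : a Δ * Δ ≤ 2⁻¹ := by
  have h1 : (2 * ((Δ : ℝ≥0∞) + 1))⁻¹ = 2⁻¹ * ((Δ : ℝ≥0∞) + 1)⁻¹ :=
    ENNReal.mul_inv (by simp) (by simp)
  unfold a
  rw [h1, mul_assoc]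
  have h2 : ((Δ : ℝ≥0∞) + 1)⁻¹ * Δ ≤ 1 := by
    rw [mul_comm]
    rw [← div_eq_mul_inv]
    exact ENNReal.div_le_of_le_mul (by rw [one_mul]; exact le_self_add)
  calc 2⁻¹ * (((Δ : ℝ≥0∞) + 1)⁻¹ * Δ) ≤ 2⁻¹ * 1 := by gcongr
    _ = 2⁻¹ := mul_one _

/-- the quasi-invariant measure -/
noncomputable def nu (μ : Measure V) : Measure V := Measure.sum fun n => (a Δ)^n • g.Kn μ n

lemma nu_apply (μ : Measure V) {B : Set V} (hB : MeasurableSet B) :
    g.nu μ B = ∑' n, (a Δ)^n * g.Kn μ n B := by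
  rw [nu, Measure.sum_apply _ hB]
  rfl

lemma le_nu (μ : Measure V) : μ ≤ g.nu μ := by
  refine Measure.le_iff.2 fun B hB => ?_
  rw [g.nu_apply μ hB]
  calc μ B = (a Δ)^0 * g.Kn μ 0 B := by simp [Kn]
    _ ≤ _ := ENNReal.le_tsum 0

lemma nu_univ_lt_top (μ : Measure V) [IsFiniteMeasure μ] : g.nu μ univ < ⊤ := by
  rw [g.nu_apply μ MeasurableSet.univ]
  calc ∑' n, (a Δ)^n * g.Kn μ n univ ≤ ∑' n, (2⁻¹ : ℝ≥0∞)^n * μ univ := by
        refine ENNReal.tsum_le_tsum fun n => ?_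
        calc (a Δ)^n * g.Kn μ n univ ≤ (a Δ)^n * (Δ ^ n * μ univ) := by
              gcongr; exact g.Kn_univ_le μ n
          _ = (a Δ * Δ)^n * μ univ := by rw [mul_pow]; ring
          _ ≤ _ := by gcongr; exact a_mul_le
    _ = 2 * μ univ := by
        rw [ENNReal.tsum_mul_right, ENNReal.tsum_geometric]
        congr 1
        rw [ENNReal.one_sub_inv_two, inv_inv]
    _ < ⊤ := ENNReal.mul_lt_top (by simp) (measure_lt_top _ _)

lemma K_nu_le (μ : Measure V) {B : Set V} (hB : MeasurableSet B) :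
    g.K (g.nu μ) B ≤ (a Δ)⁻¹ * g.nu μ B := by
  rw [g.K_apply _ hB, g.nu_apply μ hB]
  have hm : ∀ i, MeasurableSet (g.T i ⁻¹' B ∩ {x | g.T i x ≠ x}) := fun i =>
    (g.meas i hB).inter (g.measurableSet_D i)
  have h1 : ∑' i, g.nu μ (g.T i ⁻¹' B ∩ {x | g.T i x ≠ x}) =
      ∑' n, (a Δ)^n * g.Kn μ (n+1) B := by
    calc ∑' i, g.nu μ (g.T i ⁻¹' B ∩ {x | g.T i x ≠ x})
        = ∑' i, ∑' n, (a Δ)^n * g.Kn μ n (g.T i ⁻¹' B ∩ {x | g.T i x ≠ x}) := by
          refine tsum_congr fun i => g.nu_apply μ (hm i)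
      _ = ∑' n, ∑' i, (a Δ)^n * g.Kn μ n (g.T i ⁻¹' B ∩ {x | g.T i x ≠ x}) :=
          ENNReal.tsum_comm
      _ = ∑' n, (a Δ)^n * g.Kn μ (n+1) B := by
          refine tsum_congr fun n => ?_
          rw [ENNReal.tsum_mul_left]
          congr 1
          exact (g.K_apply _ hB).symm
  rw [h1, ← ENNReal.tsum_mul_left]
  calc ∑' n, (a Δ)^n * g.Kn μ (n+1) B
      = ∑' n, (a Δ)⁻¹ * ((a Δ)^(n+1) * g.Kn μ (n+1) B) := by
        refine tsum_congr fun n => ?_
        rw [pow_succ, ← mul_assoc, mul_comm ((a Δ)^n) (a Δ), ← mul_assoc,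
          ENNReal.inv_mul_cancel a_ne_zero a_ne_top, one_mul]
    _ ≤ ∑' n, (a Δ)⁻¹ * ((a Δ)^n * g.Kn μ n B) :=
        ENNReal.tsum_comp_le_tsum_of_injective (f := fun n : ℕ => n + 1)
          (fun _ _ h => Nat.succ_injective h) _

/-- The constant of quasi-invariance. -/
noncomputable def CC (Δ : ℕ) : ℝ≥0∞ := 2 * (Δ + 1) + 1

lemma qinv_nu (μ : Measure V) : QInv G (g.nu μ) (CC Δ) := by
  intro S hS hinv hadj B hB
  have hsub : S ⁻¹' B ⊆ B ∪ ⋃ i, (g.T i ⁻¹' B ∩ {x | g.T i x ≠ x}) := by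
    intro x hx
    by_cases hfix : S x = x
    · left; rw [mem_preimage, hfix] at hx; exact hx
    · right
      obtain ⟨i, hi⟩ := g.cover x (S x) (hadj x hfix)
      rw [mem_iUnion]
      refine ⟨i, ?_, ?_⟩
      · rw [mem_preimage, hi]; exact hx
      · show g.T i x ≠ x
        rw [hi]; exact hfix
  calc g.nu μ (S ⁻¹' B) ≤ g.nu μ (B ∪ ⋃ i, (g.T i ⁻¹' B ∩ {x | g.T i x ≠ x})) :=
        measure_mono hsub
    _ ≤ g.nu μ B + g.nu μ (⋃ i, (g.T i ⁻¹' B ∩ {x | g.T i x ≠ x})) := measure_union_le _ _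
    _ ≤ g.nu μ B + ∑' i, g.nu μ (g.T i ⁻¹' B ∩ {x | g.T i x ≠ x}) := by
        gcongr; exact measure_iUnion_le _
    _ = g.nu μ B + g.K (g.nu μ) B := by rw [g.K_apply _ hB]
    _ ≤ g.nu μ B + (a Δ)⁻¹ * g.nu μ B := by gcongr; exact g.K_nu_le μ hB
    _ = CC Δ * g.nu μ B := by rw [a_inv, CC]; ring

end Gen

end Pool.Agent.MEC
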