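import Pool.Agent.MEC.Chain

open MeasureTheory Set Filter
open scoped ENNReal

set_option linter.unusedSectionVars false

namespace Pool.Agent.MEC

variable {V : Type*} [MeasurableSpace V] [StandardBorelSpace V]
variable {G : SimpleGraph V} {Δ : ℕ}

/-! ### Choosing a missing colour -/

open Classical in
/-- first colour of a list which is missing at `x` -/
noncomputable def pick (c : PCol G Δ) (k0 : Fin Δ) : List (Fin Δ) → V → Fin Δ
  | [], _ => k0
  | k :: L, x => if c.S k x = x then k else pick c k0 L x

lemma measurable_pick (c : PCol G Δ) (k0 : Fin Δ) (L : List (Fin Δ)) :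
    Measurable (pick c k0 L) := by
  classical
  induction L with
  | nil => exact measurable_const
  | cons k L ih =>
    have : pick c k0 (k :: L) = fun x => if c.S k x = x then k else pick c k0 L x := by
      funext x; rfl
    rw [this]
    exact Measurable.ite (measurableSet_eq_fun (c.meas k) measurable_id) measurable_const ih

lemma pick_spec (c : PCol G Δ) (k0 : Fin Δ) (L : List (Fin Δ)) (x : V) {k : Fin Δ} (hk : k ∈ L)
    (h : c.S k x = x) : c.S (pick c k0 L x) x = x := by
  classical
  induction L with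
  | nil => simp at hk
  | cons k' L ih =>
    unfold pick
    by_cases h' : c.S k' x = x
    · rw [if_pos h']; exact h'
    · rw [if_neg h']
      rcases List.mem_cons.1 hk with rfl | hk
      · exact absurd h h'
      · exact ih hk

lemma exists_miss_fun (c : PCol G Δ) (k0 : Fin Δ) :
    ∃ m : V → Fin Δ, Measurable m ∧ ∀ x, (∃ k, c.S k x = x) → c.S (m x) x = x := by
  refine ⟨pick c k0 (List.finRange Δ), measurable_pick _ _ _, ?_⟩
  rintro x ⟨k, hk⟩
  exact pick_spec c k0 _ x (List.mem_finRange k) hk

lemma exists_missing_of_unc (g : Gen G Δ) (c : PCol G Δ) {i : ℕ} {x : V} (h : g.T i x ≠ x)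
    (h' : ∀ k, c.S k x ≠ g.T i x) : ∃ k, c.S k x = x := by
  classical
  by_contra hcon
  push Not at hcon
  choose ι hι using fun k => g.cover x (c.S k x) (c.adj k x (hcon k))
  have hinj : Function.Injective ι := by
    intro k k' he
    refine c.disj k k' x ?_ (hcon k)
    rw [← hι k, ← hι k', he]
  have hnot : i ∉ Finset.univ.image ι := by
    intro hi
    obtain ⟨k, -, hk⟩ := Finset.mem_image.1 hi
    apply h' k
    rw [← hι k, hk]
  have hcard := g.card x (insert i (Finset.univ.image ι)) (by
    intro a ha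
    rcases Finset.mem_insert.1 ha with rfl | ha
    · exact h
    · obtain ⟨k, -, rfl⟩ := Finset.mem_image.1 ha
      rw [hι]; exact hcon k)
  rw [Finset.card_insert_of_notMem hnot, Finset.card_image_of_injective _ hinj,
    Finset.card_univ, Fintype.card_fin] at hcard
  omega

lemma exists_missing_of_deg (c : PCol G Δ) {x : V}
    (h : (G.neighborSet x).encard < Δ) : ∃ k, c.S k x = x := by
  by_contra hcon
  push Not at hcon
  have h1 : range (fun k => c.S k x) ⊆ G.neighborSet x := by
    rintro _ ⟨k, rfl⟩
    exact c.adj k x (hcon k)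
  have h2 : (range (fun k => c.S k x)).encard = Δ := by
    have hinj : Function.Injective (fun k => c.S k x) := fun k k' he => c.disj k k' x he (hcon k)
    rw [← image_univ, hinj.encard_image]
    simp
  have h3 := encard_le_encard h1
  rw [h2] at h3
  exact absurd h (not_lt.2 h3)

/-! ### Switching walks -/

section st

variable (g : Gen G Δ) (c : PCol G Δ) (m : V → Fin Δ) (sw : ℕ → Bool) (i : ℕ) (x : V)

/-- The state `(y_l, y_{l+1}, K_{l-1}, K_l)` of the switching walk. -/
def st : ℕ → V × V × Fin Δ × Fin Δ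
  | 0 => (x, g.T i x, m x, m x)
  | (l+1) => ((st l).2.1, c.S (if sw l then m (st l).1 else (st l).2.2.1) (st l).2.1,
      (st l).2.2.2, if sw l then m (st l).1 else (st l).2.2.1)

/-- The colours of the switching walk. -/
def col (l : ℕ) : Fin Δ := (st g c m sw i x l).2.2.2

lemma st_word (l : ℕ) : (st g c m sw i x l).1 = word g c i (col g c m sw i x) l x ∧
    (st g c m sw i x l).2.1 = word g c i (col g c m sw i x) (l+1) x := by
  induction l with
  | zero => exact ⟨rfl, rfl⟩
  | succ l ih =>
    refine ⟨ih.2, ?_⟩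
    rw [word_succ, ← ih.2]
    rfl

lemma st_prev (l : ℕ) : (st g c m sw i x (l+1)).2.2.1 = col g c m sw i x l := rfl

lemma col_sw {l : ℕ} (h : sw l = true) :
    col g c m sw i x (l+1) = m (word g c i (col g c m sw i x) l x) := by
  rw [← (st_word g c m sw i x l).1]
  change (if sw l then m (st g c m sw i x l).1 else (st g c m sw i x l).2.2.1) = _
  rw [if_pos h]

lemma col_nsw {l : ℕ} (h : sw (l+1) = false) :
    col g c m sw i x (l+2) = col g c m sw i x l := by
  change (if sw (l+1) then m (st g c m sw i x (l+1)).1 else (st g c m sw i x (l+1)).2.2.1) = _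
  rw [h]
  rfl

lemma st_congr {sw sw' : ℕ → Bool} {n : ℕ} (h : ∀ r < n, sw r = sw' r) :
    st g c m sw i x n = st g c m sw' i x n := by
  induction n with
  | zero => rfl
  | succ n ih =>
    have := ih fun r hr => h r (by omega)
    unfold st
    rw [this, h n (by omega)]

lemma col_congr {sw sw' : ℕ → Bool} {n : ℕ} (h : ∀ r < n, sw r = sw' r) :
    col g c m sw i x n = col g c m sw' i x n := by
  unfold col; rw [st_congr g c m i x h]

lemma measurable_st (hm : Measurable m) (l : ℕ) :
    Measurable (fun x => st g c m sw i x l) := by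
  have hS : Measurable (fun p : Fin Δ × V => c.S p.1 p.2) :=
    measurable_from_prod_countable_right fun k => c.meas k
  induction l with
  | zero =>
    exact measurable_id.prodMk ((g.meas i).prodMk (hm.prodMk hm))
  | succ l ih =>
    have h1 : Measurable fun x => (st g c m sw i x l).1 := ih.fst
    have h2 : Measurable fun x => (st g c m sw i x l).2.1 := ih.snd.fst
    have h3 : Measurable fun x => (st g c m sw i x l).2.2.1 := ih.snd.snd.fst
    have h4 : Measurable fun x => (st g c m sw i x l).2.2.2 := ih.snd.snd.snd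
    have h5 : Measurable fun x => (if sw l then m (st g c m sw i x l).1
        else (st g c m sw i x l).2.2.1) := by
      by_cases h : sw l
      · simp only [h, if_true]; exact hm.comp h1
      · simp only [h]; exact h3
    exact h2.prodMk ((hS.comp (h5.prodMk h2)).prodMk (h4.prodMk h5))

lemma measurable_col (hm : Measurable m) (l : ℕ) :
    Measurable (fun x => col g c m sw i x l) := (measurable_st g c m sw i hm l).snd.snd.snd

end st

/-! ### Validity of switching walks at good points -/

section valid

variable {g : Gen G Δ} {c : PCol G Δ} {m : V → Fin Δ} {sw : ℕ → Bool} {i : ℕ} {x : V}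
variable {ν : Measure V} {H : ℝ≥0∞}

lemma sumD_mono {K : ℕ → Fin Δ} {a b : ℕ} (h : a ≤ b) :
    sumD g c i K ν a x ≤ sumD g c i K ν b x := by
  unfold sumD
  exact Finset.sum_le_sum_of_subset (Finset.range_mono h)

/-- All switches of the walk happen at vertices with a missing colour. -/
def GoodSw (g : Gen G Δ) (c : PCol G Δ) (m : V → Fin Δ) (sw : ℕ → Bool) (i : ℕ) (x : V)
    (n : ℕ) : Prop :=
  ∀ l < n, sw l = true → c.S (m (word g c i (col g c m sw i x) l x))
    (word g c i (col g c m sw i x) l x) = word g c i (col g c m sw i x) l x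

lemma walk_valid (h0 : sw 0 = true) (h1 : sw 1 = true) (hNI : NI g c ν H x)
    (hx : g.T i x ≠ x ∧ ∀ k, c.S k x ≠ g.T i x) (n : ℕ)
    (hg : GoodSw g c m sw i x n)
    (hs : sumD g c i (col g c m sw i x) ν (n+1) x ≤ H) :
    Valid g c i (col g c m sw i x) n x := by
  induction n with
  | zero => exact hx
  | succ n ih =>
    have hv := ih (fun l hl => hg l (by omega)) ((sumD_mono (by omega)).trans hs)
    have hfree : Free g c i (col g c m sw i x) n (col g c m sw i x (n+1)) x := by
      by_cases hsw : sw n = true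
      · left
        rw [col_sw g c m sw i x hsw]
        exact hg n (by omega) hsw
      · right
        have hn : 2 ≤ n := by
          by_contra hcon
          have : n = 0 ∨ n = 1 := by omega
          rcases this with h | h <;> subst h
          · exact hsw h0
          · exact hsw h1
        obtain ⟨r, rfl⟩ : ∃ r, n = r + 1 := ⟨n - 1, by omega⟩
        refine ⟨hn, ?_⟩
        rw [Nat.add_sub_cancel]
        exact col_nsw g c m sw i x (by simpa using hsw)
    exact ⟨hv, hfree, (hNI i n _ hv hs).1 _ hfree⟩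

lemma walk_growth (h0 : sw 0 = true) (h1 : sw 1 = true) (hNI : NI g c ν H x)
    (hx : g.T i x ≠ x ∧ ∀ k, c.S k x ≠ g.T i x)
    (hg : ∀ n, GoodSw g c m sw i x n) (hH : H ≠ ⊤) :
    ∃ n, H < sumD g c i (col g c m sw i x) ν n x := by
  by_contra hcon
  push Not at hcon
  have hv : ∀ n, Valid g c i (col g c m sw i x) n x := fun n =>
    walk_valid h0 h1 hNI hx n (hg n) (hcon _)
  have hgr : ∀ n : ℕ, (n : ℝ≥0∞) * 2⁻¹ ≤ sumD g c i (col g c m sw i x) ν (2*n) x := by
    intro n
    induction n with
    | zero => simp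
    | succ n ih =>
      have e : sumD g c i (col g c m sw i x) ν (2*(n+1)) x =
          sumD g c i (col g c m sw i x) ν (2*n) x + (dens ν (word g c i (col g c m sw i x) (2*n)) x +
            dens ν (word g c i (col g c m sw i x) (2*n+1)) x) := by
        have : 2 * (n+1) = 2*n+1+1 := by ring
        rw [this]
        unfold sumD
        rw [Finset.sum_range_succ, Finset.sum_range_succ, add_assoc]
      rw [e, Nat.cast_add, add_mul, Nat.cast_one, one_mul]
      exact add_le_add ih (hNI i (2*n) _ (hv _) (hcon _)).2.le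
  have h2 : ∀ n : ℕ, (n : ℝ≥0∞) * 2⁻¹ ≤ H := fun n => (hgr n).trans (hcon _)
  obtain ⟨n, hn⟩ := ENNReal.exists_nat_gt (r := H * 2) (ENNReal.mul_ne_top hH (by simp))
  have h3 := h2 n
  have h4 : (n : ℝ≥0∞) ≤ H * 2 := by
    calc (n : ℝ≥0∞) = (n : ℝ≥0∞) * 2⁻¹ * 2 := by
          rw [mul_assoc, ENNReal.inv_mul_cancel (by simp) (by simp), mul_one]
      _ ≤ H * 2 := by gcongr
  exact absurd hn (not_lt.2 h4)

lemma unc_missing_zero (hm : ∀ x, (∃ k, c.S k x = x) → c.S (m x) x = x)
    (hx : g.T i x ≠ x ∧ ∀ k, c.S k x ≠ g.T i x) : c.S (m x) x = x :=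
  hm x (exists_missing_of_unc g c hx.1 hx.2)

lemma unc_missing_one (hm : ∀ x, (∃ k, c.S k x = x) → c.S (m x) x = x)
    (hx : g.T i x ≠ x ∧ ∀ k, c.S k x ≠ g.T i x) : c.S (m (g.T i x)) (g.T i x) = g.T i x := by
  refine hm _ (exists_missing_of_unc g c (i := i) ?_ ?_)
  · rw [g.invol]; exact hx.1.symm
  · intro k h
    rw [g.invol] at h
    apply hx.2 k
    have := c.invol k (g.T i x)
    rw [h] at this
    exact this

end valid

/-! ### Reading a walk backwards -/

/-- `Back c n h u v g u' v'`: following alternately the colours `u, v, u, …` from `h`, the first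
stall happens after `n` steps at `g`, with the colours `u', v'` in turn. -/
def Back (c : PCol G Δ) : ℕ → V → Fin Δ → Fin Δ → V → Fin Δ → Fin Δ → Prop
  | 0, h, u, v, y, u', v' => c.S u h = h ∧ y = h ∧ u' = u ∧ v' = v
  | (n+1), h, u, v, y, u', v' => c.S u h ≠ h ∧ Back c n (c.S u h) v u y u' v'

lemma Back.unique {c : PCol G Δ} {n n2 : ℕ} {h : V} {u v : Fin Δ} {y y2 : V}
    {u' v' u2 v2 : Fin Δ} (h1 : Back c n h u v y u' v') (h2 : Back c n2 h u v y2 u2 v2) :
    n = n2 ∧ y = y2 ∧ u' = u2 ∧ v' = v2 := by
  induction n generalizing n2 h u v with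
  | zero =>
    cases n2 with
    | zero =>
      obtain ⟨-, rfl, rfl, rfl⟩ := h1
      obtain ⟨-, rfl, rfl, rfl⟩ := h2
      exact ⟨rfl, rfl, rfl, rfl⟩
    | succ n2 => exact absurd h1.1 h2.1
  | succ n ih =>
    cases n2 with
    | zero => exact absurd h2.1 h1.1
    | succ n2 =>
      obtain ⟨a, b, d, e⟩ := ih h1.2 h2.2
      exact ⟨by omega, b, d, e⟩

section back

variable {g : Gen G Δ} {c : PCol G Δ} {i : ℕ} {K : ℕ → Fin Δ} {x : V}

/-- A run of the walk read backwards. -/
lemma back_run {s n : ℕ} (hs : 1 ≤ s) (hsn : s < n) (hv : Valid g c i K (n-1) x)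
    (hmiss : c.S (K (s+1)) (word g c i K s x) = word g c i K s x)
    (hK : ∀ r, s < r → r < n → K (r+1) = K (r-1)) :
    Back c (n-s) (word g c i K n x) (K (n-1)) (K n) (word g c i K s x) (K (s+1)) (K s) := by
  induction n, (show s + 1 ≤ n from hsn) using Nat.le_induction with
  | base =>
    have e : s + 1 - s = 0 + 1 := by omega
    rw [e]
    obtain ⟨t, rfl⟩ : ∃ t, s = t + 1 := ⟨s - 1, by omega⟩
    rw [Nat.add_sub_cancel] at *
    have hp : c.S (K (t+1)) (word g c i K (t+1+1) x) = word g c i K (t+1) x := word_pred t x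
    refine ⟨?_, ?_⟩
    · rw [hp]; exact (hv.word_ne le_rfl).symm
    · rw [hp]; exact ⟨hmiss, rfl, rfl, rfl⟩
  | succ n hn ih =>
    have e : n + 1 - s = (n - s) + 1 := by omega
    rw [e, Nat.add_sub_cancel]
    rw [Nat.add_sub_cancel] at hv
    obtain ⟨t, rfl⟩ : ∃ t, n = t + 1 := ⟨n - 1, by omega⟩
    have hp : c.S (K (t+1)) (word g c i K (t+1+1) x) = word g c i K (t+1) x := word_pred t x
    have IH := ih (by omega) (hv.mono (by omega)) (fun r h1 h2 => hK r h1 (by omega))
    refine ⟨?_, ?_⟩
    · rw [hp]; exact (hv.word_ne le_rfl).symm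
    · rw [hp, hK (t+1) (by omega) (by omega)]
      exact IH

end back

end Pool.Agent.MEC
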